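import Pool.Agent.H86.RB.BDefs

/-!
# The difference of two colourings is a colouring
-/

set_option autoImplicit false

namespace Pool.Agent.H86.RB

variable {N : ℕ}

/-- difference of two lists -/
def sb {α : Type*} [Sub α] (x y : List α) : List α := List.zipWith (fun a b => a - b) x y

theorem sb_append {α : Type*} [Sub α] {x x' : List α} (y y' : List α) (h : x.length = x'.length) :
    sb (x ++ y) (x' ++ y') = sb x x' ++ sb y y' := by
  unfold sb
  exact List.zipWith_append h

theorem sb_cons {α : Type*} [Sub α] (a b : α) (y y' : List α) :
    sb (a :: y) (b :: y') = (a - b) :: sb y y' := rfl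

theorem sb_nil {α : Type*} [Sub α] : sb ([] : List α) [] = [] := rfl

theorem sb_length {α : Type*} [Sub α] {x x' : List α} (h : x.length = x'.length) :
    (sb x x').length = x.length := by
  simp [sb, h]

theorem sp_sub {s : Bd} {st st' st2 st2' : List (ZMod N × ZMod N)} {c f c2 f2 : List (ZMod N)}
    (h : Sp N s st c f st') (h2 : Sp N s st2 c2 f2 st2') (hl : st.length = st2.length) :
    Sp N s (sb st st2) (sb c c2) (sb f f2) (sb st' st2') ∧ st'.length = st2'.length ∧
      c.length = c2.length ∧ f.length = f2.length := by
  cases h with
  | birth j x y c hx =>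
    cases h2 with
    | birth _ x' y' c' hx' =>
      have hxx : x.length = x'.length := by omega
      simp only [List.length_append, List.length_cons] at hl ⊢
      refine ⟨?_, by omega, trivial, trivial⟩
      rw [sb_append _ _ hxx, sb_append _ _ hxx]
      exact Sp.birth j (sb x x') (sb y y') (c - c') (by rw [sb_length hxx, hx])
  | death j x y c hx =>
    cases h2 with
    | death _ x' y' c' hx' =>
      have hxx : x.length = x'.length := by omega
      simp only [List.length_append, List.length_cons] at hl ⊢
      refine ⟨?_, by omega, trivial, trivial⟩
      rw [sb_append _ _ hxx, sb_append _ _ hxx]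
      exact Sp.death j (sb x x') (sb y y') (c - c') (by rw [sb_length hxx, hx])
  | split j x y a b c hx =>
    cases h2 with
    | split _ x' y' a' b' c' hx' =>
      have hxx : x.length = x'.length := by omega
      simp only [List.length_append, List.length_cons] at hl ⊢
      refine ⟨?_, by omega, trivial, trivial⟩
      rw [sb_append _ _ hxx, sb_append _ _ hxx]
      exact Sp.split j (sb x x') (sb y y') (a - a') (b - b') (c - c') (by rw [sb_length hxx, hx])
  | merge j x y a c d hx =>
    cases h2 with
    | merge _ x' y' a' c' d' hx' =>
      have hxx : x.length = x'.length := by omega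
      simp only [List.length_append, List.length_cons] at hl ⊢
      refine ⟨?_, by omega, trivial, trivial⟩
      rw [sb_append _ _ hxx, sb_append _ _ hxx]
      have := Sp.merge j (sb x x') (sb y y') (a - a') (c - c') (d - d') (by rw [sb_length hxx, hx])
      rw [show (d - d') - (c - c') = (d - c) - (d' - c') by ring] at this
      exact this
  | twt j x y a b hx =>
    cases h2 with
    | twt _ x' y' a' b' hx' =>
      have hxx : x.length = x'.length := by omega
      simp only [List.length_append, List.length_cons] at hl ⊢
      refine ⟨?_, by omega, trivial, trivial⟩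
      rw [sb_append _ _ hxx, sb_append _ _ hxx]
      have := Sp.twt j (sb x x') (sb y y') (a - a') (b - b') (by rw [sb_length hxx, hx])
      rw [show 2 * (a - a') - (b - b') = (2 * a - b) - (2 * a' - b') by ring] at this
      exact this
  | twf j x y a b hx =>
    cases h2 with
    | twf _ x' y' a' b' hx' =>
      have hxx : x.length = x'.length := by omega
      simp only [List.length_append, List.length_cons] at hl ⊢
      refine ⟨?_, by omega, trivial, trivial⟩
      rw [sb_append _ _ hxx, sb_append _ _ hxx]
      have := Sp.twf j (sb x x') (sb y y') (a - a') (b - b') (by rw [sb_length hxx, hx])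
      rw [show 2 * (b - b') - (a - a') = (2 * b - a) - (2 * b' - a') by ring] at this
      exact this
  | crt j x y a b c d hx =>
    cases h2 with
    | crt _ x' y' a' b' c' d' hx' =>
      have hxx : x.length = x'.length := by omega
      simp only [List.length_append, List.length_cons] at hl ⊢
      refine ⟨?_, by omega, trivial, trivial⟩
      rw [sb_append _ _ hxx, sb_append _ _ hxx]
      have := Sp.crt j (sb x x') (sb y y') (a - a') (b - b') (c - c') (d - d')
        (by rw [sb_length hxx, hx])
      rw [show (c - c') - 2 * ((b - b') - (a - a')) =
          (c - 2 * (b - a)) - (c' - 2 * (b' - a')) by ring,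
        show (d - d') - 2 * ((b - b') - (a - a')) =
          (d - 2 * (b - a)) - (d' - 2 * (b' - a')) by ring] at this
      exact this
  | crf j x y a b c d hx =>
    cases h2 with
    | crf _ x' y' a' b' c' d' hx' =>
      have hxx : x.length = x'.length := by omega
      simp only [List.length_append, List.length_cons] at hl ⊢
      refine ⟨?_, by omega, trivial, trivial⟩
      rw [sb_append _ _ hxx, sb_append _ _ hxx]
      have := Sp.crf j (sb x x') (sb y y') (a - a') (b - b') (c - c') (d - d')
        (by rw [sb_length hxx, hx])
      rw [show (a - a') + 2 * ((d - d') - (c - c')) =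
          (a + 2 * (d - c)) - (a' + 2 * (d' - c')) by ring,
        show (b - b') + 2 * ((d - d') - (c - c')) =
          (b + 2 * (d - c)) - (b' + 2 * (d' - c')) by ring] at this
      exact this
  | prt j x y a b c d hx =>
    cases h2 with
    | prt _ x' y' a' b' c' d' hx' =>
      have hxx : x.length = x'.length := by omega
      simp only [List.length_append, List.length_cons] at hl ⊢
      refine ⟨?_, by omega, trivial, trivial⟩
      rw [sb_append _ _ hxx, sb_append _ _ hxx]
      have := Sp.prt j (sb x x') (sb y y') (a - a') (b - b') (c - c') (d - d')
        (by rw [sb_length hxx, hx])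
      rw [show (c - c') - 2 * ((b - b') - (a - a')) =
          (c - 2 * (b - a)) - (c' - 2 * (b' - a')) by ring,
        show 2 * (d - d') - (a - a') = (2 * d - a) - (2 * d' - a') by ring,
        show 2 * (d - d') - (b - b') = (2 * d - b) - (2 * d' - b') by ring,
        show (a - a') - (b - b') = (a - b) - (a' - b') by ring] at this
      exact this
  | prf j x y a b c d hx =>
    cases h2 with
    | prf _ x' y' a' b' c' d' hx' =>
      have hxx : x.length = x'.length := by omega
      simp only [List.length_append, List.length_cons] at hl ⊢
      refine ⟨?_, by omega, trivial, trivial⟩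
      rw [sb_append _ _ hxx, sb_append _ _ hxx]
      have := Sp.prf j (sb x x') (sb y y') (a - a') (b - b') (c - c') (d - d')
        (by rw [sb_length hxx, hx])
      rw [show (d - d') + 2 * ((b - b') - (a - a')) =
          (d + 2 * (b - a)) - (d' + 2 * (b' - a')) by ring,
        show 2 * (c - c') - (a - a') = (2 * c - a) - (2 * c' - a') by ring,
        show 2 * (c - c') - (b - b') = (2 * c - b) - (2 * c' - b') by ring,
        show (a - a') - (b - b') = (a - b) - (a' - b') by ring] at this
      exact this
  | plt j x y a b c d hx =>
    cases h2 with
    | plt _ x' y' a' b' c' d' hx' =>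
      have hxx : x.length = x'.length := by omega
      simp only [List.length_append, List.length_cons] at hl ⊢
      refine ⟨?_, by omega, trivial, trivial⟩
      rw [sb_append _ _ hxx, sb_append _ _ hxx]
      have := Sp.plt j (sb x x') (sb y y') (a - a') (b - b') (c - c') (d - d')
        (by rw [sb_length hxx, hx])
      rw [show 2 * (b - b') - (c - c') = (2 * b - c) - (2 * b' - c') by ring,
        show 2 * (b - b') - (d - d') = (2 * b - d) - (2 * b' - d') by ring,
        show (a - a') - 2 * ((d - d') - (c - c')) =
          (a - 2 * (d - c)) - (a' - 2 * (d' - c')) by ring,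
        show (c - c') - (d - d') = (c - d) - (c' - d') by ring] at this
      exact this
  | plf j x y a b c d hx =>
    cases h2 with
    | plf _ x' y' a' b' c' d' hx' =>
      have hxx : x.length = x'.length := by omega
      simp only [List.length_append, List.length_cons] at hl ⊢
      refine ⟨?_, by omega, trivial, trivial⟩
      rw [sb_append _ _ hxx, sb_append _ _ hxx]
      have := Sp.plf j (sb x x') (sb y y') (a - a') (b - b') (c - c') (d - d')
        (by rw [sb_length hxx, hx])
      rw [show 2 * (a - a') - (c - c') = (2 * a - c) - (2 * a' - c') by ring,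
        show 2 * (a - a') - (d - d') = (2 * a - d) - (2 * a' - d') by ring,
        show (b - b') + 2 * ((d - d') - (c - c')) =
          (b + 2 * (d - c)) - (b' + 2 * (d' - c')) by ring,
        show (c - c') - (d - d') = (c - d) - (c' - d') by ring] at this
      exact this

theorem ev_sub {S : List Bd} {st st' st2 st2' : List (ZMod N × ZMod N)}
    {c f c2 f2 : List (ZMod N)} (h : Ev N S st c f st') (h2 : Ev N S st2 c2 f2 st2')
    (hl : st.length = st2.length) :
    Ev N S (sb st st2) (sb c c2) (sb f f2) (sb st' st2') ∧ st'.length = st2'.length ∧
      c.length = c2.length ∧ f.length = f2.length := by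
  induction h generalizing st2 st2' c2 f2 with
  | nil st =>
    cases h2 with
    | nil _ => exact ⟨Ev.nil _, hl, rfl, rfl⟩
  | cons s S st st1 st3 c1 c3 f1 f3 g1 g2 ih =>
    cases h2 with
    | cons _ _ _ st1' _ c1' c3' f1' f3' g1' g2' =>
      obtain ⟨k1, k2, k3, k4⟩ := sp_sub g1 g1' hl
      obtain ⟨l1, l2, l3, l4⟩ := ih g2' k2
      rw [sb_append _ _ k3, sb_append _ _ k4]
      refine ⟨Ev.cons s S _ _ _ _ _ _ _ k1 l1, l2, ?_, ?_⟩
      · rw [List.length_append, List.length_append, k3, l3]
      · rw [List.length_append, List.length_append, k4, l4]

end Pool.Agent.H86.RB
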