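import Pool.Agent.H86.RB.Run

/-!
# The alternating sum of the colours; colourings of a composition of long knots
-/

set_option autoImplicit false

namespace Pool.Agent.H86.RB

/-- alternating sum -/
def alt {N : ℕ} : List (ZMod N) → ZMod N
  | [] => 0
  | a :: l => a - alt l

theorem alt_congr {N : ℕ} (x : List (ZMod N)) {l l' : List (ZMod N)} (h : alt l = alt l') :
    alt (x ++ l) = alt (x ++ l') := by
  induction x with
  | nil => exact h
  | cons a x ih => simp only [List.cons_append, alt, ih]

variable {N : ℕ} [NeZero N]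

theorem alt_loc (k : Kd) (l t : List (ZMod N)) (ht : t ∈ loc N k l) : alt t = alt l := by
  match k, l, ht with
  | .cup, l, ht =>
    simp only [loc, Multiset.mem_map] at ht
    obtain ⟨c, _, rfl⟩ := ht
    simp [alt]
  | .cap, a :: b :: r, ht =>
    simp only [loc] at ht
    split_ifs at ht with h
    · rw [Multiset.mem_singleton] at ht
      subst ht
      simp [alt, h]
    · simp at ht
  | .cap, [], ht => simp [loc] at ht
  | .cap, [a], ht => simp [loc] at ht
  | .pos, a :: b :: r, ht =>
    simp only [loc, Multiset.mem_singleton] at ht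
    subst ht
    simp only [alt]
    ring
  | .pos, [], ht => simp [loc] at ht
  | .pos, [a], ht => simp [loc] at ht
  | .neg, a :: b :: r, ht =>
    simp only [loc, Multiset.mem_singleton] at ht
    subst ht
    simp only [alt]
    ring
  | .neg, [], ht => simp [loc] at ht
  | .neg, [a], ht => simp [loc] at ht

theorem alt_stp (s : Sl) (l t : List (ZMod N)) (ht : t ∈ stp N s l) : alt t = alt l := by
  simp only [stp, Multiset.mem_map] at ht
  obtain ⟨r, hr, rfl⟩ := ht
  rw [alt_congr (l.take s.i) (alt_loc s.k _ r hr), List.take_append_drop]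

theorem alt_run (w : Wd) (l : List (ZMod N)) : ∀ t ∈ run N w l, alt t = alt l := by
  induction w generalizing l with
  | nil =>
    intro t ht
    rw [run_nil, Multiset.mem_singleton] at ht
    rw [ht]
  | cons s w ih =>
    intro t ht
    rw [run_cons, Multiset.mem_bind] at ht
    obtain ⟨r, hr, ht⟩ := ht
    rw [ih r t ht, alt_stp s l r hr]

/-- the upper end of a long knot has the colour of the lower end -/
theorem run_long (w : Wd) (h : ty w 1 = some 1) :
    run N w [0] = Multiset.replicate (col N w) [0] := by
  rw [Multiset.eq_replicate]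
  refine ⟨rfl, fun t ht => ?_⟩
  have h1 := run_len w [0] 1 (by simpa using h) t ht
  have h2 := alt_run w [0] t ht
  obtain ⟨a, rfl⟩ := List.length_eq_one_iff.1 h1
  simp only [alt, sub_zero] at h2
  rw [h2]

theorem col_append (v w : Wd) (h : ty v 1 = some 1) : col N (v ++ w) = col N v * col N w := by
  unfold col
  rw [run_append, run_long v h]
  simp [Multiset.card_bind, Multiset.map_replicate, Multiset.sum_replicate, col]

theorem col_nil : col N [] = 1 := by simp [col, run_nil]

theorem ty_flatten (L : List Wd) (h : ∀ K ∈ L, ty K 1 = some 1) : ty L.flatten 1 = some 1 := by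
  induction L with
  | nil => rfl
  | cons K L ih =>
    rw [List.flatten_cons, ty_append, h K (by simp)]
    exact ih fun K' hK' => h K' (by simp [hK'])

theorem col_flatten (L : List Wd) (h : ∀ K ∈ L, ty K 1 = some 1) :
    col N L.flatten = (L.map (fun K => col N K)).prod := by
  induction L with
  | nil => simp [col_nil]
  | cons K L ih =>
    rw [List.flatten_cons, col_append K _ (h K (by simp)), ih fun K' hK' => h K' (by simp [hK'])]
    simp

/-- the constant colouring -/
theorem zero_mem_loc (k : Kd) (n : ℕ) (h : k.nin ≤ n) :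
    List.replicate (n - k.nin + k.nout) (0 : ZMod N) ∈ loc N k (List.replicate n 0) := by
  cases k with
  | cup =>
    simp only [loc, Multiset.mem_map]
    exact ⟨0, Finset.mem_univ_val 0, by simp [Kd.nin, Kd.nout, List.replicate_succ]⟩
  | cap =>
    obtain ⟨m, rfl⟩ : ∃ m, n = m + 2 := ⟨n - 2, by simp only [Kd.nin] at h; omega⟩
    simp [loc, Kd.nin, Kd.nout, List.replicate_succ]
  | pos =>
    obtain ⟨m, rfl⟩ : ∃ m, n = m + 2 := ⟨n - 2, by simp only [Kd.nin] at h; omega⟩
    simp [loc, Kd.nin, Kd.nout, List.replicate_succ]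
  | neg =>
    obtain ⟨m, rfl⟩ : ∃ m, n = m + 2 := ⟨n - 2, by simp only [Kd.nin] at h; omega⟩
    simp [loc, Kd.nin, Kd.nout, List.replicate_succ]

theorem zero_mem_stp (s : Sl) (n : ℕ) (h : s.i + s.k.nin ≤ n) :
    List.replicate (n - s.k.nin + s.k.nout) (0 : ZMod N) ∈ stp N s (List.replicate n 0) := by
  simp only [stp, Multiset.mem_map, List.drop_replicate, List.take_replicate]
  refine ⟨_, zero_mem_loc s.k (n - s.i) (by omega), ?_⟩
  rw [← List.replicate_add]
  congr 1
  omega

theorem col_pos (w : Wd) (n m : ℕ) (h : ty w n = some m) :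
    List.replicate m (0 : ZMod N) ∈ run N w (List.replicate n 0) := by
  induction w generalizing n with
  | nil =>
    rw [ty_nil] at h
    cases h
    simp [run_nil]
  | cons s w ih =>
    rw [ty_cons] at h
    split_ifs at h with h1
    rw [run_cons, Multiset.mem_bind]
    exact ⟨_, zero_mem_stp s n h1, ih _ h⟩

theorem one_le_col (w : Wd) (h : ty w 1 = some 1) : 1 ≤ col N w := by
  have := col_pos (N := N) w 1 1 h
  unfold col
  exact Multiset.card_pos_iff_exists_mem.2 ⟨_, this⟩

end Pool.Agent.H86.RB
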