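import Pool.Agent.H86.RB.Defs

/-!
# Colourings of the boundary of a ribbon surface, band by band

A state is the list of the pairs (colour of the left edge, colour of the right edge) of the bands; the half plane (band `0`)
has the virtual left edge of colour `0`.
-/

set_option autoImplicit false

namespace Pool.Agent.H86.RB

/-- all edges of the bands, from left to right -/
def fl {N : ℕ} (st : List (ZMod N × ZMod N)) : List (ZMod N) := st.flatMap (fun p => [p.1, p.2])

/-- one band slice: `Sp N s st c f st'`: the state below is `st`, above `st'`; `c` is the list of the colours that are chosen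
(at a birth or split), `f` the list of the flows (at a merge: right colour minus left colour of the right band;
at a pass: left colour minus right colour of the passing band) -/
inductive Sp (N : ℕ) : Bd → List (ZMod N × ZMod N) → List (ZMod N) → List (ZMod N) →
    List (ZMod N × ZMod N) → Prop
  | birth (j : ℕ) (x y : List (ZMod N × ZMod N)) (c : ZMod N) (h : x.length = j + 1) :
      Sp N (.birth j) (x ++ y) [c] [] (x ++ (c, c) :: y)
  | death (j : ℕ) (x y : List (ZMod N × ZMod N)) (c : ZMod N) (h : x.length = j + 1) :
      Sp N (.death j) (x ++ (c, c) :: y) [] [] (x ++ y)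
  | split (j : ℕ) (x y : List (ZMod N × ZMod N)) (a b c : ZMod N) (h : x.length = j) :
      Sp N (.split j) (x ++ (a, b) :: y) [c] [] (x ++ (a, c) :: (c, b) :: y)
  | merge (j : ℕ) (x y : List (ZMod N × ZMod N)) (a c d : ZMod N) (h : x.length = j) :
      Sp N (.merge j) (x ++ (a, c) :: (c, d) :: y) [] [d - c] (x ++ (a, d) :: y)
  | twt (j : ℕ) (x y : List (ZMod N × ZMod N)) (a b : ZMod N) (h : x.length = j + 1) :
      Sp N (.twist true j) (x ++ (a, b) :: y) [] [] (x ++ (2 * a - b, a) :: y)
  | twf (j : ℕ) (x y : List (ZMod N × ZMod N)) (a b : ZMod N) (h : x.length = j + 1) :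
      Sp N (.twist false j) (x ++ (a, b) :: y) [] [] (x ++ (b, 2 * b - a) :: y)
  | crt (j : ℕ) (x y : List (ZMod N × ZMod N)) (a b c d : ZMod N) (h : x.length = j + 1) :
      Sp N (.cross true j) (x ++ (a, b) :: (c, d) :: y) [] []
        (x ++ (c - 2 * (b - a), d - 2 * (b - a)) :: (a, b) :: y)
  | crf (j : ℕ) (x y : List (ZMod N × ZMod N)) (a b c d : ZMod N) (h : x.length = j + 1) :
      Sp N (.cross false j) (x ++ (a, b) :: (c, d) :: y) [] []
        (x ++ (c, d) :: (a + 2 * (d - c), b + 2 * (d - c)) :: y)
  | prt (j : ℕ) (x y : List (ZMod N × ZMod N)) (a b c d : ZMod N) (h : x.length = j + 1) :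
      Sp N (.passR true j) (x ++ (a, b) :: (c, d) :: y) [] [a - b]
        (x ++ (c - 2 * (b - a), d) :: (2 * d - a, 2 * d - b) :: y)
  | prf (j : ℕ) (x y : List (ZMod N × ZMod N)) (a b c d : ZMod N) (h : x.length = j + 1) :
      Sp N (.passR false j) (x ++ (a, b) :: (c, d) :: y) [] [a - b]
        (x ++ (c, d + 2 * (b - a)) :: (2 * c - a, 2 * c - b) :: y)
  | plt (j : ℕ) (x y : List (ZMod N × ZMod N)) (a b c d : ZMod N) (h : x.length = j + 1) :
      Sp N (.passL true j) (x ++ (a, b) :: (c, d) :: y) [] [c - d]
        (x ++ (2 * b - c, 2 * b - d) :: (a - 2 * (d - c), b) :: y)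
  | plf (j : ℕ) (x y : List (ZMod N × ZMod N)) (a b c d : ZMod N) (h : x.length = j + 1) :
      Sp N (.passL false j) (x ++ (a, b) :: (c, d) :: y) [] [c - d]
        (x ++ (2 * a - c, 2 * a - d) :: (a, b + 2 * (d - c)) :: y)

/-- the same for a list of slices -/
inductive Ev (N : ℕ) : List Bd → List (ZMod N × ZMod N) → List (ZMod N) → List (ZMod N) →
    List (ZMod N × ZMod N) → Prop
  | nil (st : List (ZMod N × ZMod N)) : Ev N [] st [] [] st
  | cons (s : Bd) (S : List Bd) (st st1 st2 : List (ZMod N × ZMod N))
      (c1 c2 f1 f2 : List (ZMod N)) (h1 : Sp N s st c1 f1 st1) (h2 : Ev N S st1 c2 f2 st2) :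
      Ev N (s :: S) st (c1 ++ c2) (f1 ++ f2) st2

/-- the multiset of all (choices, flows, new state) of one band slice -/
def bst (N : ℕ) [NeZero N] : Bd → List (ZMod N × ZMod N) →
    Multiset (List (ZMod N) × List (ZMod N) × List (ZMod N × ZMod N))
  | .birth j, st => Finset.univ.val.map (fun c => ([c], [], st.take (j + 1) ++ (c, c) :: st.drop (j + 1)))
  | .death j, st =>
    match st.drop (j + 1) with
    | (a, b) :: r => if a = b then {([], [], st.take (j + 1) ++ r)} else 0
    | _ => 0
  | .split j, st =>
    match st.drop j with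
    | (a, b) :: r => Finset.univ.val.map (fun c => ([c], [], st.take j ++ (a, c) :: (c, b) :: r))
    | _ => 0
  | .merge j, st =>
    match st.drop j with
    | (a, b) :: (c, d) :: r => if b = c then {([], [d - c], st.take j ++ (a, d) :: r)} else 0
    | _ => 0
  | .twist p j, st =>
    match st.drop (j + 1) with
    | (a, b) :: r =>
      {([], [], st.take (j + 1) ++ (if p then (2 * a - b, a) else (b, 2 * b - a)) :: r)}
    | _ => 0
  | .cross p j, st =>
    match st.drop (j + 1) with
    | (a, b) :: (c, d) :: r =>
      {([], [], st.take (j + 1) ++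
        if p then (c - 2 * (b - a), d - 2 * (b - a)) :: (a, b) :: r
        else (c, d) :: (a + 2 * (d - c), b + 2 * (d - c)) :: r)}
    | _ => 0
  | .passR p j, st =>
    match st.drop (j + 1) with
    | (a, b) :: (c, d) :: r =>
      {([], [a - b], st.take (j + 1) ++
        if p then (c - 2 * (b - a), d) :: (2 * d - a, 2 * d - b) :: r
        else (c, d + 2 * (b - a)) :: (2 * c - a, 2 * c - b) :: r)}
    | _ => 0
  | .passL p j, st =>
    match st.drop (j + 1) with
    | (a, b) :: (c, d) :: r =>
      {([], [c - d], st.take (j + 1) ++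
        if p then (2 * b - c, 2 * b - d) :: (a - 2 * (d - c), b) :: r
        else (2 * a - c, 2 * a - d) :: (a, b + 2 * (d - c)) :: r)}
    | _ => 0

/-- the multiset of all (choices, flows) of a list of band slices -/
def brun (N : ℕ) [NeZero N] : List Bd → List (ZMod N × ZMod N) → Multiset (List (ZMod N) × List (ZMod N))
  | [], _ => {([], [])}
  | s :: S, st => (bst N s st).bind (fun t => (brun N S t.2.2).map (fun q => (t.1 ++ q.1, t.2.1 ++ q.2)))

/-- the names of the pieces after a list of slices -/
def nms : List Bd → ℕ → List ℕ → List ℕ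
  | [], _, vs => vs
  | s :: S, k, vs => nms S (rst s k vs).2.1 (rst s k vs).2.2

/-- the piece whose colour is doubled in a row -/
def Row.z : Row → ℕ
  | .mg a _ => a
  | .ps _ _ b => b

/-- value of a row: `u a - u b` or `u a + u n - 2 u b` -/
def Row.val {A : Type*} [Ring A] (u : ℕ → A) : Row → A
  | .mg a b => u a - u b
  | .ps a n b => u a + u n - 2 * u b

/-- coefficient of the piece `v` in a row -/
def Row.co (v : ℕ) : Row → ℤ
  | .mg a b => (if v = a then 1 else 0) - (if v = b then 1 else 0)
  | .ps a n b => (if v = a then 1 else 0) + (if v = n then 1 else 0) - 2 * (if v = b then 1 else 0)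

/-- is the row a pass -/
def Row.isps : Row → Bool
  | .mg _ _ => false
  | .ps _ _ _ => true

/-- the matrix of the rows, without the column of the half plane -/
def Mt (R : List Row) (m : ℕ) : Matrix (Fin m) (Fin m) ℤ :=
  fun i j => (R.getD i (.mg 0 0)).co (j + 1)

end Pool.Agent.H86.RB
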