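import Pool.Agent.H86.RB.BDefs

/-!
# The total flow; colourings without flow have equal colours on both edges of every band
-/

set_option autoImplicit false

namespace Pool.Agent.H86.RB

variable {N : ℕ}

/-- sum of (right colour minus left colour) -/
def tot (st : List (ZMod N × ZMod N)) : ZMod N := (st.map (fun p => p.2 - p.1)).sum

theorem sp_tot {s : Bd} {st st' : List (ZMod N × ZMod N)} {c f : List (ZMod N)}
    (h : Sp N s st c f st') : tot st' = tot st := by
  cases h <;> simp only [tot, List.map_append, List.map_cons, List.sum_append, List.sum_cons] <;> ring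

theorem ev_tot {S : List Bd} {st st' : List (ZMod N × ZMod N)} {c f : List (ZMod N)}
    (h : Ev N S st c f st') : tot st' = tot st := by
  induction h with
  | nil st => rfl
  | cons s S st st1 st2 c1 c2 f1 f2 h1 h2 ih => rw [ih, sp_tot h1]

/-- both edges of every band have the same colour -/
def Dg (st : List (ZMod N × ZMod N)) : Prop := ∀ p ∈ st, p.1 = p.2

theorem dg_append (x y : List (ZMod N × ZMod N)) : Dg (x ++ y) ↔ Dg x ∧ Dg y := by
  simp only [Dg, List.mem_append]
  constructor
  · exact fun h => ⟨fun p hp => h p (Or.inl hp), fun p hp => h p (Or.inr hp)⟩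
  · rintro ⟨h1, h2⟩ p (hp | hp)
    · exact h1 p hp
    · exact h2 p hp

theorem dg_cons (a b : ZMod N) (y : List (ZMod N × ZMod N)) : Dg ((a, b) :: y) ↔ a = b ∧ Dg y := by
  simp [Dg]

theorem sp_back {s : Bd} {st st' : List (ZMod N × ZMod N)} {c f : List (ZMod N)}
    (h : Sp N s st c f st') (hf : ∀ x ∈ f, x = 0) (h' : Dg st') : Dg st := by
  cases h with
  | birth j x y c hx =>
    rw [dg_append, dg_cons] at h'
    rw [dg_append]
    exact ⟨h'.1, h'.2.2⟩
  | death j x y c hx =>
    rw [dg_append] at h'
    rw [dg_append, dg_cons]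
    exact ⟨h'.1, rfl, h'.2⟩
  | split j x y a b c hx =>
    rw [dg_append, dg_cons, dg_cons] at h'
    rw [dg_append, dg_cons]
    exact ⟨h'.1, h'.2.1.trans h'.2.2.1, h'.2.2.2⟩
  | merge j x y a c d hx =>
    rw [dg_append, dg_cons] at h'
    rw [dg_append, dg_cons, dg_cons]
    have h1 : d - c = 0 := hf _ (by simp)
    have h2 : c = d := (sub_eq_zero.1 h1).symm
    exact ⟨h'.1, h'.2.1.trans h2.symm, h2, h'.2.2⟩
  | twt j x y a b hx =>
    rw [dg_append, dg_cons] at h'
    rw [dg_append, dg_cons]
    exact ⟨h'.1, by linear_combination h'.2.1, h'.2.2⟩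
  | twf j x y a b hx =>
    rw [dg_append, dg_cons] at h'
    rw [dg_append, dg_cons]
    exact ⟨h'.1, by linear_combination h'.2.1, h'.2.2⟩
  | crt j x y a b c d hx =>
    rw [dg_append, dg_cons, dg_cons] at h'
    rw [dg_append, dg_cons, dg_cons]
    exact ⟨h'.1, h'.2.2.1, by linear_combination h'.2.1, h'.2.2.2⟩
  | crf j x y a b c d hx =>
    rw [dg_append, dg_cons, dg_cons] at h'
    rw [dg_append, dg_cons, dg_cons]
    exact ⟨h'.1, by linear_combination h'.2.2.1, h'.2.1, h'.2.2.2⟩
  | prt j x y a b c d hx =>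
    rw [dg_append, dg_cons, dg_cons] at h'
    rw [dg_append, dg_cons, dg_cons]
    have h1 : a - b = 0 := hf _ (by simp)
    exact ⟨h'.1, by linear_combination h1, by linear_combination h'.2.1 - 2 * h1, h'.2.2.2⟩
  | prf j x y a b c d hx =>
    rw [dg_append, dg_cons, dg_cons] at h'
    rw [dg_append, dg_cons, dg_cons]
    have h1 : a - b = 0 := hf _ (by simp)
    exact ⟨h'.1, by linear_combination h1, by linear_combination h'.2.1 - 2 * h1, h'.2.2.2⟩
  | plt j x y a b c d hx =>
    rw [dg_append, dg_cons, dg_cons] at h'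
    rw [dg_append, dg_cons, dg_cons]
    have h1 : c - d = 0 := hf _ (by simp)
    exact ⟨h'.1, by linear_combination h'.2.2.1 - 2 * h1, by linear_combination h1, h'.2.2.2⟩
  | plf j x y a b c d hx =>
    rw [dg_append, dg_cons, dg_cons] at h'
    rw [dg_append, dg_cons, dg_cons]
    have h1 : c - d = 0 := hf _ (by simp)
    exact ⟨h'.1, by linear_combination h'.2.2.1 - 2 * h1, by linear_combination h1, h'.2.2.2⟩

theorem ev_back {S : List Bd} {st st' : List (ZMod N × ZMod N)} {c f : List (ZMod N)}
    (h : Ev N S st c f st') (hf : ∀ x ∈ f, x = 0) (h' : Dg st') : Dg st := by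
  induction h with
  | nil st => exact h'
  | cons s S st st1 st2 c1 c2 f1 f2 h1 h2 ih =>
    exact sp_back h1 (fun x hx => hf x (List.mem_append_left _ hx))
      (ih (fun x hx => hf x (List.mem_append_right _ hx)) h')

end Pool.Agent.H86.RB
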