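import Pool.Agent.H86.RB.Tu
import Pool.Agent.H86.RB.BDefs

/-!
# The determinant is at most `2 ^ passes`
-/

set_option autoImplicit false

namespace Pool.Agent.H86.RB

theorem exp_det {m : ℕ} (s : Finset (Fin m)) : ∀ (M : Matrix (Fin m) (Fin m) ℤ),
    (∀ i, i ∉ s → Tr (M i)) → (∀ i ∈ s, ∃ a b : Fin m → ℤ, Tr a ∧ Tr b ∧ M i = a + b) →
      |M.det| ≤ 2 ^ s.card := by
  classical
  induction s using Finset.induction_on with
  | empty =>
    intro M h1 _
    simpa using tu_det m M fun i => h1 i (by simp)
  | insert i s hi ih =>
    intro M h1 h2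
    obtain ⟨a, b, ha, hb, hab⟩ := h2 i (Finset.mem_insert_self i s)
    have hM : M = M.updateRow i (a + b) := by
      rw [← hab, Matrix.updateRow_eq_self]
    have key : ∀ c : Fin m → ℤ, Tr c → |(M.updateRow i c).det| ≤ 2 ^ s.card := by
      intro c hc
      apply ih
      · intro i' hi'
        by_cases he : i' = i
        · rw [he, Matrix.updateRow_self]
          exact hc
        · rw [Matrix.updateRow_ne he]
          exact h1 i' (by simp [he, hi'])
      · intro i' hi'
        have he : i' ≠ i := fun e => hi (e ▸ hi')
        rw [Matrix.updateRow_ne he]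
        exact h2 i' (Finset.mem_insert_of_mem hi')
    rw [hM, Matrix.det_updateRow_add, Finset.card_insert_of_notMem hi, pow_succ]
    calc |(M.updateRow i a).det + (M.updateRow i b).det|
        ≤ |(M.updateRow i a).det| + |(M.updateRow i b).det| := abs_add_le _ _
      _ ≤ 2 ^ s.card + 2 ^ s.card := add_le_add (key a ha) (key b hb)
      _ = 2 ^ s.card * 2 := by ring

theorem tr_mg {m : ℕ} (a b : ℕ) :
    Tr (fun j : Fin m => (if (j : ℕ) + 1 = a then (1 : ℤ) else 0) - (if (j : ℕ) + 1 = b then 1 else 0)) := by
  refine ⟨fun j => ?_, fun j j' h1 h2 => ?_, fun j j' h1 h2 => ?_⟩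
  · simp only
    split_ifs <;> simp
  · simp only at h1 h2
    have e1 : (j : ℕ) + 1 = a := by
      by_contra h
      rw [if_neg h] at h1
      split_ifs at h1 <;> simp at h1
    have e2 : (j' : ℕ) + 1 = a := by
      by_contra h
      rw [if_neg h] at h2
      split_ifs at h2 <;> simp at h2
    exact Fin.ext (by omega)
  · simp only at h1 h2
    have e1 : (j : ℕ) + 1 = b := by
      by_contra h
      rw [if_neg h] at h1
      split_ifs at h1 <;> simp at h1
    have e2 : (j' : ℕ) + 1 = b := by
      by_contra h
      rw [if_neg h] at h2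
      split_ifs at h2 <;> simp at h2
    exact Fin.ext (by omega)

theorem card_ps (R : List Row) (m : ℕ) (hm : R.length = m) :
    (Finset.univ.filter (fun i : Fin m => (R.getD i (.mg 0 0)).isps = true)).card =
      R.countP Row.isps := by
  subst hm
  induction R with
  | nil => simp
  | cons r R ih =>
    rw [List.countP_cons, ← ih, List.length_cons, Fin.univ_succ, Finset.filter_cons]
    have h1 : (Finset.map ⟨Fin.succ, Fin.succ_injective _⟩ (Finset.univ : Finset (Fin R.length))).filter
        (fun i : Fin (R.length + 1) => ((r :: R).getD i (.mg 0 0)).isps = true) =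
        (Finset.univ.filter (fun i : Fin R.length => (R.getD i (.mg 0 0)).isps = true)).map
          ⟨Fin.succ, Fin.succ_injective _⟩ := by
      rw [Finset.filter_map]
      congr 1
    split_ifs with h2 h3 h3
    · rw [Finset.card_cons, h1, Finset.card_map]
    · exact absurd (by simpa using h2) h3
    · exact absurd (by simpa using h3) h2
    · rw [h1, Finset.card_map, add_zero]

theorem det_le (R : List Row) (m : ℕ) (hm : R.length = m) :
    |(Mt R m).det| ≤ 2 ^ R.countP Row.isps := by
  classical
  rw [← card_ps R m hm]
  apply exp_det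
  · intro i hi
    simp only [Finset.mem_filter, Finset.mem_univ, true_and] at hi
    have : Mt R m i = fun j : Fin m => (R.getD i (.mg 0 0)).co ((j : ℕ) + 1) := rfl
    rw [this]
    cases hr : R.getD i (.mg 0 0) with
    | mg a b => exact tr_mg a b
    | ps a n b => rw [hr] at hi; simp [Row.isps] at hi
  · intro i hi
    simp only [Finset.mem_filter, Finset.mem_univ, true_and] at hi
    have : Mt R m i = fun j : Fin m => (R.getD i (.mg 0 0)).co ((j : ℕ) + 1) := rfl
    rw [this]
    cases hr : R.getD i (.mg 0 0) with
    | mg a b => rw [hr] at hi; simp [Row.isps] at hi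
    | ps a n b =>
      refine ⟨_, _, tr_mg (m := m) a b, tr_mg (m := m) n b, ?_⟩
      funext j
      simp only [Row.co, Pi.add_apply]
      ring

end Pool.Agent.H86.RB
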