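import Pool.Agent.H86.RB.Cnt

/-!
# The kernel modulo `N` has at most `|det|` elements
-/

set_option autoImplicit false

namespace Pool.Agent.H86.RB

theorem card_coker {m : ℕ} (M : Matrix (Fin m) (Fin m) ℤ) (h : M.det ≠ 0) :
    (LinearMap.range M.mulVecLin).toAddSubgroup.index = M.det.natAbs := by
  have hinj : Function.Injective M.mulVecLin := by
    rw [← LinearMap.ker_eq_bot, LinearMap.ker_eq_bot']
    intro v hv
    by_contra hne
    exact h (Matrix.exists_mulVec_eq_zero_iff.1 ⟨v, hne, hv⟩)
  have h1 := Submodule.natAbs_det_equiv (LinearMap.range M.mulVecLin)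
    (LinearEquiv.ofInjective M.mulVecLin hinj)
  have h2 : (LinearMap.range M.mulVecLin).subtype ∘ₗ AddMonoidHom.toIntLinearMap
      ((LinearEquiv.ofInjective M.mulVecLin hinj : _ ≃ₗ[ℤ] _) : (Fin m → ℤ) →+
        LinearMap.range M.mulVecLin) = Matrix.toLin' M := by
    apply LinearMap.ext
    intro v
    rfl
  rw [h2, LinearMap.det_toLin'] at h1
  rw [h1]
  rfl

variable {N : ℕ} [NeZero N]

theorem ker_le {m : ℕ} (M : Matrix (Fin m) (Fin m) ℤ) (h : M.det ≠ 0) :
    (Kf N M).card ≤ M.det.natAbs := by
  classical
  let φ : (Fin m → ZMod N) →+ (Fin m → ZMod N) :=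
    { toFun := fun v i => ∑ j, ((M i j : ℤ) : ZMod N) * v j
      map_zero' := by funext i; simp
      map_add' := fun v w => by
        funext i
        simp only [Pi.add_apply, mul_add, Finset.sum_add_distrib] }
  let π : (Fin m → ℤ) →+ (Fin m → ZMod N) :=
    { toFun := fun v i => ((v i : ℤ) : ZMod N)
      map_zero' := by funext i; simp
      map_add' := fun v w => by funext i; simp }
  have hπ : Function.Surjective π := by
    intro w
    refine ⟨fun i => (w i).val, ?_⟩
    funext i
    simp [π]
  have h1 : (Kf N M).card = Nat.card φ.ker := by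
    rw [Nat.card_eq_fintype_card, Fintype.card_subtype]
    congr 1
    ext v
    simp only [Kf, Finset.mem_filter, Finset.mem_univ, true_and, AddMonoidHom.mem_ker]
    constructor
    · intro hv
      funext i
      exact hv i
    · intro hv i
      exact congrFun hv i
  have h2 : Nat.card φ.ker = φ.range.index := by
    have e1 := φ.ker.card_mul_index
    have e2 := φ.range.card_mul_index
    rw [AddSubgroup.index_ker] at e1
    rw [← e2, mul_comm] at e1
    exact Nat.eq_of_mul_eq_mul_left Nat.card_pos e1
  have h3 : (φ.range.comap π).index = φ.range.index := AddSubgroup.index_comap_of_surjective _ hπ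
  have h4 : (LinearMap.range M.mulVecLin).toAddSubgroup ≤ φ.range.comap π := by
    rintro w ⟨v, rfl⟩
    refine ⟨π v, ?_⟩
    funext i
    simp [φ, π, Matrix.mulVec, dotProduct]
  have h5 := AddSubgroup.index_dvd_of_le h4
  rw [card_coker M h] at h5
  rw [h1, h2, ← h3]
  exact Nat.le_of_dvd (Int.natAbs_pos.2 h) h5

end Pool.Agent.H86.RB
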