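import Pool.Agent.H86.RB.K3
import Pool.Agent.H86.RB.Ker
import Pool.Agent.H86.RB.Exp

/-!
# Bounds for the number of colourings of the boundary of a ribbon disk
-/

set_option autoImplicit false

namespace Pool.Agent.H86.RB

open Module

theorem count_rst (s : Bd) (k : ℕ) (vs : List ℕ) : (rst s k vs).1.countP Row.isps = passes [s] := by
  cases s <;> rfl

theorem count_ps (S : List Bd) (k : ℕ) (vs : List ℕ) :
    (rows S k vs).countP Row.isps = passes S := by
  induction S generalizing k vs with
  | nil => rfl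
  | cons s S ih => rw [rows_cons, List.countP_append, count_rst, ih, passes_cons s S]

/-- over a prime, the kernels of a matrix and of its transpose have the same size -/
theorem kf_rank (q m : ℕ) [Fact q.Prime] [NeZero q] (M : Matrix (Fin m) (Fin m) ℤ) :
    (Kf q M).card = q ^ (m - (M.map (Int.castRingHom (ZMod q))).rank) := by
  classical
  set M' := M.map (Int.castRingHom (ZMod q)) with hM'
  have h1 : (Kf q M).card = Nat.card (LinearMap.ker M'.mulVecLin) := by
    rw [Nat.card_eq_fintype_card, Fintype.card_subtype]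
    congr 1
    ext v
    simp only [Kf, Finset.mem_filter, Finset.mem_univ, true_and, LinearMap.mem_ker,
      Matrix.mulVecLin_apply]
    constructor
    · intro hv
      funext i
      exact hv i
    · intro hv i
      exact congrFun hv i
  have h2 := LinearMap.finrank_range_add_finrank_ker M'.mulVecLin
  rw [Module.finrank_fin_fun] at h2
  have h3 : finrank (ZMod q) (LinearMap.range M'.mulVecLin) = M'.rank := rfl
  rw [h1, Module.natCard_eq_pow_finrank (K := ZMod q), Nat.card_zmod]
  congr 1
  omega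

theorem kf_transpose (q m : ℕ) [Fact q.Prime] [NeZero q] (M : Matrix (Fin m) (Fin m) ℤ) :
    (Kf q M.transpose).card = (Kf q M).card := by
  rw [kf_rank, kf_rank, Matrix.transpose_map, Matrix.rank_transpose]

theorem det_bound (S : List Bd) (h : Dsk S) {m : ℕ} (hm : (rows S 1 [0]).length = m) :
    (Mt (rows S 1 [0]) m).det.natAbs ≤ max 1 (2 ^ passes S - 1) := by
  have h1 := det_le (rows S 1 [0]) m hm
  rw [count_ps] at h1
  have h2 := odd_det S h hm
  have h3 : (Mt (rows S 1 [0]) m).det.natAbs ≤ 2 ^ passes S := by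
    rw [Int.abs_eq_natAbs] at h1
    exact_mod_cast h1
  have h4 : Odd (Mt (rows S 1 [0]) m).det.natAbs := Int.natAbs_odd.2 h2
  rcases Nat.eq_zero_or_pos (passes S) with h5 | h5
  · rw [h5] at h3 ⊢
    simpa using h3
  · have h6 : Even (2 ^ passes S) := (Nat.even_pow.2 ⟨even_two, h5.ne'⟩)
    have h7 : (Mt (rows S 1 [0]) m).det.natAbs ≠ 2 ^ passes S := by
      intro h8
      rw [h8] at h4
      exact (Nat.not_even_iff_odd.2 h4) h6
    refine le_max_of_le_right ?_
    omega

theorem bound_det (S : List Bd) (h : Dsk S) (N : ℕ) [NeZero N] :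
    col N (bdw S) ≤ (max 1 (2 ^ passes S - 1)) ^ 2 := by
  have h1 := odd_det S h rfl
  have h2 : (Mt (rows S 1 [0]) (rows S 1 [0]).length).det ≠ 0 := by
    intro h0
    rw [h0] at h1
    simp at h1
  have h3 := det_bound S h rfl
  calc col N (bdw S) ≤ _ := cnt (N := N) S h.1 h.2.2 rfl
    _ ≤ (Mt (rows S 1 [0]) (rows S 1 [0]).length).det.natAbs *
        (Mt (rows S 1 [0]) (rows S 1 [0]).length).det.natAbs := by
        refine Nat.mul_le_mul (ker_le _ h2) ?_
        have := ker_le (N := N) (Mt (rows S 1 [0]) (rows S 1 [0]).length).transpose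
          (by rw [Matrix.det_transpose]; exact h2)
        rwa [Matrix.det_transpose] at this
    _ ≤ (max 1 (2 ^ passes S - 1)) ^ 2 := by
        rw [sq]
        exact Nat.mul_le_mul h3 h3

theorem bound_prime (S : List Bd) (h : Dsk S) (q : ℕ) [Fact q.Prime] [NeZero q] (hq : q ≠ 2) :
    col q (bdw S) ≤ q ^ (2 * (passes S / 2)) := by
  obtain ⟨hbm, hR⟩ := rows_le S h.2.2 rfl
  have h1 : (Kf q (Mt (rows S 1 [0]) (rows S 1 [0]).length)).card ≤ q ^ (passes S / 2) := by
    have := kf_half hq rfl hR (fun B h0 hB v hv => h.2.1 B h0 hB v (by rw [hbm]; exact hv))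
    rwa [count_ps] at this
  calc col q (bdw S) ≤ _ := cnt (N := q) S h.1 h.2.2 rfl
    _ ≤ q ^ (passes S / 2) * q ^ (passes S / 2) := by
        refine Nat.mul_le_mul h1 ?_
        rw [kf_transpose]
        exact h1
    _ = q ^ (2 * (passes S / 2)) := by rw [← pow_add]; congr 1; omega

/-- for a ribbon knot -/
theorem rib_det (K : Wd) (h : Rb K) (N : ℕ) [NeZero N] :
    col N K ≤ (max 1 (2 ^ rib K - 1)) ^ 2 := by
  obtain ⟨S, h1, h2, h3⟩ := rib_spec K h
  rw [← h2, ← col_iso h3]
  exact bound_det S h1 N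

theorem rib_prime (K : Wd) (h : Rb K) (q : ℕ) [Fact q.Prime] [NeZero q] (hq : q ≠ 2) :
    col q K ≤ q ^ (2 * (rib K / 2)) := by
  obtain ⟨S, h1, h2, h3⟩ := rib_spec K h
  rw [← h2, ← col_iso h3]
  exact bound_prime S h1 q hq

end Pool.Agent.H86.RB
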