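import Pool.Agent.H86.RB.Zip

/-!
# The flows of a colouring are in the kernel of the transposed matrix
-/

set_option autoImplicit false

namespace Pool.Agent.H86.RB

variable {N : ℕ}

/-- total of (right colour minus left colour) of the bands of piece `e` -/
def pt (e : ℕ) (vs : List ℕ) (st : List (ZMod N × ZMod N)) : ZMod N :=
  ((vs.zip st).map (fun q => if e = q.1 then q.2.2 - q.2.1 else 0)).sum

/-- the column `e` of the rows, applied to the flows -/
def rf (e : ℕ) (R : List Row) (f : List (ZMod N)) : ZMod N :=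
  ((R.zip f).map (fun q => ((q.1.co e : ℤ) : ZMod N) * q.2)).sum

theorem pt_app (e : ℕ) {v1 : List ℕ} {x : List (ZMod N × ZMod N)} (v2 : List ℕ)
    (y : List (ZMod N × ZMod N)) (h : v1.length = x.length) :
    pt e (v1 ++ v2) (x ++ y) = pt e v1 x + pt e v2 y := by
  unfold pt
  rw [List.zip_append h, List.map_append, List.sum_append]

theorem pt_cons (e v : ℕ) (vs : List ℕ) (a b : ZMod N) (y : List (ZMod N × ZMod N)) :
    pt e (v :: vs) ((a, b) :: y) = (if e = v then b - a else 0) + pt e vs y := by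
  simp [pt]

theorem rf_app (e : ℕ) {R : List Row} {f : List (ZMod N)} (R' : List Row) (f' : List (ZMod N))
    (h : R.length = f.length) : rf e (R ++ R') (f ++ f') = rf e R f + rf e R' f' := by
  unfold rf
  rw [List.zip_append h, List.map_append, List.sum_append]

theorem rf_nil (e : ℕ) : rf e [] ([] : List (ZMod N)) = 0 := rfl

theorem rf_one (e : ℕ) (r : Row) (a : ZMod N) : rf e [r] [a] = ((r.co e : ℤ) : ZMod N) * a := by
  simp [rf]

theorem cut0 (vs : List ℕ) {x y : List (ZMod N × ZMod N)} (h : vs.length = (x ++ y).length) :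
    ∃ v1 v2, vs = v1 ++ v2 ∧ v1.length = x.length ∧ v2.length = y.length := by
  rw [List.length_append] at h
  exact ⟨vs.take x.length, vs.drop x.length, (List.take_append_drop _ vs).symm,
    by rw [List.length_take]; omega, by rw [List.length_drop]; omega⟩

theorem cut1 (vs : List ℕ) {x y : List (ZMod N × ZMod N)} {p : ZMod N × ZMod N}
    (h : vs.length = (x ++ p :: y).length) :
    ∃ v1 v v2, vs = v1 ++ v :: v2 ∧ v1.length = x.length ∧ v2.length = y.length := by
  obtain ⟨v1, v2, h1, h2, h3⟩ := cut0 vs h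
  cases v2 with
  | nil => simp at h3
  | cons v v2 =>
    simp only [List.length_cons] at h3
    exact ⟨v1, v, v2, h1, h2, by omega⟩

theorem cut2 (vs : List ℕ) {x y : List (ZMod N × ZMod N)} {p q : ZMod N × ZMod N}
    (h : vs.length = (x ++ p :: q :: y).length) :
    ∃ v1 v w v2, vs = v1 ++ v :: w :: v2 ∧ v1.length = x.length ∧ v2.length = y.length := by
  obtain ⟨v1, v, v2, h1, h2, h3⟩ := cut1 vs h
  cases v2 with
  | nil => simp at h3
  | cons w v2 =>
    simp only [List.length_cons] at h3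
    exact ⟨v1, v, w, v2, h1, h2, by omega⟩

theorem sp_flow {s : Bd} {st st' : List (ZMod N × ZMod N)} {c f : List (ZMod N)}
    (h : Sp N s st c f st') (k : ℕ) (vs : List ℕ) (hl : vs.length = st.length) :
    (rst s k vs).1.length = f.length ∧ (rst s k vs).2.2.length = st'.length ∧
      ∀ e, pt e vs st + rf e (rst s k vs).1 f = pt e (rst s k vs).2.2 st' := by
  cases h with
  | birth j x y c hx =>
    obtain ⟨v1, v2, rfl, h1, h2⟩ := cut0 vs hl
    rw [rst_birth (h1.trans hx)]
    refine ⟨rfl, by simp [h1, h2], fun e => ?_⟩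
    rw [pt_app e _ _ h1, pt_app e _ _ h1, pt_cons, rf_nil]
    split_ifs <;> ring
  | death j x y c hx =>
    obtain ⟨v1, v, v2, rfl, h1, h2⟩ := cut1 vs hl
    rw [rst_death (h1.trans hx)]
    refine ⟨rfl, by simp [h1, h2], fun e => ?_⟩
    rw [pt_app e _ _ h1, pt_app e _ _ h1, pt_cons, rf_nil]
    split_ifs <;> ring
  | split j x y a b c hx =>
    obtain ⟨v1, v, v2, rfl, h1, h2⟩ := cut1 vs hl
    rw [rst_split (h1.trans hx)]
    refine ⟨rfl, by simp [h1, h2], fun e => ?_⟩
    rw [pt_app e _ _ h1, pt_app e _ _ h1, pt_cons, pt_cons, pt_cons, rf_nil]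
    split_ifs <;> ring
  | merge j x y a c d hx =>
    obtain ⟨v1, v, w, v2, rfl, h1, h2⟩ := cut2 vs hl
    rw [rst_merge (h1.trans hx)]
    refine ⟨rfl, by simp [h1, h2], fun e => ?_⟩
    rw [pt_app e _ _ h1, pt_app e _ _ h1, pt_cons, pt_cons, pt_cons, rf_one]
    simp only [Row.co]
    split_ifs <;> push_cast <;> ring
  | twt j x y a b hx =>
    obtain ⟨v1, v, v2, rfl, h1, h2⟩ := cut1 vs hl
    rw [rst_twist]
    refine ⟨rfl, by simp [h1, h2], fun e => ?_⟩
    rw [pt_app e _ _ h1, pt_app e _ _ h1, pt_cons, pt_cons, rf_nil]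
    split_ifs <;> ring
  | twf j x y a b hx =>
    obtain ⟨v1, v, v2, rfl, h1, h2⟩ := cut1 vs hl
    rw [rst_twist]
    refine ⟨rfl, by simp [h1, h2], fun e => ?_⟩
    rw [pt_app e _ _ h1, pt_app e _ _ h1, pt_cons, pt_cons, rf_nil]
    split_ifs <;> ring
  | crt j x y a b c d hx =>
    obtain ⟨v1, v, w, v2, rfl, h1, h2⟩ := cut2 vs hl
    rw [rst_cross (h1.trans hx)]
    refine ⟨rfl, by simp [h1, h2], fun e => ?_⟩
    rw [pt_app e _ _ h1, pt_app e _ _ h1, pt_cons, pt_cons, pt_cons, pt_cons, rf_nil]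
    split_ifs <;> ring
  | crf j x y a b c d hx =>
    obtain ⟨v1, v, w, v2, rfl, h1, h2⟩ := cut2 vs hl
    rw [rst_cross (h1.trans hx)]
    refine ⟨rfl, by simp [h1, h2], fun e => ?_⟩
    rw [pt_app e _ _ h1, pt_app e _ _ h1, pt_cons, pt_cons, pt_cons, pt_cons, rf_nil]
    split_ifs <;> ring
  | prt j x y a b c d hx =>
    obtain ⟨v1, v, w, v2, rfl, h1, h2⟩ := cut2 vs hl
    rw [rst_passR (h1.trans hx)]
    refine ⟨rfl, by simp [h1, h2], fun e => ?_⟩
    rw [pt_app e _ _ h1, pt_app e _ _ h1, pt_cons, pt_cons, pt_cons, pt_cons, rf_one]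
    simp only [Row.co]
    split_ifs <;> push_cast <;> ring
  | prf j x y a b c d hx =>
    obtain ⟨v1, v, w, v2, rfl, h1, h2⟩ := cut2 vs hl
    rw [rst_passR (h1.trans hx)]
    refine ⟨rfl, by simp [h1, h2], fun e => ?_⟩
    rw [pt_app e _ _ h1, pt_app e _ _ h1, pt_cons, pt_cons, pt_cons, pt_cons, rf_one]
    simp only [Row.co]
    split_ifs <;> push_cast <;> ring
  | plt j x y a b c d hx =>
    obtain ⟨v1, v, w, v2, rfl, h1, h2⟩ := cut2 vs hl
    rw [rst_passL (h1.trans hx)]
    refine ⟨rfl, by simp [h1, h2], fun e => ?_⟩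
    rw [pt_app e _ _ h1, pt_app e _ _ h1, pt_cons, pt_cons, pt_cons, pt_cons, rf_one]
    simp only [Row.co]
    split_ifs <;> push_cast <;> ring
  | plf j x y a b c d hx =>
    obtain ⟨v1, v, w, v2, rfl, h1, h2⟩ := cut2 vs hl
    rw [rst_passL (h1.trans hx)]
    refine ⟨rfl, by simp [h1, h2], fun e => ?_⟩
    rw [pt_app e _ _ h1, pt_app e _ _ h1, pt_cons, pt_cons, pt_cons, pt_cons, rf_one]
    simp only [Row.co]
    split_ifs <;> push_cast <;> ring

theorem ev_flow {S : List Bd} {st st' : List (ZMod N × ZMod N)} {c f : List (ZMod N)}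
    (h : Ev N S st c f st') (k : ℕ) (vs : List ℕ) (hl : vs.length = st.length) :
    (rows S k vs).length = f.length ∧ (nms S k vs).length = st'.length ∧
      ∀ e, pt e vs st + rf e (rows S k vs) f = pt e (nms S k vs) st' := by
  induction h generalizing k vs with
  | nil st =>
    refine ⟨rfl, hl, fun e => ?_⟩
    simp [rows, nms, rf_nil]
  | cons s S st st1 st2 c1 c2 f1 f2 h1 h2 ih =>
    obtain ⟨g1, g2, g3⟩ := sp_flow h1 k vs hl
    obtain ⟨l1, l2, l3⟩ := ih (k + bp s) (rst s k vs).2.2 g2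
    rw [rows_cons, nms_cons]
    refine ⟨by rw [List.length_append, List.length_append, g1, l1], l2, fun e => ?_⟩
    rw [rf_app e _ _ g1, ← add_assoc, g3, l3]

end Pool.Agent.H86.RB
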