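import Pool.Agent.H86.RB.Flat

/-!
# The multiset of colourings and the relation `Ev`
-/

set_option autoImplicit false

namespace Pool.Agent.H86.RB

variable {N : ℕ} [NeZero N]

theorem sp_of_mem (s : Bd) (n m : ℕ) (h : bt s n = some m) (st : List (ZMod N × ZMod N))
    (hst : st.length = n + 1) (t : List (ZMod N) × List (ZMod N) × List (ZMod N × ZMod N))
    (ht : t ∈ bst N s st) : Sp N s st t.1 t.2.1 t.2.2 := by
  cases s with
  | birth j =>
    simp only [bt] at h
    split_ifs at h with h1
    obtain ⟨x, y, rfl, hx⟩ := split0 st (j + 1) (by omega)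
    simp only [bst, List.take_left' hx, List.drop_left' hx, Multiset.mem_map] at ht
    obtain ⟨c, _, rfl⟩ := ht
    exact Sp.birth j x y c hx
  | death j =>
    simp only [bt] at h
    split_ifs at h with h1
    obtain ⟨x, a, b, y, rfl, hx⟩ := split1 st (j + 1) (by omega)
    simp only [bst, List.take_left' hx, List.drop_left' hx] at ht
    split_ifs at ht with hab
    · rw [Multiset.mem_singleton] at ht
      subst ht
      subst hab
      exact Sp.death j x y a hx
    · simp at ht
  | split j =>
    simp only [bt] at h
    split_ifs at h with h1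
    obtain ⟨x, a, b, y, rfl, hx⟩ := split1 st j (by omega)
    simp only [bst, List.take_left' hx, List.drop_left' hx, Multiset.mem_map] at ht
    obtain ⟨c, _, rfl⟩ := ht
    exact Sp.split j x y a b c hx
  | merge j =>
    simp only [bt] at h
    split_ifs at h with h1
    obtain ⟨x, a, b, c, d, y, rfl, hx⟩ := split2 st j (by omega)
    simp only [bst, List.take_left' hx, List.drop_left' hx] at ht
    split_ifs at ht with hab
    · rw [Multiset.mem_singleton] at ht
      subst ht
      subst hab
      exact Sp.merge j x y a b d hx
    · simp at ht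
  | twist p j =>
    simp only [bt] at h
    split_ifs at h with h1
    obtain ⟨x, a, b, y, rfl, hx⟩ := split1 st (j + 1) (by omega)
    simp only [bst, List.take_left' hx, List.drop_left' hx, Multiset.mem_singleton] at ht
    subst ht
    cases p
    · exact Sp.twf j x y a b hx
    · exact Sp.twt j x y a b hx
  | cross p j =>
    simp only [bt] at h
    split_ifs at h with h1
    obtain ⟨x, a, b, c, d, y, rfl, hx⟩ := split2 st (j + 1) (by omega)
    simp only [bst, List.take_left' hx, List.drop_left' hx, Multiset.mem_singleton] at ht
    subst ht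
    cases p
    · exact Sp.crf j x y a b c d hx
    · exact Sp.crt j x y a b c d hx
  | passR p j =>
    simp only [bt] at h
    split_ifs at h with h1
    obtain ⟨x, a, b, c, d, y, rfl, hx⟩ := split2 st (j + 1) (by omega)
    simp only [bst, List.take_left' hx, List.drop_left' hx, Multiset.mem_singleton] at ht
    subst ht
    cases p
    · exact Sp.prf j x y a b c d hx
    · exact Sp.prt j x y a b c d hx
  | passL p j =>
    simp only [bt] at h
    split_ifs at h with h1
    obtain ⟨x, a, b, c, d, y, rfl, hx⟩ := split2 st (j + 1) (by omega)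
    simp only [bst, List.take_left' hx, List.drop_left' hx, Multiset.mem_singleton] at ht
    subst ht
    cases p
    · exact Sp.plf j x y a b c d hx
    · exact Sp.plt j x y a b c d hx

theorem mem_of_sp {s : Bd} {st st' : List (ZMod N × ZMod N)} {c f : List (ZMod N)}
    (h : Sp N s st c f st') : (c, f, st') ∈ bst N s st := by
  cases h with
  | birth j x y c hx =>
    simp only [bst, List.take_left' hx, List.drop_left' hx, Multiset.mem_map]
    exact ⟨c, Finset.mem_univ_val c, rfl⟩
  | death j x y c hx =>
    simp [bst, List.take_left' hx, List.drop_left' hx]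
  | split j x y a b c hx =>
    simp only [bst, List.take_left' hx, List.drop_left' hx, Multiset.mem_map]
    exact ⟨c, Finset.mem_univ_val c, rfl⟩
  | merge j x y a c d hx =>
    simp [bst, List.take_left' hx, List.drop_left' hx]
  | twt j x y a b hx => simp [bst, List.take_left' hx, List.drop_left' hx]
  | twf j x y a b hx => simp [bst, List.take_left' hx, List.drop_left' hx]
  | crt j x y a b c d hx => simp [bst, List.take_left' hx, List.drop_left' hx]
  | crf j x y a b c d hx => simp [bst, List.take_left' hx, List.drop_left' hx]
  | prt j x y a b c d hx => simp [bst, List.take_left' hx, List.drop_left' hx]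
  | prf j x y a b c d hx => simp [bst, List.take_left' hx, List.drop_left' hx]
  | plt j x y a b c d hx => simp [bst, List.take_left' hx, List.drop_left' hx]
  | plf j x y a b c d hx => simp [bst, List.take_left' hx, List.drop_left' hx]

theorem ev_of_mem (S : List Bd) (n m : ℕ) (h : bty S n = some m) (st : List (ZMod N × ZMod N))
    (hst : st.length = n + 1) (q : List (ZMod N) × List (ZMod N)) (hq : q ∈ brun N S st) :
    ∃ st', Ev N S st q.1 q.2 st' ∧ st'.length = m + 1 := by
  induction S generalizing n st q with
  | nil =>
    simp only [bty, Option.some.injEq] at h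
    simp only [brun, Multiset.mem_singleton] at hq
    subst hq
    subst h
    exact ⟨st, Ev.nil st, hst⟩
  | cons s S ih =>
    simp only [bty] at h
    cases h1 : bt s n with
    | none => rw [h1] at h; simp at h
    | some k =>
      rw [h1] at h
      rw [brun, Multiset.mem_bind] at hq
      obtain ⟨t, ht, hq⟩ := hq
      obtain ⟨r, hr, rfl⟩ := Multiset.mem_map.1 hq
      obtain ⟨st', h2, h3⟩ := ih k h t.2.2 ((run_bd s n k h1 st hst).2 t ht) r hr
      exact ⟨st', Ev.cons s S st t.2.2 st' t.1 r.1 t.2.1 r.2 (sp_of_mem s n k h1 st hst t ht) h2, h3⟩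

theorem mem_of_ev {S : List Bd} {st st' : List (ZMod N × ZMod N)} {c f : List (ZMod N)}
    (h : Ev N S st c f st') : (c, f) ∈ brun N S st := by
  induction h with
  | nil st => simp [brun]
  | cons s S st st1 st2 c1 c2 f1 f2 h1 h2 ih =>
    rw [brun, Multiset.mem_bind]
    exact ⟨(c1, f1, st1), mem_of_sp h1, Multiset.mem_map.2 ⟨(c2, f2), ih, rfl⟩⟩

/-- for every slice, the continuation is a choice of a colour or there is at most one -/
theorem bst_cases (s : Bd) (st : List (ZMod N × ZMod N)) :
    (∃ g : ZMod N → List (ZMod N × ZMod N), bst N s st = Finset.univ.val.map (fun c => ([c], [], g c))) ∨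
      (∃ t, bst N s st = {t}) ∨ bst N s st = 0 := by
  cases s with
  | birth j => exact Or.inl ⟨_, rfl⟩
  | death j =>
    simp only [bst]
    split
    · split_ifs
      · exact Or.inr (Or.inl ⟨_, rfl⟩)
      · exact Or.inr (Or.inr rfl)
    · exact Or.inr (Or.inr rfl)
  | split j =>
    simp only [bst]
    split
    · exact Or.inl ⟨_, rfl⟩
    · exact Or.inr (Or.inr rfl)
  | merge j =>
    simp only [bst]
    split
    · split_ifs
      · exact Or.inr (Or.inl ⟨_, rfl⟩)
      · exact Or.inr (Or.inr rfl)
    · exact Or.inr (Or.inr rfl)
  | twist p j =>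
    simp only [bst]
    split
    · exact Or.inr (Or.inl ⟨_, rfl⟩)
    · exact Or.inr (Or.inr rfl)
  | cross p j =>
    simp only [bst]
    split
    · exact Or.inr (Or.inl ⟨_, rfl⟩)
    · exact Or.inr (Or.inr rfl)
  | passR p j =>
    simp only [bst]
    split
    · exact Or.inr (Or.inl ⟨_, rfl⟩)
    · exact Or.inr (Or.inr rfl)
  | passL p j =>
    simp only [bst]
    split
    · exact Or.inr (Or.inl ⟨_, rfl⟩)
    · exact Or.inr (Or.inr rfl)

/-- a colouring is determined by its choices -/
theorem brun_nodup (S : List Bd) (st : List (ZMod N × ZMod N)) :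
    ((brun N S st).map Prod.fst).Nodup := by
  induction S generalizing st with
  | nil => simp [brun]
  | cons s S ih =>
    have key : ∀ (c1 f1 : List (ZMod N)) (st1 : List (ZMod N × ZMod N)),
        (((brun N S st1).map (fun q => (c1 ++ q.1, f1 ++ q.2))).map Prod.fst).Nodup := by
      intro c1 f1 st1
      have : ((brun N S st1).map (fun q => (c1 ++ q.1, f1 ++ q.2))).map Prod.fst =
          ((brun N S st1).map Prod.fst).map (fun l => c1 ++ l) := by
        rw [Multiset.map_map, Multiset.map_map]
        rfl
      rw [this]
      exact (ih st1).map fun l l' h => List.append_cancel_left h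
    rw [brun, Multiset.map_bind]
    rcases bst_cases s st with ⟨g, h⟩ | ⟨t, h⟩ | h
    · rw [h, Multiset.bind_map, Multiset.nodup_bind]
      refine ⟨fun c _ => key _ _ _, ?_⟩
      refine Multiset.Nodup.pairwise ?_ Finset.univ.nodup
      intro c _ c' _ hcc
      simp only [Function.onFun]
      rw [Multiset.disjoint_left]
      intro l hl hl'
      simp only [Multiset.mem_map] at hl hl'
      obtain ⟨q, ⟨r, _, rfl⟩, rfl⟩ := hl
      obtain ⟨q', ⟨r', _, rfl⟩, h2⟩ := hl'
      simp only [List.cons_append, List.nil_append, List.cons.injEq] at h2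
      exact hcc h2.1.symm
    · rw [h, Multiset.singleton_bind]
      exact key _ _ _
    · rw [h]
      simp

end Pool.Agent.H86.RB
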