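import Pool.Agent.H86.RB.Zf
import Pool.Agent.H86.RB.Flo
import Pool.Agent.H86.RB.Add
import Pool.Agent.H86.RB.Mem

/-!
# The number of colourings is at most the product of two kernels
-/

set_option autoImplicit false

namespace Pool.Agent.H86.RB

/-- the kernel of `M` modulo `N` -/
def Kf (N : ℕ) [NeZero N] {m : ℕ} (M : Matrix (Fin m) (Fin m) ℤ) : Finset (Fin m → ZMod N) :=
  Finset.univ.filter (fun v => ∀ i, ∑ j, ((M i j : ℤ) : ZMod N) * v j = 0)

theorem ind_sum {N m : ℕ} (u : ℕ → ZMod N) (h0 : u 0 = 0) (a : ℕ) (ha : a ≤ m) :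
    ∑ j : Fin m, (if (j : ℕ) + 1 = a then (1 : ZMod N) else 0) * u (j + 1) = u a := by
  rcases Nat.eq_zero_or_pos a with rfl | hp
  · rw [h0]
    apply Finset.sum_eq_zero
    intro j _
    simp
  · rw [Finset.sum_eq_single (⟨a - 1, by omega⟩ : Fin m)]
    · have : a - 1 + 1 = a := by omega
      simp [this]
    · intro b _ hb
      rw [if_neg, zero_mul]
      intro h
      apply hb
      apply Fin.ext
      simp only
      omega
    · intro h
      exact absurd (Finset.mem_univ _) h

theorem row_sum {N m : ℕ} (u : ℕ → ZMod N) (h0 : u 0 = 0) (r : Row)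
    (hr : r.x ≤ m ∧ r.y ≤ m ∧ r.z ≤ m) :
    ∑ j : Fin m, ((r.co ((j : ℕ) + 1) : ℤ) : ZMod N) * u (j + 1) = r.val u := by
  cases r with
  | mg a b =>
    simp only [Row.x, Row.y, Row.z] at hr
    simp only [Row.val]
    rw [← ind_sum (m := m) u h0 a hr.1, ← ind_sum (m := m) u h0 b hr.2.1, ← Finset.sum_sub_distrib]
    refine Finset.sum_congr rfl fun j _ => ?_
    simp only [Row.co]
    push_cast
    ring
  | ps a n b =>
    simp only [Row.x, Row.y, Row.z] at hr
    simp only [Row.val]
    rw [← ind_sum (m := m) u h0 a hr.1, ← ind_sum (m := m) u h0 n hr.2.1,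
      ← ind_sum (m := m) u h0 b hr.2.2, Finset.mul_sum, ← Finset.sum_add_distrib,
      ← Finset.sum_sub_distrib]
    refine Finset.sum_congr rfl fun j _ => ?_
    simp only [Row.co]
    push_cast
    ring

theorem rf_range {N : ℕ} (e : ℕ) (R : List Row) (f : List (ZMod N)) (h : R.length = f.length) :
    rf e R f = ∑ i ∈ Finset.range R.length,
      (((R.getD i (.mg 0 0)).co e : ℤ) : ZMod N) * f.getD i 0 := by
  induction R generalizing f with
  | nil =>
    cases f with
    | nil => simp [rf]
    | cons a f => simp at h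
  | cons r R ih =>
    cases f with
    | nil => simp at h
    | cons a f =>
      have := rf_app (N := N) e (R := [r]) (f := [a]) R f rfl
      simp only [List.cons_append, List.nil_append] at this
      rw [this, rf_one, ih f (by simpa using h), List.length_cons, Finset.sum_range_succ', add_comm]
      simp

theorem rf_sum {N m : ℕ} (e : ℕ) (R : List Row) (f : List (ZMod N)) (hR : R.length = m)
    (h : R.length = f.length) :
    ∑ i : Fin m, (((R.getD i (.mg 0 0)).co e : ℤ) : ZMod N) * f.getD i 0 = rf e R f := by
  rw [rf_range e R f h, hR]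
  exact (Finset.sum_range (fun i => (((R.getD i (.mg 0 0)).co e : ℤ) : ZMod N) * f.getD i 0)).symm

theorem sb_inj {α : Type*} [AddCommGroup α] {x y a : List α} (hx : x.length = a.length)
    (hy : y.length = a.length) (h : sb x a = sb y a) : x = y := by
  induction a generalizing x y with
  | nil =>
    rw [List.length_nil, List.length_eq_zero_iff] at hx hy
    rw [hx, hy]
  | cons c a ih =>
    cases x with
    | nil => simp at hx
    | cons p x =>
      cases y with
      | nil => simp at hy
      | cons q y =>
        rw [sb_cons, sb_cons, List.cons.injEq] at h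
        rw [ih (by simpa using hx) (by simpa using hy) h.2, sub_left_injective h.1]

theorem list_getD_inj {α : Type*} {x y : List α} {d : α} {m : ℕ} (hx : x.length = m)
    (hy : y.length = m) (h : ∀ i : Fin m, x.getD i d = y.getD i d) : x = y := by
  apply List.ext_getElem (by rw [hx, hy])
  intro i h1 h2
  have := h ⟨i, by omega⟩
  simpa [List.getD_eq_getElem?_getD, h1, h2] using this

/-- extension of a vector by zero to all names -/
def ext {N m : ℕ} (w : Fin m → ZMod N) (v : ℕ) : ZMod N :=
  if h : v - 1 < m ∧ v ≠ 0 then w ⟨v - 1, h.1⟩ else 0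

variable {N : ℕ} [NeZero N]

theorem cnt (S : List Bd) (h : bty S 0 = some 0) (hb : births S = merges S) {m : ℕ}
    (hm : (rows S 1 [0]).length = m) :
    col N (bdw S) ≤ (Kf N (Mt (rows S 1 [0]) m)).card *
      (Kf N (Mt (rows S 1 [0]) m).transpose).card := by
  classical
  have hbm : births S + passes S = m := by rw [← hm, rows_len, hb]
  set R := rows S 1 [0] with hR
  have hnod : (brun N S [(0, 0)]).Nodup := Multiset.Nodup.of_map _ (brun_nodup S [(0, 0)])
  have hRlt := rows_lt S 1 [0] Nat.one_pos (by simp)
  rw [← hR] at hRlt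
  -- the facts about one colouring
  have key : ∀ t ∈ brun N S [(0, 0)], ∃ st', Ev N S [(0, 0)] t.1 t.2 st' ∧ st'.length = 1 ∧
      t.2.length = m := by
    intro t ht
    obtain ⟨st', h1, h2⟩ := ev_of_mem S 0 0 h [(0, 0)] rfl t ht
    obtain ⟨h3, _, _⟩ := ev_flow h1 1 [0] rfl
    exact ⟨st', h1, h2, by rw [← h3, ← hm]⟩
  rw [col_bdw S h, ← Multiset.toFinset_card_of_nodup hnod]
  set T := (brun N S [(0, 0)]).toFinset with hT
  set F : List (ZMod N) × List (ZMod N) → (Fin m → ZMod N) := fun t i => t.2.getD i 0 with hF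
  have himg : T.image F ⊆ Kf N (Mt R m).transpose := by
    intro w hw
    obtain ⟨t, ht, rfl⟩ := Finset.mem_image.1 hw
    obtain ⟨st', h1, h2, h3⟩ := key t (Multiset.mem_toFinset.1 ht)
    obtain ⟨g1, g2, g3⟩ := ev_flow h1 1 [0] rfl
    simp only [Kf, Finset.mem_filter, Finset.mem_univ, true_and]
    intro j
    have h4 := g3 ((j : ℕ) + 1)
    rw [nms_dsk S 1 h] at h4
    obtain ⟨p, rfl⟩ := List.length_eq_one_iff.1 h2
    simp only [pt, List.zip_cons_cons, List.zip_nil_right, List.map_cons, List.map_nil,
      List.sum_cons, List.sum_nil] at h4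
    rw [if_neg (by omega), if_neg (by omega)] at h4
    have h5 : rf ((j : ℕ) + 1) R t.2 = 0 := by simpa using h4
    rw [← rf_sum ((j : ℕ) + 1) R t.2 hm (by rw [h3, hm])] at h5
    simpa [Matrix.transpose_apply, Mt, hF] using h5
  have hfib : ∀ a ∈ T.image F, (T.filter (fun x => F x = a)).card ≤ (Kf N (Mt R m)).card := by
    intro a ha
    obtain ⟨t0, ht0, rfl⟩ := Finset.mem_image.1 ha
    obtain ⟨st0, h1, h2, h3⟩ := key t0 (Multiset.mem_toFinset.1 ht0)
    have hsame : ∀ x ∈ T.filter (fun x => F x = F t0), x.2 = t0.2 := by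
      intro x hx
      rw [Finset.mem_filter] at hx
      obtain ⟨_, _, _, h6⟩ := key x (Multiset.mem_toFinset.1 hx.1)
      exact list_getD_inj h6 h3 fun i => congrFun hx.2 i
    have hex : ∀ x ∈ T.filter (fun x => F x = F t0), x.1.length = t0.1.length ∧
        ∃ w ∈ Kf N (Mt R m), sb x.1 t0.1 = chw (ext w) S 1 [0] := by
      intro x hx
      have h4 := hsame x hx
      rw [Finset.mem_filter] at hx
      obtain ⟨st', h5, h6, h7⟩ := key x (Multiset.mem_toFinset.1 hx.1)
      obtain ⟨l1, l2, l3, l4⟩ := ev_sub h5 h1 rfl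
      refine ⟨l3, ?_⟩
      rw [h4] at l1
      have hz : ∀ y ∈ sb t0.2 t0.2, y = 0 := by
        intro y hy
        unfold sb at hy
        rw [List.mem_iff_getElem] at hy
        obtain ⟨i, hi, rfl⟩ := hy
        simp
      have hst : sb [((0 : ZMod N), (0 : ZMod N))] [(0, 0)] = [(0, 0)] := by
        rw [sb_cons, sb_nil, sub_self]
        rfl
      rw [hst] at l1
      have htot := ev_tot l1
      have hlen : (sb st' st0).length = 1 := by rw [sb_length (by rw [h6, h2]), h6]
      obtain ⟨p, hp⟩ := List.length_eq_one_iff.1 hlen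
      have hdg : Dg (sb st' st0) := by
        rw [hp] at htot ⊢
        intro q hq
        rw [List.mem_singleton] at hq
        subst hq
        simp only [tot, List.map_cons, List.map_nil, List.sum_cons, List.sum_nil, sub_zero,
          add_zero] at htot
        exact (sub_eq_zero.1 htot).symm
      obtain ⟨u, u1, u2, u3, u4⟩ := ev_dg l1 hz hdg (fun _ => 0) 1 [0] Nat.one_pos (by simp)
        (by simp [dg])
      have hu0 : u 0 = 0 := u1 0 Nat.one_pos
      refine ⟨fun i => u (i + 1), ?_, ?_⟩
      · simp only [Kf, Finset.mem_filter, Finset.mem_univ, true_and]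
        intro i
        have hmem : R.getD i (.mg 0 0) ∈ R := by
          have hi : (i : ℕ) < R.length := by rw [hm]; exact i.2
          rw [List.getD_eq_getElem _ _ hi]
          exact List.getElem_mem hi
        have hlt := hRlt _ hmem
        have := row_sum (m := m) u hu0 (R.getD i (.mg 0 0)) (by omega)
        simp only [Mt]
        rw [this]
        exact u3 _ hmem
      · have : ext (fun i : Fin m => u (i + 1)) = u := by
          funext v
          unfold ext
          split_ifs with hv
          · simp only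
            rw [Nat.sub_add_cancel (by omega)]
          · by_cases hv0 : v = 0
            · rw [hv0, hu0]
            · exact (u2 v (by omega)).symm
        rw [this]
        exact u4
    choose! G hG1 hG2 using fun x hx => (hex x hx).2
    refine Finset.card_le_card_of_injOn G (fun x hx => hG1 x hx) ?_
    intro x hx y hy hxy
    have hx' : x ∈ T.filter (fun x => F x = F t0) := hx
    have hy' : y ∈ T.filter (fun x => F x = F t0) := hy
    have e1 := hG2 x hx'
    have e2 := hG2 y hy'
    rw [hxy, ← e2] at e1
    have e3 := sb_inj (hex x hx').1 (hex y hy').1 e1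
    exact Prod.ext e3 ((hsame x hx').trans (hsame y hy').symm)
  calc T.card ≤ (Kf N (Mt R m)).card * (T.image F).card := Finset.card_le_mul_card_image T _ hfib
    _ ≤ _ := Nat.mul_le_mul_left _ (Finset.card_le_card himg)

end Pool.Agent.H86.RB
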