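import Pool.Agent.H86.RB.Run

/-!
# Two pieces at different heights pass each other
-/

set_option autoImplicit false

namespace Pool.Agent.H86.RB

variable {N : ℕ} [NeZero N]

theorem stp_zero (k : Kd) (l : List (ZMod N)) : stp N ⟨k, 0⟩ l = loc N k l := by
  simp [stp]

theorem run_comm (k l : Kd) (i m : ℕ) (L : List (ZMod N)) (h : i + k.nin + m + l.nin ≤ L.length) :
    run N [⟨k, i⟩, ⟨l, i + k.nout + m⟩] L = run N [⟨l, i + k.nin + m⟩, ⟨k, i⟩] L := by
  obtain ⟨x, L1, rfl, hx⟩ : ∃ x L1, L = x ++ L1 ∧ x.length = i :=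
    ⟨L.take i, L.drop i, (List.take_append_drop i L).symm, by rw [List.length_take]; omega⟩
  subst hx
  rw [List.length_append] at h
  obtain ⟨y, L2, rfl, hy⟩ : ∃ y L2, L1 = y ++ L2 ∧ y.length = k.nin :=
    ⟨L1.take k.nin, L1.drop k.nin, (List.take_append_drop _ L1).symm, by rw [List.length_take]; omega⟩
  rw [List.length_append] at h
  obtain ⟨z, t, rfl, hz⟩ : ∃ z t, L2 = z ++ t ∧ z.length = m :=
    ⟨L2.take m, L2.drop m, (List.take_append_drop _ L2).symm, by rw [List.length_take]; omega⟩
  subst hz
  rw [List.length_append] at h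
  -- common form
  have hL : run N [⟨k, x.length⟩, ⟨l, x.length + k.nout + z.length⟩] (x ++ (y ++ (z ++ t))) =
      (loc N k y).bind fun y' => (loc N l t).map fun t' => x ++ (y' ++ (z ++ t')) := by
    rw [run_cons]
    have e1 : stp N ⟨k, x.length⟩ (x ++ (y ++ (z ++ t))) =
        (loc N k y).map (fun y' => x ++ (y' ++ (z ++ t))) := by
      have := stp_shift (N := N) k 0 x (y ++ (z ++ t))
      rw [Nat.add_zero] at this
      rw [this, stp_zero, loc_right k y (z ++ t) hy.ge, Multiset.map_map]
      rfl
    rw [e1, Multiset.bind_map]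
    refine Multiset.bind_congr fun y' hy' => ?_
    have hlen : y'.length = k.nout := by
      rw [loc_len k y y' hy.ge hy', hy]
      omega
    rw [run_cons, run_nil_bind, show x.length + k.nout + z.length = x.length + (y'.length + (z.length + 0)) by
      rw [hlen]; omega, stp_shift, stp_shift, stp_shift, stp_zero]
    simp only [Multiset.map_map, Function.comp_def]
  have hR : run N [⟨l, x.length + k.nin + z.length⟩, ⟨k, x.length⟩] (x ++ (y ++ (z ++ t))) =
      (loc N l t).bind fun t' => (loc N k y).map fun y' => x ++ (y' ++ (z ++ t')) := by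
    rw [run_cons, show x.length + k.nin + z.length = x.length + (y.length + (z.length + 0)) by
      rw [hy]; omega, stp_shift, stp_shift, stp_shift, stp_zero]
    simp only [Multiset.map_map, Function.comp_def]
    rw [Multiset.bind_map]
    refine Multiset.bind_congr fun t' _ => ?_
    have := stp_shift (N := N) k 0 x (y ++ (z ++ t'))
    rw [Nat.add_zero] at this
    rw [run_cons, run_nil_bind, this, stp_zero, loc_right k y (z ++ t') hy.ge, Multiset.map_map]
    rfl
  rw [hL, hR, Multiset.bind_map_comm]

end Pool.Agent.H86.RB
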