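import Mathlib

/-!
# Long knots, ribbon disks and the ribbon number as words

Knots are long knots, that is `(1,1)`-tangle diagrams, read from bottom to top and cut into slices; a slice is a
number of vertical strands together with one elementary piece: a cup, a cap, a positive or a negative crossing.
Ribbon surfaces are cut into band slices in the same way.
-/

set_option autoImplicit false

namespace Pool.Agent.H86.RB

/-! ## Tangle diagrams -/

/-- the elementary pieces of a tangle diagram: a local minimum, a local maximum, a crossing whose strand from the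
lower left to the upper right runs over the other one (`pos`), and the other crossing (`neg`) -/
inductive Kd
  | cup
  | cap
  | pos
  | neg

/-- number of lower ends -/
def Kd.nin : Kd → ℕ
  | .cup => 0
  | .cap => 2
  | .pos => 2
  | .neg => 2

/-- number of upper ends -/
def Kd.nout : Kd → ℕ
  | .cup => 2
  | .cap => 0
  | .pos => 2
  | .neg => 2

/-- a slice: the piece `k` with `i` vertical strands on its left -/
structure Sl where
  k : Kd
  i : ℕ

/-- a tangle diagram: a list of slices, from bottom to top -/
abbrev Wd := List Sl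

/-- number of strands on the top of a diagram with `n` strands at the bottom; `none` if the slices do not fit -/
def ty : Wd → ℕ → Option ℕ
  | [], n => some n
  | s :: w, n => if s.i + s.k.nin ≤ n then ty w (n - s.k.nin + s.k.nout) else none

/-- the local moves: two pieces at different heights pass each other, straightening of a zigzag, Reidemeister moves,
a crossing slides over a cup or a cap -/
inductive Mv : Wd → Wd → Prop
  | comm (k l : Kd) (i m : ℕ) :
      Mv [⟨k, i⟩, ⟨l, i + k.nout + m⟩] [⟨l, i + k.nin + m⟩, ⟨k, i⟩]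
  | zig (i : ℕ) : Mv [⟨.cup, i⟩, ⟨.cap, i + 1⟩] []
  | zag (i : ℕ) : Mv [⟨.cup, i + 1⟩, ⟨.cap, i⟩] []
  | r1a (i : ℕ) : Mv [⟨.pos, i⟩, ⟨.cap, i⟩] [⟨.cap, i⟩]
  | r1b (i : ℕ) : Mv [⟨.neg, i⟩, ⟨.cap, i⟩] [⟨.cap, i⟩]
  | r1c (i : ℕ) : Mv [⟨.cup, i⟩, ⟨.pos, i⟩] [⟨.cup, i⟩]
  | r1d (i : ℕ) : Mv [⟨.cup, i⟩, ⟨.neg, i⟩] [⟨.cup, i⟩]
  | r2a (i : ℕ) : Mv [⟨.pos, i⟩, ⟨.neg, i⟩] []
  | r2b (i : ℕ) : Mv [⟨.neg, i⟩, ⟨.pos, i⟩] []
  | r3 (i : ℕ) : Mv [⟨.pos, i⟩, ⟨.pos, i + 1⟩, ⟨.pos, i⟩] [⟨.pos, i + 1⟩, ⟨.pos, i⟩, ⟨.pos, i + 1⟩]
  | sla (i : ℕ) : Mv [⟨.pos, i + 1⟩, ⟨.cap, i⟩] [⟨.neg, i⟩, ⟨.cap, i + 1⟩]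
  | slb (i : ℕ) : Mv [⟨.neg, i + 1⟩, ⟨.cap, i⟩] [⟨.pos, i⟩, ⟨.cap, i + 1⟩]
  | slc (i : ℕ) : Mv [⟨.cup, i⟩, ⟨.pos, i + 1⟩] [⟨.cup, i + 1⟩, ⟨.neg, i⟩]
  | sld (i : ℕ) : Mv [⟨.cup, i⟩, ⟨.neg, i + 1⟩] [⟨.cup, i + 1⟩, ⟨.pos, i⟩]

/-- one local move inside a diagram -/
def Step (v w : Wd) : Prop :=
  ∃ a b x y : Wd, Mv x y ∧ v = a ++ x ++ b ∧ w = a ++ y ++ b

/-- one local move, in one of the two directions, between two `(1,1)`-tangle diagrams -/
def Adj (v w : Wd) : Prop :=
  ty v 1 = some 1 ∧ ty w 1 = some 1 ∧ (Step v w ∨ Step w v)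

/-- isotopy of `(1,1)`-tangles -/
def Iso : Wd → Wd → Prop := Relation.ReflTransGen Adj

/-! ## Colourings -/

/-- the possible colours of the upper ends of a piece, given the colours of the lower ends (and of the strands on
the right of the piece); at a crossing the Fox relation `2 * over = under + under'` -/
def loc (N : ℕ) [NeZero N] : Kd → List (ZMod N) → Multiset (List (ZMod N))
  | .cup, r => Finset.univ.val.map (fun c => c :: c :: r)
  | .cap, a :: b :: r => if a = b then {r} else 0
  | .pos, a :: b :: r => {(2 * a - b) :: a :: r}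
  | .neg, a :: b :: r => {b :: (2 * b - a) :: r}
  | _, _ => 0

/-- the same for a slice -/
def stp (N : ℕ) [NeZero N] (s : Sl) (l : List (ZMod N)) : Multiset (List (ZMod N)) :=
  (loc N s.k (l.drop s.i)).map (fun r => l.take s.i ++ r)

/-- the colours of the upper ends of all Fox `N`-colourings of a diagram whose lower ends have the colours `l`, one
entry for every colouring -/
def run (N : ℕ) [NeZero N] : Wd → List (ZMod N) → Multiset (List (ZMod N))
  | [], l => {l}
  | s :: w, l => (stp N s l).bind (run N w)

/-- the number of Fox `N`-colourings of a `(1,1)`-tangle whose lower end has colour `0` -/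
def col (N : ℕ) [NeZero N] (w : Wd) : ℕ := Multiset.card (run N w [0])

/-- a diagram of a long knot: one strand at the bottom, one at the top, one component (for `N = 2` the Fox relation
says that the two under strands of a crossing have the same colour, so a `2`-colouring is a labelling of the components) -/
def Kn (w : Wd) : Prop := ty w 1 = some 1 ∧ col 2 w = 1

/-! ## Ribbon surfaces -/

/-- slices of a ribbon surface bounded by a `(1,1)`-tangle. The bands are numbered `0, 1, …, n` from left to
right; band `0` is a half plane, and only its right edge is in the picture. `birth j`: a new band between the bands `j` and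
`j + 1`; `death j`: band `j + 1` ends; `split j`: band `j` becomes two bands; `merge j`: the bands `j` and `j + 1` become one;
`twist p j`: a half twist of band `j + 1`; `cross p j`: the bands `j + 1` and `j + 2` cross; `passR p j`: band `j + 1`
passes through band `j + 2`, from left to right; `passL p j`: band `j + 2` passes through band `j + 1`, from
right to left -/
inductive Bd
  | birth (j : ℕ)
  | death (j : ℕ)
  | split (j : ℕ)
  | merge (j : ℕ)
  | twist (p : Bool) (j : ℕ)
  | cross (p : Bool) (j : ℕ)
  | passR (p : Bool) (j : ℕ)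
  | passL (p : Bool) (j : ℕ)

/-- a crossing slice -/
def X (p : Bool) (i : ℕ) : Sl := ⟨if p then .pos else .neg, i⟩

/-- the boundary of a slice of a ribbon surface: the edges of band `j + 1` are the strands `2 * j + 1`,
`2 * j + 2`, strand `0` is the edge of the half plane -/
def bd : Bd → Wd
  | .birth j => [⟨.cup, 2 * j + 1⟩]
  | .death j => [⟨.cap, 2 * j + 1⟩]
  | .split j => [⟨.cup, 2 * j⟩]
  | .merge j => [⟨.cap, 2 * j⟩]
  | .twist p j => [X p (2 * j + 1)]
  | .cross p j => [X p (2 * j + 2), X p (2 * j + 1), X p (2 * j + 3), X p (2 * j + 2)]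
  | .passR p j => [X p (2 * j + 2), X p (2 * j + 1), X (!p) (2 * j + 3), X (!p) (2 * j + 2)]
  | .passL p j => [X p (2 * j + 2), X p (2 * j + 3), X (!p) (2 * j + 1), X (!p) (2 * j + 2)]

/-- the boundary of a ribbon surface -/
def bdw (S : List Bd) : Wd := S.flatMap bd

/-- number of bands (besides the half plane) above a slice with `n` of them below; `none` if it does not fit -/
def bt : Bd → ℕ → Option ℕ
  | .birth j, n => if j ≤ n then some (n + 1) else none
  | .death j, n => if j + 1 ≤ n then some (n - 1) else none
  | .split j, n => if j ≤ n then some (n + 1) else none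
  | .merge j, n => if j + 1 ≤ n then some (n - 1) else none
  | .twist _ j, n => if j + 1 ≤ n then some n else none
  | .cross _ j, n => if j + 2 ≤ n then some n else none
  | .passR _ j, n => if j + 2 ≤ n then some n else none
  | .passL _ j, n => if j + 2 ≤ n then some n else none

/-- the same for a list of slices -/
def bty : List Bd → ℕ → Option ℕ
  | [], n => some n
  | s :: S, n => (bt s n).bind (bty S)

/-- number of discs that are born -/
def births (S : List Bd) : ℕ := S.countP (fun s => match s with | .birth _ => true | _ => false)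

/-- number of merges -/
def merges (S : List Bd) : ℕ := S.countP (fun s => match s with | .merge _ => true | _ => false)

/-- number of ribbon singularities -/
def passes (S : List Bd) : ℕ :=
  S.countP (fun s => match s with | .passR _ _ => true | .passL _ _ => true | _ => false)

/-- how the pieces of the surface hang together: `mg a b`: the pieces `a`, `b` are glued in a merge; `ps a n b`: a
band passes through the piece `b`; it is cut there, it belongs to piece `a` below and to piece `n` above -/
inductive Row
  | mg (a b : ℕ)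
  | ps (a n b : ℕ)

/-- first piece of a gluing -/
def Row.x : Row → ℕ
  | .mg a _ => a
  | .ps a _ _ => a

/-- second piece of a gluing -/
def Row.y : Row → ℕ
  | .mg _ b => b
  | .ps _ n _ => n

/-- the effect of a slice on the names of the pieces to which the bands belong (`vs`, from left to right, beginning
with the half plane); `k` is the first unused name. Result: the gluing, the first unused name, the new names. -/
def rst : Bd → ℕ → List ℕ → List Row × ℕ × List ℕ
  | .birth j, k, vs => ([], k + 1, vs.take (j + 1) ++ k :: vs.drop (j + 1))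
  | .death j, k, vs => ([], k, vs.take (j + 1) ++ vs.drop (j + 2))
  | .split j, k, vs => ([], k, vs.take (j + 1) ++ vs.drop j)
  | .merge j, k, vs => ([.mg (vs.getD j 0) (vs.getD (j + 1) 0)], k, vs.take (j + 1) ++ vs.drop (j + 2))
  | .twist _ _, k, vs => ([], k, vs)
  | .cross _ j, k, vs =>
      ([], k, vs.take (j + 1) ++ vs.getD (j + 2) 0 :: vs.getD (j + 1) 0 :: vs.drop (j + 3))
  | .passR _ j, k, vs =>
      ([.ps (vs.getD (j + 1) 0) k (vs.getD (j + 2) 0)], k + 1,
        vs.take (j + 1) ++ vs.getD (j + 2) 0 :: k :: vs.drop (j + 3))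
  | .passL _ j, k, vs =>
      ([.ps (vs.getD (j + 2) 0) k (vs.getD (j + 1) 0)], k + 1,
        vs.take (j + 1) ++ k :: vs.getD (j + 1) 0 :: vs.drop (j + 3))

/-- all gluings of a ribbon surface -/
def rows : List Bd → ℕ → List ℕ → List Row
  | [], _, _ => []
  | s :: S, k, vs => (rst s k vs).1 ++ rows S (rst s k vs).2.1 (rst s k vs).2.2

/-- the surface is connected: a set of pieces which contains the half plane and is closed under the gluings contains
all pieces `0, 1, …, births + passes` -/
def Conn (S : List Bd) : Prop :=
  ∀ A : Set ℕ, 0 ∈ A → (∀ r ∈ rows S 1 [0], (r.x ∈ A ↔ r.y ∈ A)) →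
    ∀ v ≤ births S + passes S, v ∈ A

/-- a ribbon disk (a half plane, for long knots): it begins and ends with the half plane alone, it is connected, and
its Euler characteristic `1 + births - merges` is `1` -/
def Dsk (S : List Bd) : Prop := bty S 0 = some 0 ∧ Conn S ∧ births S = merges S

/-- `K` is a ribbon knot -/
def Rb (K : Wd) : Prop := ∃ S, Dsk S ∧ Iso (bdw S) K

/-- the ribbon number of `K` -/
noncomputable def rib (K : Wd) : ℕ := sInf {r | ∃ S, Dsk S ∧ passes S = r ∧ Iso (bdw S) K}

end Pool.Agent.H86.RB
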