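import Pool.Agent.H86.RB.FamD
import Pool.Agent.H86.RB.Mem

/-!
# Colourings of the family
-/

set_option autoImplicit false

namespace Pool.Agent.H86.RB

variable {N : ℕ}

theorem ev_append {S T : List Bd} {st st1 st2 : List (ZMod N × ZMod N)}
    {c f c' f' : List (ZMod N)} (h : Ev N S st c f st1) (h' : Ev N T st1 c' f' st2) :
    Ev N (S ++ T) st (c ++ c') (f ++ f') st2 := by
  induction h with
  | nil st => exact h'
  | cons s S st st1 st3 c1 c2 f1 f2 h1 h2 ih =>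
    rw [List.cons_append, List.append_assoc, List.append_assoc]
    exact Ev.cons s (S ++ T) st st1 _ c1 _ f1 _ h1 (ih h')

theorem evc {s : Bd} {S : List Bd} {st st1 st2 : List (ZMod N × ZMod N)}
    {c1 c2 f1 f2 : List (ZMod N)} (h1 : Sp N s st c1 f1 st1) (h2 : Ev N S st1 c2 f2 st2) :
    Ev N (s :: S) st (c1 ++ c2) (f1 ++ f2) st2 := Ev.cons s S st st1 st2 c1 c2 f1 f2 h1 h2

theorem sp_death' (j : ℕ) (x y : List (ZMod N × ZMod N)) (a b : ZMod N) (h : x.length = j + 1)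
    (hab : a = b) : Sp N (.death j) (x ++ (a, b) :: y) [] [] (x ++ y) := by
  subst hab
  exact Sp.death j x y a h

theorem sp_merge' (j : ℕ) (x y : List (ZMod N × ZMod N)) (a b c d : ZMod N) (h : x.length = j)
    (hbc : b = c) : Sp N (.merge j) (x ++ (a, b) :: (c, d) :: y) [] [d - c] (x ++ (a, d) :: y) := by
  subst hbc
  exact Sp.merge j x y a b d h

/-- the colouring of the first part -/
theorem ev_famA (h f : ZMod N) : ∃ fl, Ev N famA [(0, 0)] [2 * h + f, h + f, -f] fl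
    [(0, -f), (h - f, h + f), (2 * h + f, 2 * h)] := by
  obtain ⟨y, hy⟩ : ∃ y : ZMod N, y = -f := ⟨_, rfl⟩
  obtain ⟨c, hc⟩ : ∃ c : ZMod N, c = h + f := ⟨_, rfl⟩
  obtain ⟨e, he⟩ : ∃ e : ZMod N, e = 2 * h + f := ⟨_, rfl⟩
  have E := evc (Sp.birth 0 [((0 : ZMod N), (0 : ZMod N))] [] e rfl)
    (evc (Sp.birth 1 [(0, 0), (e, e)] [] c rfl)
    (evc (Sp.split 0 [] [(e, e), (c, c)] 0 0 y rfl)
    (evc (Sp.crt 0 [(0, y)] [(c, c)] y 0 e e rfl)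
    (evc (Sp.prt 1 [(0, y), (e - 2 * (0 - y), e - 2 * (0 - y))] [] y 0 c c rfl)
    (evc (Sp.crf 0 [(0, y)] [(2 * c - y, 2 * c - 0)] (e - 2 * (0 - y)) (e - 2 * (0 - y))
      (c - 2 * (0 - y)) c rfl)
    (evc (sp_merge' 2 [(0, y), (c - 2 * (0 - y), c)] []
      (e - 2 * (0 - y) + 2 * (c - (c - 2 * (0 - y))))
      (e - 2 * (0 - y) + 2 * (c - (c - 2 * (0 - y)))) (2 * c - y) (2 * c - 0) rfl
      (by rw [he, hc, hy]; ring))
    (evc (Sp.twf 1 [(0, y), (c - 2 * (0 - y), c)] []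
      (e - 2 * (0 - y) + 2 * (c - (c - 2 * (0 - y)))) (2 * c - 0) rfl)
    (evc (Sp.twf 1 [(0, y), (c - 2 * (0 - y), c)] [] (2 * c - 0)
      (2 * (2 * c - 0) - (e - 2 * (0 - y) + 2 * (c - (c - 2 * (0 - y))))) rfl)
    (Ev.nil _)))))))))
  have hfin : [(0, y), (c - 2 * (0 - y), c)] ++
      [(2 * (2 * c - 0) - (e - 2 * (0 - y) + 2 * (c - (c - 2 * (0 - y)))),
        2 * (2 * (2 * c - 0) - (e - 2 * (0 - y) + 2 * (c - (c - 2 * (0 - y))))) - (2 * c - 0))] =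
      [(0, -f), (h - f, h + f), (2 * h + f, 2 * h)] := by
    simp only [List.cons_append, List.nil_append, List.cons.injEq, Prod.mk.injEq, true_and,
      and_true]
    rw [he, hc, hy]
    refine ⟨rfl, ⟨by ring, rfl⟩, by ring, by ring⟩
  rw [hfin] at E
  rw [← he, ← hc, ← hy]
  rw [← hy, ← hc, ← he] at E
  exact ⟨_, E⟩

/-- the colouring of a middle part -/
theorem ev_famB (h f g : ZMod N) (p : ZMod N × ZMod N) : ∃ c fl,
    Ev N famB [(0, f - g), (2 * h + f - g, 2 * h + f), p] c fl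
      [(0, f - 2 * g), (h + f - 2 * g, h + f), p] := by
  obtain ⟨x, hx⟩ : ∃ x : ZMod N, x = f - g := ⟨_, rfl⟩
  obtain ⟨y, hy⟩ : ∃ y : ZMod N, y = f - 2 * g := ⟨_, rfl⟩
  obtain ⟨c, hc⟩ : ∃ c : ZMod N, c = h + f := ⟨_, rfl⟩
  obtain ⟨a, ha⟩ : ∃ a : ZMod N, a = 2 * h + f - g := ⟨_, rfl⟩
  obtain ⟨b, hb⟩ : ∃ b : ZMod N, b = 2 * h + f := ⟨_, rfl⟩
  have E := evc (Sp.birth 1 [(0, x), (a, b)] [p] c rfl)
    (evc (Sp.split 0 [] [(a, b), (c, c), p] 0 x y rfl)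
    (evc (Sp.crt 0 [(0, y)] [(c, c), p] y x a b rfl)
    (evc (Sp.prt 1 [(0, y), (a - 2 * (x - y), b - 2 * (x - y))] [p] y x c c rfl)
    (evc (Sp.crf 0 [(0, y)] [(2 * c - y, 2 * c - x), p] (a - 2 * (x - y)) (b - 2 * (x - y))
      (c - 2 * (x - y)) c rfl)
    (evc (sp_merge' 2 [(0, y), (c - 2 * (x - y), c)] [p]
      (a - 2 * (x - y) + 2 * (c - (c - 2 * (x - y))))
      (b - 2 * (x - y) + 2 * (c - (c - 2 * (x - y)))) (2 * c - y) (2 * c - x) rfl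
      (by rw [hb, hc, hy, hx]; ring))
    (evc (sp_death' 1 [(0, y), (c - 2 * (x - y), c)] [p]
      (a - 2 * (x - y) + 2 * (c - (c - 2 * (x - y)))) (2 * c - x) rfl
      (by rw [ha, hc, hy, hx]; ring))
    (Ev.nil _)))))))
  have hfin : [(0, y), (c - 2 * (x - y), c)] ++ [p] =
      [(0, f - 2 * g), (h + f - 2 * g, h + f), p] := by
    simp only [List.cons_append, List.nil_append, List.cons.injEq, Prod.mk.injEq, true_and,
      and_true]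
    rw [hc, hy, hx]
    refine ⟨rfl, by ring, rfl⟩
  rw [hfin] at E
  rw [← hx, ← ha, ← hb]
  exact ⟨_, _, E⟩

theorem ev_famBs (k : ℕ) (e f g : ZMod N) (p : ZMod N × ZMod N) : ∃ c fl,
    Ev N (famBs k) [(0, f - g), (2 ^ k * e + f - g, 2 ^ k * e + f), p] c fl
      [(0, f - 2 ^ k * g), (e + f - 2 ^ k * g, e + f), p] := by
  induction k generalizing g with
  | zero =>
    simp only [pow_zero, one_mul]
    exact ⟨[], [], Ev.nil _⟩
  | succ k ih =>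
    obtain ⟨c1, f1, h1⟩ := ev_famB (2 ^ k * e) f g p
    obtain ⟨c2, f2, h2⟩ := ih (2 * g)
    have e1 : 2 * (2 ^ k * e) = 2 ^ (k + 1) * e := by ring
    have e2 : 2 ^ k * (2 * g) = 2 ^ (k + 1) * g := by ring
    rw [e1] at h1
    rw [e2] at h2
    exact ⟨_, _, ev_append h1 h2⟩

/-- the colouring of the last part -/
theorem ev_famC (h f g H : ZMod N) (h1 : h = 4 * H) (h2 : f = 2 * g) : ∃ c fl,
    Ev N famC [(0, f - g), (h + f - g, h + f), (2 * H + f, 2 * H)] c fl [(0, 0)] := by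
  obtain ⟨x, hx⟩ : ∃ x : ZMod N, x = f - g := ⟨_, rfl⟩
  obtain ⟨y, hy⟩ : ∃ y : ZMod N, y = f - 2 * g := ⟨_, rfl⟩
  obtain ⟨a, ha⟩ : ∃ a : ZMod N, a = h + f - g := ⟨_, rfl⟩
  obtain ⟨b, hb⟩ : ∃ b : ZMod N, b = h + f := ⟨_, rfl⟩
  obtain ⟨l, hl⟩ : ∃ l : ZMod N, l = 2 * H + f := ⟨_, rfl⟩
  obtain ⟨r, hr⟩ : ∃ r : ZMod N, r = 2 * H := ⟨_, rfl⟩
  have E := evc (Sp.split 0 [] [(a, b), (l, r)] 0 x y rfl)
    (evc (Sp.crt 0 [(0, y)] [(l, r)] y x a b rfl)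
    (evc (Sp.prt 1 [(0, y), (a - 2 * (x - y), b - 2 * (x - y))] [] y x l r rfl)
    (evc (Sp.crf 0 [(0, y)] [(2 * r - y, 2 * r - x)] (a - 2 * (x - y)) (b - 2 * (x - y))
      (l - 2 * (x - y)) r rfl)
    (evc (sp_merge' 2 [(0, y), (l - 2 * (x - y), r)] []
      (a - 2 * (x - y) + 2 * (r - (l - 2 * (x - y))))
      (b - 2 * (x - y) + 2 * (r - (l - 2 * (x - y)))) (2 * r - y) (2 * r - x) rfl
      (by rw [hb, hl, hr, hy, hx, h1]; ring))
    (evc (sp_death' 1 [(0, y), (l - 2 * (x - y), r)] []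
      (a - 2 * (x - y) + 2 * (r - (l - 2 * (x - y)))) (2 * r - x) rfl
      (by rw [ha, hl, hr, hy, hx, h1]; ring))
    (evc (sp_death' 0 [(0, y)] [] (l - 2 * (x - y)) r rfl
      (by rw [hl, hr, hy, hx, h2]; ring))
    (Ev.nil _)))))))
  have hfin : [(0, y)] ++ [] = [((0 : ZMod N), (0 : ZMod N))] := by
    rw [hy, h2]
    simp
  rw [hfin] at E
  rw [← hx, ← ha, ← hb, ← hl, ← hr]
  exact ⟨_, _, E⟩

/-- two parameters: `e`, `f` with `(2 ^ (k + 2) - 1) e = (2 ^ (k + 2) - 1) f = 0` -/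
theorem ev_fam (k : ℕ) (e f : ZMod N) (he : 2 ^ (k + 2) * e = e) (hf : 2 ^ (k + 2) * f = f) :
    ∃ c fl, Ev N (fam k) [(0, 0)]
      ([2 * (2 ^ k * e) + f, 2 ^ k * e + f, -f] ++ c) fl [(0, 0)] := by
  obtain ⟨f1, h1⟩ := ev_famA (2 ^ k * e) f
  obtain ⟨c2, f2, h2⟩ := ev_famBs k e f (2 * f) (2 * (2 ^ k * e) + f, 2 * (2 ^ k * e))
  obtain ⟨c3, f3, h3⟩ := ev_famC e f (2 ^ k * (2 * f)) (2 ^ k * e)
    (by rw [← mul_assoc, show (4 : ZMod N) * 2 ^ k = 2 ^ (k + 2) by ring, he])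
    (by rw [show (2 : ZMod N) * (2 ^ k * (2 * f)) = 2 ^ (k + 2) * f by ring, hf])
  have e1 : f - 2 * f = -f := by ring
  have e2 : 2 ^ k * e + f - 2 * f = 2 ^ k * e - f := by ring
  rw [e1, e2] at h2
  exact ⟨_, _, ev_append h1 (ev_append h2 h3)⟩

end Pool.Agent.H86.RB
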