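import Pool.Agent.H86.RB.Run

/-!
# Numbers of strands and bands
-/

set_option autoImplicit false

namespace Pool.Agent.H86.RB

theorem bdw_nil : bdw [] = [] := rfl

theorem bdw_cons (s : Bd) (S : List Bd) : bdw (s :: S) = bd s ++ bdw S := by
  simp [bdw]

theorem bdw_append (S T : List Bd) : bdw (S ++ T) = bdw S ++ bdw T := by
  simp [bdw]

theorem X_nin (p : Bool) (i : ℕ) : (X p i).k.nin = 2 := by
  cases p <;> rfl

theorem X_nout (p : Bool) (i : ℕ) : (X p i).k.nout = 2 := by
  cases p <;> rfl

theorem X_i (p : Bool) (i : ℕ) : (X p i).i = i := rfl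

theorem ty_X (p : Bool) (i : ℕ) (w : Wd) (n : ℕ) (h : i + 2 ≤ n) : ty (X p i :: w) n = ty w n := by
  rw [ty_cons, X_nin, X_nout, X_i, if_pos h]
  congr 1
  omega

theorem ty_bd (s : Bd) (n m : ℕ) (h : bt s n = some m) : ty (bd s) (2 * n + 1) = some (2 * m + 1) := by
  cases s with
  | birth j =>
    simp only [bt] at h
    split_ifs at h with h1
    simp only [Option.some.injEq] at h
    subst h
    simp only [bd, ty_cons, ty_nil, Kd.nin, Kd.nout]
    rw [if_pos (by omega)]
    congr 1
  | death j =>
    simp only [bt] at h
    split_ifs at h with h1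
    simp only [Option.some.injEq] at h
    subst h
    simp only [bd, ty_cons, ty_nil, Kd.nin, Kd.nout]
    rw [if_pos (by omega)]
    congr 1
    omega
  | split j =>
    simp only [bt] at h
    split_ifs at h with h1
    simp only [Option.some.injEq] at h
    subst h
    simp only [bd, ty_cons, ty_nil, Kd.nin, Kd.nout]
    rw [if_pos (by omega)]
    congr 1
  | merge j =>
    simp only [bt] at h
    split_ifs at h with h1
    simp only [Option.some.injEq] at h
    subst h
    simp only [bd, ty_cons, ty_nil, Kd.nin, Kd.nout]
    rw [if_pos (by omega)]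
    congr 1
    omega
  | twist p j =>
    simp only [bt] at h
    split_ifs at h with h1
    simp only [Option.some.injEq] at h
    subst h
    rw [bd, ty_X _ _ _ _ (by omega), ty_nil]
  | cross p j =>
    simp only [bt] at h
    split_ifs at h with h1
    simp only [Option.some.injEq] at h
    subst h
    rw [bd, ty_X _ _ _ _ (by omega), ty_X _ _ _ _ (by omega), ty_X _ _ _ _ (by omega),
      ty_X _ _ _ _ (by omega), ty_nil]
  | passR p j =>
    simp only [bt] at h
    split_ifs at h with h1
    simp only [Option.some.injEq] at h
    subst h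
    rw [bd, ty_X _ _ _ _ (by omega), ty_X _ _ _ _ (by omega), ty_X _ _ _ _ (by omega),
      ty_X _ _ _ _ (by omega), ty_nil]
  | passL p j =>
    simp only [bt] at h
    split_ifs at h with h1
    simp only [Option.some.injEq] at h
    subst h
    rw [bd, ty_X _ _ _ _ (by omega), ty_X _ _ _ _ (by omega), ty_X _ _ _ _ (by omega),
      ty_X _ _ _ _ (by omega), ty_nil]

theorem ty_bdw (S : List Bd) (n m : ℕ) (h : bty S n = some m) :
    ty (bdw S) (2 * n + 1) = some (2 * m + 1) := by
  induction S generalizing n with
  | nil =>
    simp only [bty, Option.some.injEq] at h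
    subst h
    rfl
  | cons s S ih =>
    rw [bdw_cons, ty_append]
    simp only [bty] at h
    cases h1 : bt s n with
    | none => rw [h1] at h; simp at h
    | some k =>
      rw [h1] at h
      rw [ty_bd s n k h1]
      exact ih k h

theorem dsk_ty (S : List Bd) (h : Dsk S) : ty (bdw S) 1 = some 1 := ty_bdw S 0 0 h.1

theorem bty_append (S T : List Bd) (n : ℕ) : bty (S ++ T) n = (bty S n).bind (bty T) := by
  induction S generalizing n with
  | nil => rfl
  | cons s S ih =>
    simp only [List.cons_append, bty]
    cases bt s n with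
    | none => rfl
    | some k => exact ih k

end Pool.Agent.H86.RB
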