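import Pool.Agent.H86.RB.BDefs
import Pool.Agent.H86.RB.Typ

/-!
# The names of the pieces
-/

set_option autoImplicit false

namespace Pool.Agent.H86.RB

/-- number of new names of a slice -/
def bp (s : Bd) : ℕ := births [s] + passes [s]

theorem births_cons (s : Bd) (S : List Bd) : births (s :: S) = births [s] + births S := by
  simp only [births, List.countP_cons, List.countP_nil]
  omega

theorem merges_cons (s : Bd) (S : List Bd) : merges (s :: S) = merges [s] + merges S := by
  simp only [merges, List.countP_cons, List.countP_nil]
  omega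

theorem passes_cons (s : Bd) (S : List Bd) : passes (s :: S) = passes [s] + passes S := by
  simp only [passes, List.countP_cons, List.countP_nil]
  omega

theorem births_append (S T : List Bd) : births (S ++ T) = births S + births T := by
  simp only [births, List.countP_append]

theorem merges_append (S T : List Bd) : merges (S ++ T) = merges S + merges T := by
  simp only [merges, List.countP_append]

theorem passes_append (S T : List Bd) : passes (S ++ T) = passes S + passes T := by
  simp only [passes, List.countP_append]

theorem rst_cnt (s : Bd) (k : ℕ) (vs : List ℕ) : (rst s k vs).2.1 = k + bp s := by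
  cases s <;> rfl

theorem rst_len (s : Bd) (k n m : ℕ) (vs : List ℕ) (h : bt s n = some m) (hv : vs.length = n + 1) :
    (rst s k vs).2.2.length = m + 1 := by
  cases s <;> simp only [bt] at h <;> split_ifs at h with h1 <;>
    simp only [Option.some.injEq] at h <;> subst h <;>
    simp only [rst, List.length_append, List.length_take, List.length_cons, List.length_drop] <;>
    omega

theorem take_head {α : Type*} (vs w : List α) (j : ℕ) (h : vs ≠ []) :
    (vs.take (j + 1) ++ w).head? = vs.head? := by
  cases vs with
  | nil => exact absurd rfl h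
  | cons a l => simp

theorem rst_head (s : Bd) (k : ℕ) (vs : List ℕ) (h : vs ≠ []) :
    (rst s k vs).2.2.head? = vs.head? := by
  cases s <;> first | rfl | exact take_head _ _ _ h

theorem getD_lt {vs : List ℕ} {k : ℕ} (hk : 0 < k) (h : ∀ v ∈ vs, v < k) (i : ℕ) :
    vs.getD i 0 < k := by
  rw [List.getD_eq_getElem?_getD]
  cases hi : vs[i]? with
  | none => simpa using hk
  | some v => simpa using h v (List.mem_of_getElem? hi)

theorem rst_lt (s : Bd) (k : ℕ) (vs : List ℕ) (hk : 0 < k) (h : ∀ v ∈ vs, v < k) :
    ∀ v ∈ (rst s k vs).2.2, v < (rst s k vs).2.1 := by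
  have ht : ∀ (i v : ℕ), v ∈ vs.take i → v < k := fun i v hv => h v (List.mem_of_mem_take hv)
  have hd : ∀ (i v : ℕ), v ∈ vs.drop i → v < k := fun i v hv => h v (List.mem_of_mem_drop hv)
  have hg := getD_lt hk h
  intro v hv
  cases s with
  | birth j =>
    simp only [rst, List.mem_append, List.mem_cons] at hv ⊢
    rcases hv with hv | hv | hv
    · have := ht _ _ hv; omega
    · omega
    · have := hd _ _ hv; omega
  | death j =>
    simp only [rst, List.mem_append] at hv ⊢
    rcases hv with hv | hv
    · exact ht _ _ hv
    · exact hd _ _ hv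
  | split j =>
    simp only [rst, List.mem_append] at hv ⊢
    rcases hv with hv | hv
    · exact ht _ _ hv
    · exact hd _ _ hv
  | merge j =>
    simp only [rst, List.mem_append] at hv ⊢
    rcases hv with hv | hv
    · exact ht _ _ hv
    · exact hd _ _ hv
  | twist p j => exact h v hv
  | cross p j =>
    simp only [rst, List.mem_append, List.mem_cons] at hv ⊢
    rcases hv with hv | hv | hv | hv
    · exact ht _ _ hv
    · rw [hv]; exact hg _
    · rw [hv]; exact hg _
    · exact hd _ _ hv
  | passR p j =>
    simp only [rst, List.mem_append, List.mem_cons] at hv ⊢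
    rcases hv with hv | hv | hv | hv
    · have := ht _ _ hv; omega
    · rw [hv]; have := hg (j + 2); omega
    · omega
    · have := hd _ _ hv; omega
  | passL p j =>
    simp only [rst, List.mem_append, List.mem_cons] at hv ⊢
    rcases hv with hv | hv | hv | hv
    · have := ht _ _ hv; omega
    · omega
    · rw [hv]; have := hg (j + 1); omega
    · have := hd _ _ hv; omega

theorem rst_row_lt (s : Bd) (k : ℕ) (vs : List ℕ) (hk : 0 < k) (h : ∀ v ∈ vs, v < k) :
    ∀ r ∈ (rst s k vs).1, r.x < (rst s k vs).2.1 ∧ r.y < (rst s k vs).2.1 ∧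
      r.z < (rst s k vs).2.1 := by
  have hg := getD_lt hk h
  intro r hr
  cases s with
  | birth j => simp [rst] at hr
  | death j => simp [rst] at hr
  | split j => simp [rst] at hr
  | twist p j => simp [rst] at hr
  | cross p j => simp [rst] at hr
  | merge j =>
    simp only [rst, List.mem_singleton] at hr ⊢
    subst hr
    exact ⟨hg _, hg _, hg _⟩
  | passR p j =>
    simp only [rst, List.mem_singleton] at hr ⊢
    subst hr
    simp only [Row.x, Row.y, Row.z]
    have h1 := hg (j + 1)
    have h2 := hg (j + 2)
    omega
  | passL p j =>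
    simp only [rst, List.mem_singleton] at hr ⊢
    subst hr
    simp only [Row.x, Row.y, Row.z]
    have h1 := hg (j + 1)
    have h2 := hg (j + 2)
    omega

theorem rst_row_len (s : Bd) (k : ℕ) (vs : List ℕ) :
    (rst s k vs).1.length = merges [s] + passes [s] := by
  cases s <;> rfl

theorem rows_cons (s : Bd) (S : List Bd) (k : ℕ) (vs : List ℕ) :
    rows (s :: S) k vs = (rst s k vs).1 ++ rows S (k + bp s) (rst s k vs).2.2 := by
  rw [← rst_cnt s k vs]
  rfl

theorem nms_cons (s : Bd) (S : List Bd) (k : ℕ) (vs : List ℕ) :
    nms (s :: S) k vs = nms S (k + bp s) (rst s k vs).2.2 := by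
  rw [← rst_cnt s k vs]
  rfl

theorem rows_len (S : List Bd) (k : ℕ) (vs : List ℕ) :
    (rows S k vs).length = merges S + passes S := by
  induction S generalizing k vs with
  | nil => rfl
  | cons s S ih =>
    rw [rows_cons, List.length_append, rst_row_len, ih, merges_cons s S, passes_cons s S]
    omega

theorem rows_lt (S : List Bd) (k : ℕ) (vs : List ℕ) (hk : 0 < k) (h : ∀ v ∈ vs, v < k) :
    ∀ r ∈ rows S k vs, r.x < k + births S + passes S ∧ r.y < k + births S + passes S ∧
      r.z < k + births S + passes S := by
  induction S generalizing k vs with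
  | nil => intro r hr; simp [rows] at hr
  | cons s S ih =>
    intro r hr
    rw [rows_cons, List.mem_append] at hr
    rw [births_cons s S, passes_cons s S]
    rcases hr with hr | hr
    · have h1 := rst_row_lt s k vs hk h r hr
      rw [rst_cnt] at h1
      unfold bp at h1
      omega
    · have h2 := rst_lt s k vs hk h
      rw [rst_cnt] at h2
      have h1 := ih (k + bp s) (rst s k vs).2.2 (by omega) h2 r hr
      unfold bp at h1
      omega

theorem rows_append (S T : List Bd) (k : ℕ) (vs : List ℕ) :
    rows (S ++ T) k vs = rows S k vs ++ rows T (k + births S + passes S) (nms S k vs) := by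
  induction S generalizing k vs with
  | nil => simp [rows, nms, births, passes]
  | cons s S ih =>
    rw [List.cons_append, rows_cons, rows_cons, ih, nms_cons, List.append_assoc,
      births_cons s S, passes_cons s S]
    congr 3
    unfold bp
    omega

theorem nms_append (S T : List Bd) (k : ℕ) (vs : List ℕ) :
    nms (S ++ T) k vs = nms T (k + births S + passes S) (nms S k vs) := by
  induction S generalizing k vs with
  | nil => simp [nms, births, passes]
  | cons s S ih =>
    rw [List.cons_append, nms_cons, ih, nms_cons, births_cons s S, passes_cons s S]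
    congr 1
    unfold bp
    omega

theorem nms_len (S : List Bd) (k n m : ℕ) (vs : List ℕ) (h : bty S n = some m)
    (hv : vs.length = n + 1) : (nms S k vs).length = m + 1 := by
  induction S generalizing k n vs with
  | nil =>
    simp only [bty, Option.some.injEq] at h
    subst h
    exact hv
  | cons s S ih =>
    rw [nms_cons]
    simp only [bty] at h
    cases h1 : bt s n with
    | none => rw [h1] at h; simp at h
    | some q =>
      rw [h1] at h
      exact ih (k + bp s) q _ h (rst_len s k n q vs h1 hv)

theorem rst_ne (s : Bd) (k : ℕ) (vs : List ℕ) (h : vs ≠ []) : (rst s k vs).2.2 ≠ [] := by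
  intro h0
  have := rst_head s k vs h
  rw [h0] at this
  cases vs with
  | nil => exact h rfl
  | cons a l => simp at this

theorem nms_head (S : List Bd) (k : ℕ) (vs : List ℕ) (h : vs ≠ []) :
    (nms S k vs).head? = vs.head? := by
  induction S generalizing k vs with
  | nil => rfl
  | cons s S ih =>
    rw [nms_cons, ih _ _ (rst_ne s k vs h), rst_head s k vs h]

theorem nms_dsk (S : List Bd) (k : ℕ) (h : bty S 0 = some 0) : nms S k [0] = [0] := by
  have h1 := nms_len S k 0 0 [0] h rfl
  have h2 := nms_head S k [0] (by simp)
  obtain ⟨a, ha⟩ := List.length_eq_one_iff.1 h1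
  rw [ha] at h2 ⊢
  simpa using h2

/-- renaming -/
def Row.mp (σ : ℕ → ℕ) : Row → Row
  | .mg a b => .mg (σ a) (σ b)
  | .ps a n b => .ps (σ a) (σ n) (σ b)

theorem getD_map {σ : ℕ → ℕ} (h0 : σ 0 = 0) (vs : List ℕ) (i : ℕ) :
    (vs.map σ).getD i 0 = σ (vs.getD i 0) := by
  rw [List.getD_eq_getElem?_getD, List.getD_eq_getElem?_getD, List.getElem?_map]
  cases vs[i]? with
  | none => simp [h0]
  | some v => rfl

theorem rst_map (σ : ℕ → ℕ) (h0 : σ 0 = 0) (s : Bd) (k k' : ℕ) (hk : σ k = k') (vs : List ℕ) :
    (rst s k' (vs.map σ)).1 = (rst s k vs).1.map (Row.mp σ) ∧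
      (rst s k' (vs.map σ)).2.2 = (rst s k vs).2.2.map σ := by
  subst hk
  cases s <;> constructor <;>
    simp only [rst, Row.mp, List.map_append, List.map_cons, List.map_nil, List.map_take,
      List.map_drop, getD_map h0]

theorem rows_map (σ : ℕ → ℕ) (h0 : σ 0 = 0) (S : List Bd) (k k' : ℕ)
    (hk : ∀ i, σ (k + i) = k' + i) (vs : List ℕ) :
    rows S k' (vs.map σ) = (rows S k vs).map (Row.mp σ) := by
  induction S generalizing k k' vs with
  | nil => rfl
  | cons s S ih =>
    have h1 := rst_map σ h0 s k k' (hk 0) vs
    rw [rows_cons, rows_cons, h1.1, h1.2, List.map_append,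
      ih (k + bp s) (k' + bp s) (fun i => by rw [add_assoc, hk, add_assoc])]

theorem conn_append (S T : List Bd) (hS : bty S 0 = some 0) (h1 : Conn S) (h2 : Conn T) :
    Conn (S ++ T) := by
  intro A h0 hA v hv
  rw [rows_append, nms_dsk S 1 hS] at hA
  rw [births_append, passes_append] at hv
  have hS' := h1 A h0 fun r hr => hA r (List.mem_append_left _ hr)
  set d := births S + passes S with hd
  set σ : ℕ → ℕ := fun v => if v = 0 then 0 else v + d with hσ
  have hrows : rows T (1 + births S + passes S) [0] = (rows T 1 [0]).map (Row.mp σ) := by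
    have := rows_map σ (by simp [hσ]) T 1 (1 + births S + passes S) (fun i => by
      simp only [hσ]
      rw [if_neg (by omega)]
      omega) [0]
    simpa [hσ] using this
  have hT' := h2 {v | σ v ∈ A} (by simpa [hσ] using h0) (by
    intro r hr
    have := hA (Row.mp σ r) (List.mem_append_right _ (by
      rw [hrows]
      exact List.mem_map_of_mem hr))
    cases r <;> exact this)
  by_cases hvd : v ≤ d
  · exact hS' v hvd
  · have h3 := hT' (v - d) (by omega)
    simp only [Set.mem_ofPred_eq, hσ] at h3
    rw [if_neg (by omega), Nat.sub_add_cancel (by omega)] at h3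
    exact h3

theorem dsk_append (S T : List Bd) (hS : Dsk S) (hT : Dsk T) : Dsk (S ++ T) := by
  refine ⟨?_, conn_append S T hS.1 hS.2.1 hT.2.1, ?_⟩
  · rw [bty_append, hS.1]
    exact hT.1
  · rw [births_append, merges_append, hS.2.2, hT.2.2]

theorem dsk_nil : Dsk [] := by
  refine ⟨rfl, ?_, rfl⟩
  intro A h0 _ v hv
  have : v = 0 := by simpa [births, passes] using hv
  rw [this]
  exact h0

end Pool.Agent.H86.RB
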