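import Pool.Agent.H86.RB.FamDef
import Pool.Agent.H86.RB.Names

/-!
# The surfaces of the family are ribbon disks
-/

set_option autoImplicit false

namespace Pool.Agent.H86.RB

theorem bty_famBs (k : ℕ) : bty (famBs k ++ famC) 2 = some 0 := by
  induction k with
  | zero => rfl
  | succ k ih =>
    rw [famBs, List.append_assoc, bty_append]
    have : bty famB 2 = some 2 := rfl
    rw [this]
    exact ih

theorem bty_fam (k : ℕ) : bty (fam k) 0 = some 0 := by
  rw [fam, bty_append]
  have : bty famA 0 = some 2 := rfl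
  rw [this]
  exact bty_famBs k

theorem births_famBs (k : ℕ) : births (famBs k) = k := by
  induction k with
  | zero => rfl
  | succ k ih =>
    rw [famBs, births_append, ih]
    have : births famB = 1 := rfl
    omega

theorem merges_famBs (k : ℕ) : merges (famBs k) = k := by
  induction k with
  | zero => rfl
  | succ k ih =>
    rw [famBs, merges_append, ih]
    have : merges famB = 1 := rfl
    omega

theorem passes_famBs (k : ℕ) : passes (famBs k) = k := by
  induction k with
  | zero => rfl
  | succ k ih =>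
    rw [famBs, passes_append, ih]
    have : passes famB = 1 := rfl
    omega

theorem births_fam (k : ℕ) : births (fam k) = k + 2 := by
  rw [fam, births_append, births_append, births_famBs]
  have h1 : births famA = 2 := rfl
  have h2 : births famC = 0 := rfl
  omega

theorem merges_fam (k : ℕ) : merges (fam k) = k + 2 := by
  rw [fam, merges_append, merges_append, merges_famBs]
  have h1 : merges famA = 1 := rfl
  have h2 : merges famC = 1 := rfl
  omega

theorem passes_fam (k : ℕ) : passes (fam k) = k + 2 := by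
  rw [fam, passes_append, passes_append, passes_famBs]
  have h1 : passes famA = 1 := rfl
  have h2 : passes famC = 1 := rfl
  omega

theorem rows_famC (K b : ℕ) : rows famC K [0, b, 1] = [.ps 0 K 1, .mg b K] := rfl

theorem rows_famB (K b : ℕ) (T : List Bd) :
    rows (famB ++ T) K [0, b, 1] = [.ps 0 (K + 1) K, .mg b (K + 1)] ++ rows T (K + 2) [0, K, 1] :=
  rfl

theorem rows_famA (T : List Bd) :
    rows (famA ++ T) 1 [0] = [.ps 0 3 2, .mg 1 3] ++ rows T 4 [0, 2, 1] := rfl

theorem conn_famBs (k : ℕ) : ∀ (K b : ℕ) (A : Set ℕ), 0 ∈ A →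
    (∀ r ∈ rows (famBs k ++ famC) K [0, b, 1], (r.x ∈ A ↔ r.y ∈ A)) →
      b ∈ A ∧ ∀ v, K ≤ v → v ≤ K + 2 * k → v ∈ A := by
  induction k with
  | zero =>
    intro K b A h0 h
    simp only [famBs, List.nil_append, rows_famC] at h
    have h1 := h (.ps 0 K 1) (by simp)
    have h2 := h (.mg b K) (by simp)
    simp only [Row.x, Row.y] at h1 h2
    refine ⟨h2.2 (h1.1 h0), fun v hv hv' => ?_⟩
    have : v = K := by omega
    rw [this]
    exact h1.1 h0
  | succ k ih =>
    intro K b A h0 h
    simp only [famBs, List.append_assoc, rows_famB] at h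
    have h1 := h (.ps 0 (K + 1) K) (by simp)
    have h2 := h (.mg b (K + 1)) (by simp)
    simp only [Row.x, Row.y] at h1 h2
    obtain ⟨h3, h4⟩ := ih (K + 2) K A h0 fun r hr => h r (List.mem_append_right _ hr)
    refine ⟨h2.2 (h1.1 h0), fun v hv hv' => ?_⟩
    by_cases e1 : v = K
    · rw [e1]; exact h3
    · by_cases e2 : v = K + 1
      · rw [e2]; exact h1.1 h0
      · exact h4 v (by omega) (by omega)

theorem conn_fam (k : ℕ) : Conn (fam k) := by
  intro A h0 h v hv
  rw [births_fam, passes_fam] at hv
  rw [fam, rows_famA] at h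
  have h1 := h (.ps 0 3 2) (by simp)
  have h2 := h (.mg 1 3) (by simp)
  simp only [Row.x, Row.y] at h1 h2
  obtain ⟨h3, h4⟩ := conn_famBs k 4 2 A h0 fun r hr => h r (List.mem_append_right _ hr)
  by_cases e0 : v = 0
  · rw [e0]; exact h0
  by_cases e1 : v = 1
  · rw [e1]; exact h2.2 (h1.1 h0)
  by_cases e2 : v = 2
  · rw [e2]; exact h3
  by_cases e3 : v = 3
  · rw [e3]; exact h1.1 h0
  exact h4 v (by omega) (by omega)

theorem dsk_fam (k : ℕ) : Dsk (fam k) :=
  ⟨bty_fam k, conn_fam k, by rw [births_fam, merges_fam]⟩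

end Pool.Agent.H86.RB
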