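import Pool.Agent.H86.RB.Defs

/-!
# A family of ribbon knots

`knot n` (for `n ≥ 2`) bounds a ribbon disk with `n` ribbon singularities: discs `D_1, …, D_n` are attached to the half plane,
the band from the half plane to `D_i` passes through `D_(i+1)` (and the one of `D_n` through `D_1`).
-/

set_option autoImplicit false

namespace Pool.Agent.H86.RB

/-- the first band -/
def famA : List Bd :=
  [.birth 0, .birth 1, .split 0, .cross true 0, .passR true 1, .cross false 0, .merge 2,
    .twist false 1, .twist false 1]

/-- the other bands -/
def famB : List Bd :=
  [.birth 1, .split 0, .cross true 0, .passR true 1, .cross false 0, .merge 2, .death 1]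

/-- the last band -/
def famC : List Bd :=
  [.split 0, .cross true 0, .passR true 1, .cross false 0, .merge 2, .death 1, .death 0]

/-- `k` copies of `famB` -/
def famBs : ℕ → List Bd
  | 0 => []
  | k + 1 => famB ++ famBs k

/-- the ribbon disk with `k + 2` ribbon singularities -/
def fam (k : ℕ) : List Bd := famA ++ (famBs k ++ famC)

/-- the boundary of the disk with `n ≥ 2` ribbon singularities -/
def knot (n : ℕ) : Wd := bdw (fam (n - 2))

end Pool.Agent.H86.RB
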