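import Pool.Agent.H86.RB.Bound

/-!
# Additivity of the ribbon number
-/

set_option autoImplicit false

namespace Pool.Agent.H86.RB

theorem add_det (L : List Wd) (h : ∀ K ∈ L, Kn K ∧ Rb K) (N : ℕ) [NeZero N]
    (hN : (max 1 (2 ^ ((L.map rib).sum - 1) - 1)) ^ 2 < (L.map (fun K => col N K)).prod) :
    rib L.flatten = (L.map rib).sum := by
  refine le_antisymm (rib_flatten_le L h) ?_
  by_contra hlt
  push Not at hlt
  have h1 := rib_det L.flatten (rb_flatten L h) N
  rw [col_flatten L fun K hK => (h K hK).1.1] at h1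
  have h2 : 2 ^ rib L.flatten ≤ 2 ^ ((L.map rib).sum - 1) :=
    Nat.pow_le_pow_right (by norm_num) (by omega)
  have h3 : (max 1 (2 ^ rib L.flatten - 1)) ^ 2 ≤ (max 1 (2 ^ ((L.map rib).sum - 1) - 1)) ^ 2 := by
    apply Nat.pow_le_pow_left
    exact max_le_max le_rfl (by omega)
  omega

theorem add_three (L : List Wd) (h : ∀ K ∈ L, Kn K ∧ Rb K)
    (hN : 3 ^ (2 * (((L.map rib).sum - 1) / 2)) < (L.map (fun K => col 3 K)).prod) :
    rib L.flatten = (L.map rib).sum := by
  refine le_antisymm (rib_flatten_le L h) ?_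
  by_contra hlt
  push Not at hlt
  have : Fact (Nat.Prime 3) := ⟨Nat.prime_three⟩
  have h1 := rib_prime L.flatten (rb_flatten L h) 3 (by norm_num)
  rw [col_flatten L fun K hK => (h K hK).1.1] at h1
  have h2 : 3 ^ (2 * (rib L.flatten / 2)) ≤ 3 ^ (2 * (((L.map rib).sum - 1) / 2)) :=
    Nat.pow_le_pow_right (by norm_num) (by omega)
  omega

theorem prod_three (L : List Wd) (h : ∀ K ∈ L, col 3 K = 3 ^ rib K) :
    (L.map (fun K => col 3 K)).prod = 3 ^ (L.map rib).sum := by
  induction L with
  | nil => rfl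
  | cons K L ih =>
    rw [List.map_cons, List.prod_cons, List.map_cons, List.sum_cons, pow_add,
      ih fun K' hK' => h K' (by simp [hK']), h K (by simp)]

/-- the class of ribbon knots with `3 ^ r` colourings is closed under the connected sum, and the ribbon number is
additive on it -/
theorem class_three (L : List Wd) (h : ∀ K ∈ L, Kn K ∧ Rb K) (h3 : ∀ K ∈ L, col 3 K = 3 ^ rib K) :
    rib L.flatten = (L.map rib).sum ∧ col 3 L.flatten = 3 ^ rib L.flatten := by
  have h1 : rib L.flatten = (L.map rib).sum := by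
    rcases Nat.eq_zero_or_pos (L.map rib).sum with h0 | h0
    · have := rib_flatten_le L h
      omega
    · apply add_three L h
      rw [prod_three L h3]
      exact Nat.pow_lt_pow_right (by norm_num) (by omega)
  refine ⟨h1, ?_⟩
  rw [h1, col_flatten L fun K hK => (h K hK).1.1, prod_three L h3]

end Pool.Agent.H86.RB
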