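import Pool.Agent.H86.RB.FamC
import Pool.Agent.H86.RB.Main

/-!
# The ribbon numbers of the family and of its sums
-/

set_option autoImplicit false

namespace Pool.Agent.H86.RB

theorem fam_col (k N : ℕ) [NeZero N] (hD : (2 ^ (k + 2) - 1) ∣ N) :
    (2 ^ (k + 2) - 1) ^ 2 ≤ col N (bdw (fam k)) := by
  classical
  obtain ⟨t, ht⟩ := hD
  set D := 2 ^ (k + 2) - 1 with hDdef
  have hD1 : D + 1 = 2 ^ (k + 2) := by
    have : 0 < 2 ^ (k + 2) := by positivity
    omega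
  have hN : 0 < N := Nat.pos_of_ne_zero (NeZero.ne N)
  have htpos : 0 < t := by
    rcases Nat.eq_zero_or_pos t with h | h
    · rw [h, mul_zero] at ht; omega
    · exact h
  let z : Fin D → ZMod N := fun i => ((t * (i : ℕ) : ℕ) : ZMod N)
  have hz : ∀ i, 2 ^ (k + 2) * z i = z i := by
    intro i
    have h1 : ((2 : ZMod N) ^ (k + 2)) = ((D + 1 : ℕ) : ZMod N) := by
      rw [hD1]
      push_cast
      rfl
    have h2 : ((D * (t * (i : ℕ)) : ℕ) : ZMod N) = 0 := by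
      rw [← mul_assoc, ← ht]
      push_cast
      rw [ZMod.natCast_self, zero_mul]
    rw [h1]
    simp only [z]
    rw [← Nat.cast_mul, add_mul, one_mul, Nat.cast_add, h2, zero_add]
  have hzinj : Function.Injective z := by
    intro i j hij
    simp only [z] at hij
    rw [ZMod.natCast_eq_natCast_iff'] at hij
    have h1 : t * (i : ℕ) < N := by
      rw [ht, mul_comm D t]
      exact Nat.mul_lt_mul_of_pos_left i.2 htpos
    have h2 : t * (j : ℕ) < N := by
      rw [ht, mul_comm D t]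
      exact Nat.mul_lt_mul_of_pos_left j.2 htpos
    rw [Nat.mod_eq_of_lt h1, Nat.mod_eq_of_lt h2] at hij
    exact Fin.ext (Nat.eq_of_mul_eq_mul_left htpos hij)
  have hex : ∀ p : Fin D × Fin D, ∃ q ∈ brun N (fam k) [(0, 0)], ∃ c,
      q.1 = [2 * (2 ^ k * z p.1) + z p.2, 2 ^ k * z p.1 + z p.2, -z p.2] ++ c := by
    intro p
    obtain ⟨c, fl, h⟩ := ev_fam k (z p.1) (z p.2) (hz _) (hz _)
    exact ⟨_, mem_of_ev h, c, rfl⟩
  choose G hG1 hG2 using hex
  have hnod : (brun N (fam k) [(0, 0)]).Nodup := Multiset.Nodup.of_map _ (brun_nodup _ _)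
  have hGinj : Function.Injective G := by
    intro p p' hpp
    obtain ⟨c, hc⟩ := hG2 p
    obtain ⟨c', hc'⟩ := hG2 p'
    rw [hpp, hc'] at hc
    simp only [List.cons_append, List.nil_append, List.cons.injEq] at hc
    obtain ⟨_, h2, h3, _⟩ := hc
    have h4 : z p.2 = z p'.2 := (neg_injective h3).symm
    rw [h4] at h2
    have h5 : 2 ^ k * z p'.1 = 2 ^ k * z p.1 := add_right_cancel h2
    have h6 : z p.1 = z p'.1 := by
      rw [← hz p.1, ← hz p'.1, show (2 : ZMod N) ^ (k + 2) = 4 * 2 ^ k by ring, mul_assoc, mul_assoc,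
        h5]
    exact Prod.ext (hzinj h6) (hzinj h4)
  rw [col_bdw _ (bty_fam k), ← Multiset.toFinset_card_of_nodup hnod]
  have h1 : (Finset.univ.image G).card = D * D := by
    rw [Finset.card_image_of_injective _ hGinj, Finset.card_univ, Fintype.card_prod, Fintype.card_fin]
  rw [sq, ← h1]
  apply Finset.card_le_card
  intro q hq
  obtain ⟨p, _, rfl⟩ := Finset.mem_image.1 hq
  exact Multiset.mem_toFinset.2 (hG1 p)

theorem rb_fam (k : ℕ) : Rb (bdw (fam k)) := ⟨fam k, dsk_fam k, Relation.ReflTransGen.refl⟩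

theorem kn_fam (k : ℕ) : Kn (bdw (fam k)) := kn_bdw _ (dsk_fam k)

theorem D_ne (k : ℕ) : 2 ^ (k + 2) - 1 ≠ 0 := by
  have : 2 ^ 2 ≤ 2 ^ (k + 2) := Nat.pow_le_pow_right (by norm_num) (by omega)
  omega

theorem rib_fam (k : ℕ) : rib (bdw (fam k)) = k + 2 := by
  refine le_antisymm ?_ ?_
  · have := rib_le _ (fam k) (dsk_fam k) Relation.ReflTransGen.refl
    rwa [passes_fam] at this
  · by_contra hlt
    push Not at hlt
    have : NeZero (2 ^ (k + 2) - 1) := ⟨D_ne k⟩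
    have h1 := rib_det (bdw (fam k)) (rb_fam k) (2 ^ (k + 2) - 1)
    have h2 := fam_col k (2 ^ (k + 2) - 1) (dvd_refl _)
    have h3 : 2 ^ rib (bdw (fam k)) ≤ 2 ^ (k + 1) :=
      Nat.pow_le_pow_right (by norm_num) (by omega)
    have h4 : 2 ^ (k + 2) = 2 * 2 ^ (k + 1) := by ring
    have h5 : 2 ≤ 2 ^ (k + 1) := by
      calc 2 = 2 ^ 1 := rfl
        _ ≤ 2 ^ (k + 1) := Nat.pow_le_pow_right (by norm_num) (by omega)
    have h6 : max 1 (2 ^ rib (bdw (fam k)) - 1) < 2 ^ (k + 2) - 1 := by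
      apply max_lt <;> omega
    have h7 := Nat.pow_lt_pow_left h6 (n := 2) (by norm_num)
    omega

theorem col_fam (k : ℕ) [NeZero (2 ^ (k + 2) - 1)] :
    col (2 ^ (k + 2) - 1) (bdw (fam k)) = (2 ^ (k + 2) - 1) ^ 2 := by
  refine le_antisymm ?_ (fam_col k _ (dvd_refl _))
  have h1 := rib_det (bdw (fam k)) (rb_fam k) (2 ^ (k + 2) - 1)
  rw [rib_fam] at h1
  rwa [max_eq_right (Nat.one_le_iff_ne_zero.2 (D_ne k))] at h1

/-- copies of the first knot -/
theorem rib_copies (n : ℕ) : rib (List.replicate n (bdw (fam 0))).flatten = 2 * n := by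
  have h3 : col 3 (bdw (fam 0)) = 3 ^ rib (bdw (fam 0)) := by
    rw [rib_fam]
    have : NeZero (2 ^ (0 + 2) - 1) := ⟨D_ne 0⟩
    have := col_fam 0
    simpa using this
  have h := class_three (List.replicate n (bdw (fam 0)))
    (fun K hK => by
      rw [List.eq_of_mem_replicate hK]
      exact ⟨kn_fam 0, rb_fam 0⟩)
    (fun K hK => by
      rw [List.eq_of_mem_replicate hK]
      exact h3)
  rw [h.1, List.map_replicate, List.sum_replicate, rib_fam]
  simp [mul_comm]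

theorem one_sub_sum (s : Finset ℕ) (x : ℕ → ℚ) (h0 : ∀ k, 0 ≤ x k) (h1 : ∀ k, x k ≤ 1) :
    1 - ∑ k ∈ s, x k ≤ ∏ k ∈ s, (1 - x k) := by
  classical
  induction s using Finset.induction_on with
  | empty => simp
  | insert a s ha ih =>
    rw [Finset.sum_insert ha, Finset.prod_insert ha]
    have h2 : (1 - x a) * (1 - ∑ k ∈ s, x k) ≤ (1 - x a) * ∏ k ∈ s, (1 - x k) :=
      mul_le_mul_of_nonneg_left ih (by linarith [h1 a])
    have h3 : 0 ≤ x a * ∑ k ∈ s, x k := mul_nonneg (h0 a) (Finset.sum_nonneg fun k _ => h0 k)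
    nlinarith

theorem sum_half (s : Finset ℕ) : ∑ k ∈ s, (1 / 2 : ℚ) ^ (k + 2) < 1 / 2 := by
  classical
  obtain ⟨M, hM⟩ : ∃ M, s ⊆ Finset.range M := s.exists_nat_subset_range
  have h1 : ∑ k ∈ s, (1 / 2 : ℚ) ^ (k + 2) ≤ ∑ k ∈ Finset.range M, (1 / 2 : ℚ) ^ (k + 2) :=
    Finset.sum_le_sum_of_subset_of_nonneg hM fun k _ _ => by positivity
  have h2 : ∀ M : ℕ, ∑ k ∈ Finset.range M, (1 / 2 : ℚ) ^ (k + 2) = 1 / 2 - (1 / 2) ^ (M + 1) := by
    intro M
    induction M with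
    | zero => norm_num
    | succ M ih =>
      rw [Finset.sum_range_succ, ih]
      ring
  rw [h2] at h1
  have h3 : (0 : ℚ) < (1 / 2) ^ (M + 1) := by positivity
  linarith

/-- the inequality for different indices -/
theorem prod_ineq (s : Finset ℕ) :
    2 ^ (∑ k ∈ s, (k + 2)) < 2 * ∏ k ∈ s, (2 ^ (k + 2) - 1) := by
  have h1 := one_sub_sum s (fun k => (1 / 2 : ℚ) ^ (k + 2)) (fun k => by positivity)
    (fun k => pow_le_one₀ (by norm_num) (by norm_num))
  have h2 := sum_half s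
  have h3 : (1 / 2 : ℚ) < ∏ k ∈ s, (1 - (1 / 2 : ℚ) ^ (k + 2)) := by linarith
  have h4 : (∏ k ∈ s, ((2 : ℚ) ^ (k + 2))) * ∏ k ∈ s, (1 - (1 / 2 : ℚ) ^ (k + 2)) =
      ∏ k ∈ s, ((2 : ℚ) ^ (k + 2) - 1) := by
    rw [← Finset.prod_mul_distrib]
    refine Finset.prod_congr rfl fun k _ => ?_
    rw [mul_sub, mul_one, ← mul_pow]
    norm_num
  have h5 : (0 : ℚ) < ∏ k ∈ s, ((2 : ℚ) ^ (k + 2)) := Finset.prod_pos fun k _ => by positivity
  have h6 : ((2 ^ (∑ k ∈ s, (k + 2)) : ℕ) : ℚ) < ((2 * ∏ k ∈ s, (2 ^ (k + 2) - 1) : ℕ) : ℚ) := by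
    have e1 : ((2 ^ (∑ k ∈ s, (k + 2)) : ℕ) : ℚ) = ∏ k ∈ s, ((2 : ℚ) ^ (k + 2)) := by
      push_cast
      rw [← Finset.prod_pow_eq_pow_sum]
    have e2 : ((2 * ∏ k ∈ s, (2 ^ (k + 2) - 1) : ℕ) : ℚ) = 2 * ∏ k ∈ s, ((2 : ℚ) ^ (k + 2) - 1) := by
      rw [Nat.cast_mul, Nat.cast_prod]
      congr 1
      refine Finset.prod_congr rfl fun k _ => ?_
      rw [Nat.cast_sub Nat.one_le_two_pow]
      push_cast
      rfl
    rw [e1, e2, ← h4]
    nlinarith
  exact_mod_cast h6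

theorem rib_distinct (ks : List ℕ) (hks : ks.Nodup) :
    rib (ks.map (fun k => bdw (fam k))).flatten = (ks.map (fun k => k + 2)).sum := by
  classical
  have hK : ∀ K ∈ ks.map (fun k => bdw (fam k)), Kn K ∧ Rb K := by
    intro K hK
    obtain ⟨k, _, rfl⟩ := List.mem_map.1 hK
    exact ⟨kn_fam k, rb_fam k⟩
  have hsum : ((ks.map (fun k => bdw (fam k))).map rib).sum = (ks.map (fun k => k + 2)).sum := by
    rw [List.map_map]
    congr 1
    apply List.map_congr_left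
    intro k _
    exact rib_fam k
  rcases eq_or_ne ks [] with hem | hne
  · have := rib_flatten_le _ hK
    rw [hsum] at this
    rw [hem] at this ⊢
    simpa using this
  have hs1 : (ks.map (fun k => k + 2)).sum = ∑ k ∈ ks.toFinset, (k + 2) := by
    rw [List.sum_toFinset _ hks]
  set N := ∏ k ∈ ks.toFinset, (2 ^ (k + 2) - 1) with hN
  have hN0 : N ≠ 0 := Finset.prod_ne_zero_iff.2 fun k _ => D_ne k
  have : NeZero N := ⟨hN0⟩
  have hineq := prod_ineq ks.toFinset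
  rw [← hN, ← hs1] at hineq
  rw [← hsum]
  apply add_det _ hK N
  rw [hsum, List.map_map]
  set R := (ks.map (fun k => k + 2)).sum with hR
  have hR2 : 2 ≤ R := by
    obtain ⟨k, l, rfl⟩ := List.exists_cons_of_ne_nil hne
    simp only [hR, List.map_cons, List.sum_cons]
    omega
  have h2R : 2 ^ R = 2 * 2 ^ (R - 1) := by
    rw [← pow_succ']
    congr 1
    omega
  have h3 : 2 ≤ 2 ^ (R - 1) := by
    calc 2 = 2 ^ 1 := rfl
      _ ≤ 2 ^ (R - 1) := Nat.pow_le_pow_right (by norm_num) (by omega)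
  have h4 : max 1 (2 ^ (R - 1) - 1) < N := by
    apply max_lt <;> omega
  have h5 : N ^ 2 ≤ (ks.map ((fun K => col N K) ∘ fun k => bdw (fam k))).prod := by
    have hN2 : N ^ 2 = ∏ k ∈ ks.toFinset, (2 ^ (k + 2) - 1) ^ 2 := by rw [hN, ← Finset.prod_pow]
    rw [← List.prod_toFinset _ hks, hN2]
    apply Finset.prod_le_prod'
    intro k hk
    exact fam_col k N (Finset.dvd_prod_of_mem _ hk)
  calc (max 1 (2 ^ (R - 1) - 1)) ^ 2 < N ^ 2 := Nat.pow_lt_pow_left h4 (by norm_num)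
    _ ≤ _ := h5

end Pool.Agent.H86.RB
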