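import Pool.Agent.H86.RB.Comm

/-!
# Invariance of the colourings under the local moves
-/

set_option autoImplicit false

namespace Pool.Agent.H86.RB

variable {N : ℕ} [NeZero N]

theorem stp_one (k : Kd) (a : ZMod N) (l : List (ZMod N)) :
    stp N ⟨k, 1⟩ (a :: l) = (loc N k l).map (fun r => a :: r) := by
  simp [stp]

/-- one value of the colour of a cup survives -/
theorem bind_pick {β : Type*} (a : ZMod N) (g : ZMod N → β) :
    ((Finset.univ : Finset (ZMod N)).val.bind fun c => if c = a then ({g c} : Multiset β) else 0) =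
      {g a} := by
  have h : (Finset.univ : Finset (ZMod N)).val = a ::ₘ ((Finset.univ : Finset (ZMod N)).erase a).val := by
    rw [Finset.erase_val, Multiset.cons_erase]
    exact Finset.mem_univ a
  rw [h, Multiset.cons_bind, if_pos rfl]
  have h2 : (((Finset.univ : Finset (ZMod N)).erase a).val.bind
      fun c => if c = a then ({g c} : Multiset β) else 0) = 0 := by
    have : ∀ c ∈ ((Finset.univ : Finset (ZMod N)).erase a).val,
        (if c = a then ({g c} : Multiset β) else 0) = 0 := by
      intro c hc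
      rw [if_neg (Finset.ne_of_mem_erase hc)]
    rw [Multiset.bind_congr this, Multiset.bind_zero]
  rw [h2, add_zero]

/-- a substitution of the colour of a cup -/
theorem map_subst {β : Type*} (e : ZMod N ≃ ZMod N) (g : ZMod N → β) :
    ((Finset.univ : Finset (ZMod N)).val.map fun c => g (e c)) =
      (Finset.univ : Finset (ZMod N)).val.map g := by
  have h : (Finset.univ : Finset (ZMod N)).val.map e = (Finset.univ : Finset (ZMod N)).val := by
    have := congrArg Finset.val (Finset.map_univ_equiv e)
    rwa [Finset.map_val] at this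
  calc ((Finset.univ : Finset (ZMod N)).val.map fun c => g (e c))
      = ((Finset.univ : Finset (ZMod N)).val.map e).map g := by
        rw [Multiset.map_map]; rfl
    _ = _ := by rw [h]

theorem loc_zig (a : ZMod N) (r : List (ZMod N)) :
    run N [⟨.cup, 0⟩, ⟨.cap, 1⟩] (a :: r) = {a :: r} := by
  rw [run_cons, stp_zero]
  simp only [loc, Multiset.bind_map]
  rw [← bind_pick a (fun c => c :: r)]
  refine Multiset.bind_congr fun c _ => ?_
  rw [run_cons, run_nil_bind, stp_one]
  simp only [loc]
  split_ifs <;> simp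

theorem loc_zag (a : ZMod N) (r : List (ZMod N)) :
    run N [⟨.cup, 1⟩, ⟨.cap, 0⟩] (a :: r) = {a :: r} := by
  rw [run_cons, stp_one]
  simp only [loc, Multiset.bind_map, Multiset.map_map, Function.comp_def]
  rw [← bind_pick a (fun c => c :: r)]
  refine Multiset.bind_congr fun c _ => ?_
  rw [run_cons, run_nil_bind, stp_zero]
  simp only [loc]
  by_cases h : a = c
  · rw [if_pos h, if_pos h.symm]
  · rw [if_neg h, if_neg (fun e => h e.symm)]

theorem loc_r1a (a b : ZMod N) (r : List (ZMod N)) :
    run N [⟨.pos, 0⟩, ⟨.cap, 0⟩] (a :: b :: r) = run N [⟨.cap, 0⟩] (a :: b :: r) := by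
  simp only [run_cons, stp_zero, run_nil_bind, loc, Multiset.singleton_bind]
  have : (2 * a - b = a) ↔ (a = b) := by
    constructor
    · intro h; linear_combination h
    · intro h; linear_combination h
  simp only [this]

theorem loc_r1b (a b : ZMod N) (r : List (ZMod N)) :
    run N [⟨.neg, 0⟩, ⟨.cap, 0⟩] (a :: b :: r) = run N [⟨.cap, 0⟩] (a :: b :: r) := by
  simp only [run_cons, stp_zero, run_nil_bind, loc, Multiset.singleton_bind]
  have : (b = 2 * b - a) ↔ (a = b) := by
    constructor
    · intro h; linear_combination h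
    · intro h; linear_combination h
  simp only [this]

theorem loc_r1c (r : List (ZMod N)) :
    run N [⟨.cup, 0⟩, ⟨.pos, 0⟩] r = run N [⟨.cup, 0⟩] r := by
  simp only [run_cons, stp_zero, run_nil, loc, Multiset.bind_map, Multiset.singleton_bind]
  refine Multiset.bind_congr fun c _ => ?_
  rw [show 2 * c - c = c by ring]

theorem loc_r1d (r : List (ZMod N)) :
    run N [⟨.cup, 0⟩, ⟨.neg, 0⟩] r = run N [⟨.cup, 0⟩] r := by
  simp only [run_cons, stp_zero, run_nil, loc, Multiset.bind_map, Multiset.singleton_bind]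
  refine Multiset.bind_congr fun c _ => ?_
  rw [show 2 * c - c = c by ring]

theorem loc_r2a (a b : ZMod N) (r : List (ZMod N)) :
    run N [⟨.pos, 0⟩, ⟨.neg, 0⟩] (a :: b :: r) = {a :: b :: r} := by
  simp only [run_cons, stp_zero, run_nil_bind, loc, Multiset.singleton_bind]
  rw [show 2 * a - (2 * a - b) = b by ring]

theorem loc_r2b (a b : ZMod N) (r : List (ZMod N)) :
    run N [⟨.neg, 0⟩, ⟨.pos, 0⟩] (a :: b :: r) = {a :: b :: r} := by
  simp only [run_cons, stp_zero, run_nil_bind, loc, Multiset.singleton_bind]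
  rw [show 2 * b - (2 * b - a) = a by ring]

theorem loc_r3 (a b c : ZMod N) (r : List (ZMod N)) :
    run N [⟨.pos, 0⟩, ⟨.pos, 1⟩, ⟨.pos, 0⟩] (a :: b :: c :: r) =
      run N [⟨.pos, 1⟩, ⟨.pos, 0⟩, ⟨.pos, 1⟩] (a :: b :: c :: r) := by
  simp only [run_cons, stp_zero, stp_one, run_nil_bind, loc, Multiset.singleton_bind,
    Multiset.map_singleton]
  rw [show 2 * (2 * a - b) - (2 * a - c) = 2 * a - (2 * b - c) by ring]

theorem loc_sla (a b c : ZMod N) (r : List (ZMod N)) :
    run N [⟨.pos, 1⟩, ⟨.cap, 0⟩] (a :: b :: c :: r) =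
      run N [⟨.neg, 0⟩, ⟨.cap, 1⟩] (a :: b :: c :: r) := by
  simp only [run_cons, stp_zero, stp_one, run_nil_bind, loc, Multiset.singleton_bind,
    Multiset.map_singleton]
  by_cases h : a = 2 * b - c
  · rw [if_pos h, if_pos (by linear_combination -h), Multiset.map_singleton]
  · rw [if_neg h, if_neg (fun e => h (by linear_combination -e)), Multiset.map_zero]

theorem loc_slb (a b c : ZMod N) (r : List (ZMod N)) :
    run N [⟨.neg, 1⟩, ⟨.cap, 0⟩] (a :: b :: c :: r) =
      run N [⟨.pos, 0⟩, ⟨.cap, 1⟩] (a :: b :: c :: r) := by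
  simp only [run_cons, stp_zero, stp_one, run_nil_bind, loc, Multiset.singleton_bind,
    Multiset.map_singleton]
  by_cases h : a = c
  · rw [if_pos h, if_pos h, Multiset.map_singleton, h]
  · rw [if_neg h, if_neg h, Multiset.map_zero]

theorem loc_slc (a : ZMod N) (r : List (ZMod N)) :
    run N [⟨.cup, 0⟩, ⟨.pos, 1⟩] (a :: r) = run N [⟨.cup, 1⟩, ⟨.neg, 0⟩] (a :: r) := by
  simp only [run_cons, stp_zero, stp_one, run_nil_bind, loc, Multiset.bind_map, Multiset.map_map,
    Multiset.map_singleton, Function.comp_def]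

theorem loc_sld (a : ZMod N) (r : List (ZMod N)) :
    run N [⟨.cup, 0⟩, ⟨.neg, 1⟩] (a :: r) = run N [⟨.cup, 1⟩, ⟨.pos, 0⟩] (a :: r) := by
  simp only [run_cons, stp_zero, stp_one, run_nil_bind, loc, Multiset.bind_map, Multiset.map_map,
    Multiset.map_singleton, Function.comp_def]
  rw [Multiset.bind_singleton, Multiset.bind_singleton]
  have := map_subst (N := N) (Equiv.subLeft (2 * a)) (fun c => (2 * a - c) :: a :: c :: r)
  rw [← this]
  refine Multiset.map_congr rfl fun c _ => ?_
  simp only [Equiv.subLeft_apply]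
  rw [show 2 * a - (2 * a - c) = c by ring]

end Pool.Agent.H86.RB
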