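import Pool.Agent.H86.RB.Names
import Pool.Agent.H86.RB.Loc

/-!
# Colourings of the boundary of a ribbon surface are computed band by band
-/

set_option autoImplicit false

namespace Pool.Agent.H86.RB

theorem fl_nil {N : ℕ} : fl ([] : List (ZMod N × ZMod N)) = [] := rfl

theorem fl_cons {N : ℕ} (a b : ZMod N) (st : List (ZMod N × ZMod N)) :
    fl ((a, b) :: st) = a :: b :: fl st := rfl

theorem fl_append {N : ℕ} (x y : List (ZMod N × ZMod N)) : fl (x ++ y) = fl x ++ fl y := by
  simp [fl]

theorem fl_length {N : ℕ} (x : List (ZMod N × ZMod N)) : (fl x).length = 2 * x.length := by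
  induction x with
  | nil => rfl
  | cons p x ih =>
    obtain ⟨a, b⟩ := p
    rw [fl_cons, List.length_cons, List.length_cons, ih, List.length_cons]
    omega

/-- the slices moved one strand to the right -/
def up (w : Wd) : Wd := w.map (fun s => (⟨s.k, 1 + s.i⟩ : Sl))

variable {N : ℕ} [NeZero N]

theorem stp_two (k : Kd) (a b : ZMod N) (l : List (ZMod N)) :
    stp N ⟨k, 2⟩ (a :: b :: l) = (loc N k l).map (fun r => a :: b :: r) := by
  simp [stp]

/-- a word at the right of `x` -/
theorem run_at2 (x : List (ZMod N × ZMod N)) (w : Wd) (r : List (ZMod N)) (v : Wd)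
    (hv : v = w.map (fun s => (⟨s.k, (fl x).length + s.i⟩ : Sl))) :
    run N v (fl x ++ r) = (run N w r).map (fun t => fl x ++ t) := by
  rw [hv, run_shift]

theorem lc_cross (p : Bool) (a b c d : ZMod N) (r : List (ZMod N)) :
    run N [X p 1, X p 0, X p 2, X p 1] (a :: b :: c :: d :: r) =
      {if p then (c - 2 * (b - a)) :: (d - 2 * (b - a)) :: a :: b :: r
        else c :: d :: (a + 2 * (d - c)) :: (b + 2 * (d - c)) :: r} := by
  cases p
  · simp only [X, Bool.false_eq_true, if_false, run_cons, stp_zero, stp_one, stp_two, run_nil_bind,
      loc, Multiset.singleton_bind, Multiset.map_singleton, Multiset.singleton_inj, List.cons.injEq,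
      true_and]
    exact ⟨by ring, by ring, trivial⟩
  · simp only [X, if_true, run_cons, stp_zero, stp_one, stp_two, run_nil_bind,
      loc, Multiset.singleton_bind, Multiset.map_singleton, Multiset.singleton_inj, List.cons.injEq,
      and_true]
    exact ⟨by ring, by ring⟩

theorem lc_passR (p : Bool) (a b c d : ZMod N) (r : List (ZMod N)) :
    run N [X p 1, X p 0, X (!p) 2, X (!p) 1] (a :: b :: c :: d :: r) =
      {if p then (c - 2 * (b - a)) :: d :: (2 * d - a) :: (2 * d - b) :: r
        else c :: (d + 2 * (b - a)) :: (2 * c - a) :: (2 * c - b) :: r} := by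
  cases p
  · simp only [X, Bool.not_false, Bool.false_eq_true, if_false, if_true, run_cons, stp_zero,
      stp_one, stp_two, run_nil_bind,
      loc, Multiset.singleton_bind, Multiset.map_singleton, Multiset.singleton_inj, List.cons.injEq,
      and_true, true_and]
    ring
  · simp only [X, Bool.not_true, Bool.false_eq_true, if_false, if_true, run_cons, stp_zero,
      stp_one, stp_two, run_nil_bind,
      loc, Multiset.singleton_bind, Multiset.map_singleton, Multiset.singleton_inj, List.cons.injEq,
      and_true, true_and]
    ring

theorem lc_passL (p : Bool) (a b c d : ZMod N) (r : List (ZMod N)) :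
    run N [X p 1, X p 2, X (!p) 0, X (!p) 1] (a :: b :: c :: d :: r) =
      {if p then (2 * b - c) :: (2 * b - d) :: (a - 2 * (d - c)) :: b :: r
        else (2 * a - c) :: (2 * a - d) :: a :: (b + 2 * (d - c)) :: r} := by
  cases p
  · simp only [X, Bool.not_false, Bool.false_eq_true, if_false, if_true, run_cons, stp_zero,
      stp_one, stp_two, run_nil_bind,
      loc, Multiset.singleton_bind, Multiset.map_singleton, Multiset.singleton_inj, List.cons.injEq,
      and_true, true_and]
    ring
  · simp only [X, Bool.not_true, Bool.false_eq_true, if_false, if_true, run_cons, stp_zero,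
      stp_one, stp_two, run_nil_bind,
      loc, Multiset.singleton_bind, Multiset.map_singleton, Multiset.singleton_inj, List.cons.injEq,
      and_true, true_and]
    ring

omit [NeZero N] in
theorem split0 (st : List (ZMod N × ZMod N)) (i : ℕ) (h : i ≤ st.length) :
    ∃ x y, st = x ++ y ∧ x.length = i :=
  ⟨st.take i, st.drop i, (List.take_append_drop i st).symm, by rw [List.length_take]; omega⟩

omit [NeZero N] in
theorem split1 (st : List (ZMod N × ZMod N)) (i : ℕ) (h : i + 1 ≤ st.length) :
    ∃ x a b y, st = x ++ (a, b) :: y ∧ x.length = i := by
  obtain ⟨x, y, rfl, hx⟩ := split0 st i (by omega)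
  rw [List.length_append] at h
  match y, h with
  | (a, b) :: y, _ => exact ⟨x, a, b, y, rfl, hx⟩
  | [], h => simp at h; omega

omit [NeZero N] in
theorem split2 (st : List (ZMod N × ZMod N)) (i : ℕ) (h : i + 2 ≤ st.length) :
    ∃ x a b c d y, st = x ++ (a, b) :: (c, d) :: y ∧ x.length = i := by
  obtain ⟨x, y, rfl, hx⟩ := split0 st i (by omega)
  rw [List.length_append] at h
  match y, h with
  | (a, b) :: (c, d) :: y, _ => exact ⟨x, a, b, c, d, y, rfl, hx⟩
  | [_], h => simp at h; omega
  | [], h => simp at h; omega

theorem run_bd (s : Bd) (n m : ℕ) (h : bt s n = some m) (st : List (ZMod N × ZMod N))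
    (hst : st.length = n + 1) :
    run N (up (bd s)) (fl st) = (bst N s st).map (fun t => fl t.2.2) ∧
      ∀ t ∈ bst N s st, t.2.2.length = m + 1 := by
  cases s with
  | birth j =>
    simp only [bt] at h
    split_ifs at h with h1
    simp only [Option.some.injEq] at h
    subst h
    obtain ⟨x, y, rfl, hx⟩ := split0 st (j + 1) (by omega)
    rw [List.length_append] at hst
    rw [fl_append, run_at2 x [⟨.cup, 0⟩] (fl y) _ (by simp [up, bd, fl_length, hx]; omega)]
    simp only [bst, List.take_left' hx, List.drop_left' hx, run_cons, stp_zero, run_nil_bind, loc,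
      Multiset.map_map, Function.comp_def, fl_append, fl_cons, true_and]
    intro t ht
    obtain ⟨c, _, rfl⟩ := Multiset.mem_map.1 ht
    simp only [List.length_append, List.length_cons]
    omega
  | death j =>
    simp only [bt] at h
    split_ifs at h with h1
    simp only [Option.some.injEq] at h
    subst h
    obtain ⟨x, a, b, y, rfl, hx⟩ := split1 st (j + 1) (by omega)
    simp only [List.length_append, List.length_cons] at hst
    rw [fl_append, run_at2 x [⟨.cap, 0⟩] (fl ((a, b) :: y)) _
      (by simp [up, bd, fl_length, hx]; omega)]
    simp only [bst, List.take_left' hx, List.drop_left' hx, run_cons, stp_zero, run_nil_bind, loc,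
      fl_cons]
    split_ifs with hab
    · simp only [Multiset.map_singleton, fl_append, Multiset.mem_singleton, forall_eq,
        List.length_append, true_and]
      omega
    · simp
  | split j =>
    simp only [bt] at h
    split_ifs at h with h1
    simp only [Option.some.injEq] at h
    subst h
    obtain ⟨x, a, b, y, rfl, hx⟩ := split1 st j (by omega)
    simp only [List.length_append, List.length_cons] at hst
    rw [fl_append, run_at2 x [⟨.cup, 1⟩] (fl ((a, b) :: y)) _
      (by simp [up, bd, fl_length, hx]; omega)]
    simp only [bst, List.take_left' hx, List.drop_left' hx, run_cons, stp_one, run_nil_bind, loc,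
      Multiset.map_map, Function.comp_def, fl_append, fl_cons, true_and]
    intro t ht
    obtain ⟨c, _, rfl⟩ := Multiset.mem_map.1 ht
    simp only [List.length_append, List.length_cons]
    omega
  | merge j =>
    simp only [bt] at h
    split_ifs at h with h1
    simp only [Option.some.injEq] at h
    subst h
    obtain ⟨x, a, b, c, d, y, rfl, hx⟩ := split2 st j (by omega)
    simp only [List.length_append, List.length_cons] at hst
    rw [fl_append, run_at2 x [⟨.cap, 1⟩] (fl ((a, b) :: (c, d) :: y)) _
      (by simp [up, bd, fl_length, hx]; omega)]
    simp only [bst, List.take_left' hx, List.drop_left' hx, run_cons, stp_one, run_nil_bind, loc,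
      fl_cons]
    split_ifs with hab
    · simp only [Multiset.map_singleton, fl_append, fl_cons, Multiset.mem_singleton, forall_eq,
        List.length_append, List.length_cons, true_and]
      omega
    · simp
  | twist p j =>
    simp only [bt] at h
    split_ifs at h with h1
    simp only [Option.some.injEq] at h
    subst h
    obtain ⟨x, a, b, y, rfl, hx⟩ := split1 st (j + 1) (by omega)
    simp only [List.length_append, List.length_cons] at hst
    rw [fl_append, run_at2 x [X p 0] (fl ((a, b) :: y)) _
      (by simp [up, bd, X, fl_length, hx]; omega)]
    simp only [bst, List.take_left' hx, List.drop_left' hx]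
    cases p
    · simp only [X, Bool.false_eq_true, if_false, run_cons, stp_zero, run_nil_bind, loc, fl_cons,
        Multiset.map_singleton, fl_append, Multiset.mem_singleton, forall_eq,
        List.length_append, List.length_cons, true_and]
      omega
    · simp only [X, if_true, run_cons, stp_zero, run_nil_bind, loc, fl_cons,
        Multiset.map_singleton, fl_append, Multiset.mem_singleton, forall_eq,
        List.length_append, List.length_cons, true_and]
      omega
  | cross p j =>
    simp only [bt] at h
    split_ifs at h with h1
    simp only [Option.some.injEq] at h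
    subst h
    obtain ⟨x, a, b, c, d, y, rfl, hx⟩ := split2 st (j + 1) (by omega)
    simp only [List.length_append, List.length_cons] at hst
    rw [fl_append, run_at2 x [X p 1, X p 0, X p 2, X p 1] (fl ((a, b) :: (c, d) :: y)) _
      (by simp [up, bd, X, fl_length, hx]; omega), fl_cons, fl_cons, lc_cross]
    simp only [bst, List.take_left' hx, List.drop_left' hx, Multiset.map_singleton,
      Multiset.mem_singleton, forall_eq]
    cases p
    · simp only [Bool.false_eq_true, if_false, fl_cons, fl_append, 
        List.length_append, List.length_cons, true_and]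
      omega
    · simp only [if_true, fl_cons, fl_append,
        List.length_append, List.length_cons, true_and]
      omega
  | passR p j =>
    simp only [bt] at h
    split_ifs at h with h1
    simp only [Option.some.injEq] at h
    subst h
    obtain ⟨x, a, b, c, d, y, rfl, hx⟩ := split2 st (j + 1) (by omega)
    simp only [List.length_append, List.length_cons] at hst
    rw [fl_append, run_at2 x [X p 1, X p 0, X (!p) 2, X (!p) 1] (fl ((a, b) :: (c, d) :: y)) _
      (by simp [up, bd, X, fl_length, hx]; omega), fl_cons, fl_cons, lc_passR]
    simp only [bst, List.take_left' hx, List.drop_left' hx, Multiset.map_singleton,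
      Multiset.mem_singleton, forall_eq]
    cases p
    · simp only [Bool.false_eq_true, if_false, fl_cons, fl_append, 
        List.length_append, List.length_cons, true_and]
      omega
    · simp only [if_true, fl_cons, fl_append,
        List.length_append, List.length_cons, true_and]
      omega
  | passL p j =>
    simp only [bt] at h
    split_ifs at h with h1
    simp only [Option.some.injEq] at h
    subst h
    obtain ⟨x, a, b, c, d, y, rfl, hx⟩ := split2 st (j + 1) (by omega)
    simp only [List.length_append, List.length_cons] at hst
    rw [fl_append, run_at2 x [X p 1, X p 2, X (!p) 0, X (!p) 1] (fl ((a, b) :: (c, d) :: y)) _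
      (by simp [up, bd, X, fl_length, hx]; omega), fl_cons, fl_cons, lc_passL]
    simp only [bst, List.take_left' hx, List.drop_left' hx, Multiset.map_singleton,
      Multiset.mem_singleton, forall_eq]
    cases p
    · simp only [Bool.false_eq_true, if_false, fl_cons, fl_append, 
        List.length_append, List.length_cons, true_and]
      omega
    · simp only [if_true, fl_cons, fl_append,
        List.length_append, List.length_cons, true_and]
      omega

theorem up_append (v w : Wd) : up (v ++ w) = up v ++ up w := by simp [up]

theorem card_brun (S : List Bd) (n m : ℕ) (h : bty S n = some m) (st : List (ZMod N × ZMod N))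
    (hst : st.length = n + 1) :
    Multiset.card (run N (up (bdw S)) (fl st)) = Multiset.card (brun N S st) := by
  induction S generalizing n st with
  | nil => simp [bdw_nil, up, run_nil, brun]
  | cons s S ih =>
    simp only [bty] at h
    cases h1 : bt s n with
    | none => rw [h1] at h; simp at h
    | some q =>
      rw [h1] at h
      obtain ⟨h2, h3⟩ := run_bd s n q h1 st hst
      rw [bdw_cons, up_append, run_append, h2, brun, Multiset.bind_map, Multiset.card_bind,
        Multiset.card_bind]
      congr 1
      refine Multiset.map_congr rfl fun t ht => ?_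
      simp only [Function.comp_apply, Multiset.card_map]
      exact ih q h t.2.2 (h3 t ht)

/-- the number of colourings of the boundary of a ribbon surface -/
theorem col_bdw (S : List Bd) (h : bty S 0 = some 0) :
    col N (bdw S) = Multiset.card (brun N S [(0, 0)]) := by
  rw [← card_brun S 0 0 h [(0, 0)] rfl]
  have := run_shift (N := N) (bdw S) [0] [0]
  have h2 : up (bdw S) = (bdw S).map (fun s => (⟨s.k, ([0] : List (ZMod N)).length + s.i⟩ : Sl)) :=
    rfl
  rw [h2, fl_cons, fl_nil]
  have h3 : ([0, 0] : List (ZMod N)) = [0] ++ [0] := rfl
  rw [h3, this, Multiset.card_map]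
  rfl

end Pool.Agent.H86.RB
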