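import Pool.Agent.H86.RB.Loc

/-!
# Invariance of the number of colourings under isotopy
-/

set_option autoImplicit false

namespace Pool.Agent.H86.RB

variable {N : ℕ} [NeZero N]

/-- a local move of pieces at height `0`, moved to the right -/
theorem run_at (x : List (ZMod N)) {v w : Wd} {r : List (ZMod N)} (h : run N v r = run N w r) :
    run N (v.map (fun s => (⟨s.k, x.length + s.i⟩ : Sl))) (x ++ r) =
      run N (w.map (fun s => (⟨s.k, x.length + s.i⟩ : Sl))) (x ++ r) := by
  rw [run_shift, run_shift, h]

omit [NeZero N] in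
theorem exists_app (L : List (ZMod N)) (i : ℕ) (h : i ≤ L.length) :
    ∃ x r, L = x ++ r ∧ x.length = i :=
  ⟨L.take i, L.drop i, (List.take_append_drop i L).symm, by rw [List.length_take]; omega⟩

omit [NeZero N] in
theorem exists_app1 (L : List (ZMod N)) (i : ℕ) (h : i + 1 ≤ L.length) :
    ∃ x a r, L = x ++ a :: r ∧ x.length = i := by
  obtain ⟨x, r, rfl, hx⟩ := exists_app L i (by omega)
  rw [List.length_append] at h
  match r, h with
  | a :: r, _ => exact ⟨x, a, r, rfl, hx⟩
  | [], h => simp at h; omega

omit [NeZero N] in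
theorem exists_app2 (L : List (ZMod N)) (i : ℕ) (h : i + 2 ≤ L.length) :
    ∃ x a b r, L = x ++ a :: b :: r ∧ x.length = i := by
  obtain ⟨x, r, rfl, hx⟩ := exists_app L i (by omega)
  rw [List.length_append] at h
  match r, h with
  | a :: b :: r, _ => exact ⟨x, a, b, r, rfl, hx⟩
  | [a], h => simp at h; omega
  | [], h => simp at h; omega

omit [NeZero N] in
theorem exists_app3 (L : List (ZMod N)) (i : ℕ) (h : i + 3 ≤ L.length) :
    ∃ x a b c r, L = x ++ a :: b :: c :: r ∧ x.length = i := by
  obtain ⟨x, r, rfl, hx⟩ := exists_app L i (by omega)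
  rw [List.length_append] at h
  match r, h with
  | a :: b :: c :: r, _ => exact ⟨x, a, b, c, r, rfl, hx⟩
  | [a, b], h => simp at h; omega
  | [a], h => simp at h; omega
  | [], h => simp at h; omega

theorem run_mv {v w : Wd} (h : Mv v w) (L : List (ZMod N)) {m m' : ℕ}
    (hv : ty v L.length = some m) (hw : ty w L.length = some m') : run N v L = run N w L := by
  cases h with
  | comm k l i m =>
    refine run_comm k l i m L ?_
    simp only [ty_cons, ty_nil] at hw
    split_ifs at hw with h1 h2
    exact h1
  | zig i =>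
    simp only [ty_cons, ty_nil, Kd.nin, Kd.nout] at hv
    split_ifs at hv with h1 h2
    obtain ⟨x, a, r, rfl, rfl⟩ := exists_app1 L i (by omega)
    exact run_at (w := []) x (loc_zig a r)
  | zag i =>
    simp only [ty_cons, ty_nil, Kd.nin, Kd.nout] at hv
    split_ifs at hv with h1 h2
    obtain ⟨x, a, r, rfl, rfl⟩ := exists_app1 L i (by omega)
    exact run_at (w := []) x (loc_zag a r)
  | r1a i =>
    simp only [ty_cons, ty_nil, Kd.nin, Kd.nout] at hv
    split_ifs at hv with h1 h2
    obtain ⟨x, a, b, r, rfl, rfl⟩ := exists_app2 L i (by omega)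
    exact run_at x (loc_r1a a b r)
  | r1b i =>
    simp only [ty_cons, ty_nil, Kd.nin, Kd.nout] at hv
    split_ifs at hv with h1 h2
    obtain ⟨x, a, b, r, rfl, rfl⟩ := exists_app2 L i (by omega)
    exact run_at x (loc_r1b a b r)
  | r1c i =>
    simp only [ty_cons, ty_nil, Kd.nin, Kd.nout] at hv
    split_ifs at hv with h1 h2
    obtain ⟨x, r, rfl, rfl⟩ := exists_app L i (by omega)
    exact run_at x (loc_r1c r)
  | r1d i =>
    simp only [ty_cons, ty_nil, Kd.nin, Kd.nout] at hv
    split_ifs at hv with h1 h2
    obtain ⟨x, r, rfl, rfl⟩ := exists_app L i (by omega)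
    exact run_at x (loc_r1d r)
  | r2a i =>
    simp only [ty_cons, ty_nil, Kd.nin, Kd.nout] at hv
    split_ifs at hv with h1 h2
    obtain ⟨x, a, b, r, rfl, rfl⟩ := exists_app2 L i (by omega)
    exact run_at (w := []) x (loc_r2a a b r)
  | r2b i =>
    simp only [ty_cons, ty_nil, Kd.nin, Kd.nout] at hv
    split_ifs at hv with h1 h2
    obtain ⟨x, a, b, r, rfl, rfl⟩ := exists_app2 L i (by omega)
    exact run_at (w := []) x (loc_r2b a b r)
  | r3 i =>
    simp only [ty_cons, ty_nil, Kd.nin, Kd.nout] at hv
    split_ifs at hv with h1 h2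
    obtain ⟨x, a, b, c, r, rfl, rfl⟩ := exists_app3 L i (by omega)
    exact run_at x (loc_r3 a b c r)
  | sla i =>
    simp only [ty_cons, ty_nil, Kd.nin, Kd.nout] at hv
    split_ifs at hv with h1 h2
    obtain ⟨x, a, b, c, r, rfl, rfl⟩ := exists_app3 L i (by omega)
    exact run_at x (loc_sla a b c r)
  | slb i =>
    simp only [ty_cons, ty_nil, Kd.nin, Kd.nout] at hv
    split_ifs at hv with h1 h2
    obtain ⟨x, a, b, c, r, rfl, rfl⟩ := exists_app3 L i (by omega)
    exact run_at x (loc_slb a b c r)
  | slc i =>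
    simp only [ty_cons, ty_nil, Kd.nin, Kd.nout] at hv
    split_ifs at hv with h1 h2
    obtain ⟨x, a, r, rfl, rfl⟩ := exists_app1 L i (by omega)
    exact run_at x (loc_slc a r)
  | sld i =>
    simp only [ty_cons, ty_nil, Kd.nin, Kd.nout] at hv
    split_ifs at hv with h1 h2
    obtain ⟨x, a, r, rfl, rfl⟩ := exists_app1 L i (by omega)
    exact run_at x (loc_sld a r)

theorem run_step {v w : Wd} (h : Step v w) {m m' : ℕ} (L : List (ZMod N))
    (hv : ty v L.length = some m) (hw : ty w L.length = some m') : run N v L = run N w L := by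
  obtain ⟨a, b, x, y, hxy, rfl, rfl⟩ := h
  rw [ty_append, ty_append] at hv hw
  cases ha : ty a L.length with
  | none => rw [ha] at hv; simp at hv
  | some n =>
    rw [ha] at hv hw
    simp only [Option.bind_some] at hv hw
    have hx : ∃ p, ty x n = some p := by
      cases h1 : ty x n with
      | none => rw [h1] at hv; simp at hv
      | some p => exact ⟨p, rfl⟩
    have hy : ∃ p, ty y n = some p := by
      cases h1 : ty y n with
      | none => rw [h1] at hw; simp at hw
      | some p => exact ⟨p, rfl⟩
    obtain ⟨p, hp⟩ := hx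
    obtain ⟨p', hp'⟩ := hy
    rw [run_append, run_append, run_append, run_append]
    congr 1
    refine Multiset.bind_congr fun l hl => ?_
    have hlen := run_len a L n ha l hl
    exact run_mv hxy l (by rw [hlen]; exact hp) (by rw [hlen]; exact hp')

theorem col_adj {v w : Wd} (h : Adj v w) : col N v = col N w := by
  obtain ⟨hv, hw, h⟩ := h
  have e : ([0] : List (ZMod N)).length = 1 := rfl
  unfold col
  rcases h with h | h
  · rw [run_step h [0] (by rw [e]; exact hv) (by rw [e]; exact hw)]
  · rw [run_step h [0] (by rw [e]; exact hw) (by rw [e]; exact hv)]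

theorem col_iso {v w : Wd} (h : Iso v w) : col N v = col N w := by
  induction h with
  | refl => rfl
  | tail _ h ih => rw [ih, col_adj h]

end Pool.Agent.H86.RB
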