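import Pool.Agent.H86.RB.OddD

/-!
# The kernel modulo an odd prime has dimension at most half the number of passes
-/

set_option autoImplicit false

namespace Pool.Agent.H86.RB

open Module

variable {q m : ℕ} [Fact q.Prime]

theorem ext_add (w w' : Fin m → ZMod q) (v : ℕ) : ext (w + w') v = ext w v + ext w' v := by
  unfold ext
  split_ifs <;> simp

theorem ext_smul (c : ZMod q) (w : Fin m → ZMod q) (v : ℕ) : ext (c • w) v = c * ext w v := by
  unfold ext
  split_ifs <;> simp

theorem val_ext_add (w w' : Fin m → ZMod q) (r : Row) :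
    r.val (ext (w + w')) = r.val (ext w) + r.val (ext w') := by
  cases r <;> simp only [Row.val, ext_add] <;> ring

theorem val_ext_smul (c : ZMod q) (w : Fin m → ZMod q) (r : Row) :
    r.val (ext (c • w)) = c * r.val (ext w) := by
  cases r <;> simp only [Row.val, ext_smul] <;> ring

theorem ext_z (v : ℕ) : ext (0 : Fin m → ZMod q) v = 0 := by
  unfold ext
  split_ifs <;> simp

/-- vectors which satisfy the rows in `P` and vanish on `A` -/
def Sol (q m : ℕ) [Fact q.Prime] (P : Set Row) (A : Set ℕ) : Submodule (ZMod q) (Fin m → ZMod q) where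
  carrier := {w | (∀ r ∈ P, r.val (ext w) = 0) ∧ ∀ v ∈ A, ext w v = 0}
  zero_mem' := by
    refine ⟨fun r _ => ?_, fun v _ => ext_z v⟩
    cases r <;> simp only [Row.val, ext_z] <;> ring
  add_mem' := by
    rintro w w' ⟨h1, h2⟩ ⟨h3, h4⟩
    refine ⟨fun r hr => ?_, fun v hv => ?_⟩
    · rw [val_ext_add, h1 r hr, h3 r hr, add_zero]
    · rw [ext_add, h2 v hv, h4 v hv, add_zero]
  smul_mem' := by
    rintro c w ⟨h1, h2⟩
    refine ⟨fun r hr => ?_, fun v hv => ?_⟩
    · rw [val_ext_smul, h1 r hr, mul_zero]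
    · rw [ext_smul, h2 v hv, mul_zero]

theorem mem_sol {P : Set Row} {A : Set ℕ} {w : Fin m → ZMod q} :
    w ∈ Sol q m P A ↔ (∀ r ∈ P, r.val (ext w) = 0) ∧ ∀ v ∈ A, ext w v = 0 := Iff.rfl

/-- the value at a name as a linear map -/
def evl (q m : ℕ) [Fact q.Prime] (v : ℕ) : (Fin m → ZMod q) →ₗ[ZMod q] ZMod q where
  toFun w := ext w v
  map_add' w w' := ext_add w w' v
  map_smul' c w := ext_smul c w v

/-- a linear map which is onto on a subspace, and vanishes on a smaller one -/
theorem drop_dim {W E : Type*} [AddCommGroup W] [Module (ZMod q) W] [FiniteDimensional (ZMod q) W]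
    [AddCommGroup E] [Module (ZMod q) E] [FiniteDimensional (ZMod q) E]
    (U U' : Submodule (ZMod q) W) (L : W →ₗ[ZMod q] E) (hle : U' ≤ U) (h0 : ∀ w ∈ U', L w = 0)
    (hs : ∀ e : E, ∃ w ∈ U, L w = e) :
    finrank (ZMod q) U' + finrank (ZMod q) E ≤ finrank (ZMod q) U := by
  have h1 := LinearMap.finrank_range_add_finrank_ker (L.domRestrict U)
  have h2 : finrank (ZMod q) (LinearMap.range (L.domRestrict U)) = finrank (ZMod q) E := by
    have : LinearMap.range (L.domRestrict U) = ⊤ := by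
      rw [LinearMap.range_eq_top]
      intro e
      obtain ⟨w, hw, he⟩ := hs e
      exact ⟨⟨w, hw⟩, he⟩
    rw [this, finrank_top]
  have h3 : finrank (ZMod q) U' ≤ finrank (ZMod q) (LinearMap.ker (L.domRestrict U)) := by
    let g : U' →ₗ[ZMod q] (LinearMap.ker (L.domRestrict U)) :=
      { toFun := fun w => ⟨⟨w.1, hle w.2⟩, h0 w.1 w.2⟩
        map_add' := fun w w' => rfl
        map_smul' := fun c w => rfl }
    apply LinearMap.finrank_le_finrank_of_injective (f := g)
    intro w w' h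
    apply Subtype.ext
    have := congrArg (fun z => (z.1.1 : W)) h
    exact this
  omega

/-- a linear form on a subspace: the kernel has codimension at most one -/
theorem drop_one {W : Type*} [AddCommGroup W] [Module (ZMod q) W] [FiniteDimensional (ZMod q) W]
    (U U' : Submodule (ZMod q) W) (L : W →ₗ[ZMod q] ZMod q) (hle : ∀ w ∈ U, L w = 0 → w ∈ U') :
    finrank (ZMod q) U ≤ finrank (ZMod q) U' + 1 := by
  have h1 := LinearMap.finrank_range_add_finrank_ker (L.domRestrict U)
  have h2 : finrank (ZMod q) (LinearMap.range (L.domRestrict U)) ≤ 1 := by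
    have := Submodule.finrank_le (LinearMap.range (L.domRestrict U))
    rwa [finrank_self] at this
  have h3 : finrank (ZMod q) (LinearMap.ker (L.domRestrict U)) ≤ finrank (ZMod q) U' := by
    let g : (LinearMap.ker (L.domRestrict U)) →ₗ[ZMod q] U' :=
      { toFun := fun w => ⟨w.1.1, hle w.1.1 w.1.2 w.2⟩
        map_add' := fun w w' => rfl
        map_smul' := fun c w => rfl }
    apply LinearMap.finrank_le_finrank_of_injective (f := g)
    intro w w' h
    apply Subtype.ext
    apply Subtype.ext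
    have := congrArg (fun z => (z.1 : W)) h
    exact this
  omega

theorem ext_of (u : ℕ → ZMod q) (h0 : u 0 = 0) (hgt : ∀ v, m < v → u v = 0) :
    ext (fun j : Fin m => u (j + 1)) = u := by
  funext v
  unfold ext
  split_ifs with hv
  · simp only
    rw [Nat.sub_add_cancel (by omega)]
  · by_cases hv0 : v = 0
    · rw [hv0, h0]
    · exact (hgt v (by omega)).symm

/-- all rows -/
def Ka (q m : ℕ) [Fact q.Prime] (R : List Row) (A : Set ℕ) : Submodule (ZMod q) (Fin m → ZMod q) :=
  Sol q m {r | r ∈ R} A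

/-- the merges only -/
def Ua (q m : ℕ) [Fact q.Prime] (R : List Row) (A : Set ℕ) : Submodule (ZMod q) (Fin m → ZMod q) :=
  Sol q m {r | r ∈ R ∧ r.isps = false} A

theorem ka_le_ua (R : List Row) (A : Set ℕ) : Ka q m R A ≤ Ua q m R A := by
  rintro w ⟨h1, h2⟩
  exact ⟨fun r hr => h1 r hr.1, h2⟩

/-- closed sets of names -/
def Clo (q m : ℕ) [Fact q.Prime] (R : List Row) (A : Set ℕ) : Prop :=
  0 ∈ A ∧ ∀ v, v ≤ m → v ∉ A → ∃ w ∈ Ka q m R A, ext w v ≠ 0

theorem clo_mg {R : List Row} {A : Set ℕ} (hA : Clo q m R A)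
    (hR : ∀ r ∈ R, r.x ≤ m ∧ r.y ≤ m ∧ r.z ≤ m) {a b : ℕ} (hr : Row.mg a b ∈ R) :
    a ∈ A ↔ b ∈ A := by
  have h1 : ∀ w ∈ Ka q m R A, ext w a = ext w b := by
    intro w hw
    have := hw.1 _ hr
    simpa only [Row.val] using sub_eq_zero.1 this
  have h2 := hR _ hr
  simp only [Row.x, Row.y, Row.z] at h2
  constructor
  · intro ha
    by_contra hb
    obtain ⟨w, hw, hne⟩ := hA.2 b h2.2.1 hb
    apply hne
    rw [← h1 w hw]
    exact hw.2 a ha
  · intro hb
    by_contra ha
    obtain ⟨w, hw, hne⟩ := hA.2 a h2.1 ha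
    apply hne
    rw [h1 w hw]
    exact hw.2 b hb

theorem clo_step (hq : q ≠ 2) {R : List Row} {A : Set ℕ} (hA : Clo q m R A)
    (hR : ∀ r ∈ R, r.x ≤ m ∧ r.y ≤ m ∧ r.z ≤ m)
    (hC : ∀ B : Set ℕ, 0 ∈ B → (∀ r ∈ R, (r.x ∈ B ↔ r.y ∈ B)) → ∀ v ≤ m, v ∈ B)
    (hne : Ka q m R A ≠ ⊥) :
    ∃ A', Clo q m R A' ∧ finrank (ZMod q) (Ka q m R A) ≤ finrank (ZMod q) (Ka q m R A') + 1 ∧
      finrank (ZMod q) (Ka q m R A') < finrank (ZMod q) (Ka q m R A) ∧
      finrank (ZMod q) (Ua q m R A') + 2 ≤ finrank (ZMod q) (Ua q m R A) := by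
  classical
  have h2 : (2 : ZMod q) ≠ 0 := by
    intro h
    have h3 : ((2 : ℕ) : ZMod q) = 0 := by exact_mod_cast h
    rw [ZMod.natCast_eq_zero_iff] at h3
    have h4 := Nat.le_of_dvd (by norm_num) h3
    have h5 := (Fact.out : q.Prime).two_le
    omega
  -- an edge which leaves `A`
  have h1 : ∃ r ∈ R, ¬ (r.x ∈ A ↔ r.y ∈ A) := by
    by_contra hcon
    push Not at hcon
    have h3 := hC A hA.1 fun r hr => hcon r hr
    apply hne
    rw [Submodule.eq_bot_iff]
    intro w hw
    funext j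
    have h4 := hw.2 ((j : ℕ) + 1) (h3 _ j.2)
    rwa [ext_succ] at h4
  obtain ⟨r, hr, hxy⟩ := h1
  have hps : ∃ x y b : ℕ, x ∈ A ∧ y ∉ A ∧ y ≤ m ∧ ∀ w ∈ Ka q m R A, ext w x + ext w y = 2 * ext w b := by
    cases r with
    | mg a b => exact absurd (clo_mg hA hR hr) hxy
    | ps a n b =>
      have h3 := hR _ hr
      simp only [Row.x, Row.y, Row.z] at h3 hxy
      have h4 : ∀ w ∈ Ka q m R A, ext w a + ext w n = 2 * ext w b := by
        intro w hw
        have := hw.1 _ hr
        simpa only [Row.val] using sub_eq_zero.1 this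
      by_cases ha : a ∈ A
      · refine ⟨a, n, b, ha, ?_, h3.2.1, h4⟩
        intro hn
        exact hxy ⟨fun _ => hn, fun _ => ha⟩
      · refine ⟨n, a, b, ?_, ha, h3.1, fun w hw => by rw [add_comm]; exact h4 w hw⟩
        by_contra hn
        exact hxy ⟨fun h => absurd h ha, fun h => absurd h hn⟩
  obtain ⟨x, y, b, hx, hy, hym, hrow⟩ := hps
  obtain ⟨w0, hw0, hw0y⟩ := hA.2 y hym hy
  have hw0x : ext w0 x = 0 := hw0.2 x hx
  have hw0r := hrow w0 hw0
  rw [hw0x, zero_add] at hw0r
  have hw0b : ext w0 b ≠ 0 := by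
    intro h
    apply hw0y
    rw [hw0r, h, mul_zero]
  -- the new closed set
  set A' : Set ℕ := {v | ∀ w ∈ Ka q m R A, ext w b = 0 → ext w v = 0} with hA'
  have hAA' : A ⊆ A' := fun v hv w hw _ => hw.2 v hv
  have hbA' : b ∈ A' := fun w _ h => h
  have hyA' : y ∈ A' := by
    intro w hw h
    have h3 := hrow w hw
    rw [hw.2 x hx, h, zero_add, mul_zero] at h3
    exact h3
  have hKA' : ∀ w, w ∈ Ka q m R A' ↔ w ∈ Ka q m R A ∧ ext w b = 0 := by
    intro w
    constructor
    · rintro ⟨h3, h4⟩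
      exact ⟨⟨h3, fun v hv => h4 v (hAA' hv)⟩, h4 b hbA'⟩
    · rintro ⟨h3, h4⟩
      exact ⟨h3.1, fun v hv => hv w h3 h4⟩
  refine ⟨A', ⟨hAA' hA.1, ?_⟩, ?_, ?_, ?_⟩
  · intro v _ hv
    have : ∃ w ∈ Ka q m R A, ext w b = 0 ∧ ext w v ≠ 0 := by
      by_contra hcon
      push Not at hcon
      exact hv hcon
    obtain ⟨w, h3, h4, h5⟩ := this
    exact ⟨w, (hKA' w).2 ⟨h3, h4⟩, h5⟩
  · exact drop_one _ _ (evl q m b) fun w hw h => (hKA' w).2 ⟨hw, h⟩
  · apply Submodule.finrank_lt_finrank_of_lt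
    refine lt_of_le_of_ne (fun w hw => ((hKA' w).1 hw).1) ?_
    intro he
    rw [← he] at hw0
    exact hw0b ((hKA' w0).1 hw0).2
  · -- the class of `y` under the merges
    set C : Set ℕ := {v | Relation.EqvGen (fun a b => Row.mg a b ∈ R) y v} with hCd
    have hCA : ∀ u v, Relation.EqvGen (fun a b => Row.mg a b ∈ R) u v → (u ∈ A ↔ v ∈ A) := by
      intro u v h
      induction h with
      | rel a b h => exact clo_mg hA hR h
      | refl a => exact Iff.rfl
      | symm a b _ ih => exact ih.symm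
      | trans a b c _ _ ih1 ih2 => exact ih1.trans ih2
    have hCn : ∀ v ∈ C, v ∉ A := fun v hv hvA => hy ((hCA y v hv).2 hvA)
    set u : ℕ → ZMod q := fun v => if v ∈ C ∧ v ≤ m then 1 else 0 with hu
    set w1 : Fin m → ZMod q := fun j => u (j + 1) with hw1
    have hu0 : u 0 = 0 := by
      simp only [hu]
      rw [if_neg]
      rintro ⟨h3, _⟩
      exact hCn 0 h3 hA.1
    have hext : ext w1 = u := ext_of u hu0 fun v hv => by
      simp only [hu]
      rw [if_neg]
      rintro ⟨_, h3⟩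
      omega
    have hw1U : w1 ∈ Ua q m R A := by
      refine ⟨?_, ?_⟩
      · rintro r ⟨hr', hps⟩
        rw [hext]
        cases r with
        | mg a c =>
          have h3 := hR _ hr'
          simp only [Row.x, Row.y, Row.z] at h3
          simp only [Row.val, hu]
          have h4 : (a ∈ C ↔ c ∈ C) := by
            constructor
            · intro h
              exact Relation.EqvGen.trans _ _ _ h (Relation.EqvGen.rel _ _ hr')
            · intro h
              exact Relation.EqvGen.trans _ _ _ h (Relation.EqvGen.symm _ _ (Relation.EqvGen.rel _ _ hr'))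
          by_cases h5 : a ∈ C
          · rw [if_pos ⟨h5, h3.1⟩, if_pos ⟨h4.1 h5, h3.2.1⟩, sub_self]
          · rw [if_neg (fun h => h5 h.1), if_neg (fun h => h5 (h4.2 h.1)), sub_self]
        | ps a n c => simp [Row.isps] at hps
      · intro v hv
        rw [hext]
        simp only [hu]
        rw [if_neg]
        rintro ⟨h3, _⟩
        exact hCn v h3 hv
    have hw1y : ext w1 y = 1 := by
      rw [hext]
      simp only [hu]
      rw [if_pos ⟨Relation.EqvGen.refl y, hym⟩]
    have hw1b : ext w1 b = 0 ∨ ext w1 b = 1 := by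
      rw [hext]
      simp only [hu]
      split_ifs
      · exact Or.inr rfl
      · exact Or.inl rfl
    have hfin := drop_dim (q := q) (Ua q m R A) (Ua q m R A') ((evl q m b).prod (evl q m y))
      (fun w hw => ⟨hw.1, fun v hv => hw.2 v (hAA' hv)⟩)
      (fun w hw => Prod.ext (hw.2 b hbA') (hw.2 y hyA')) ?_
    · rw [Module.finrank_prod, finrank_self] at hfin
      exact hfin
    · rintro ⟨e1, e2⟩
      have hw0U : w0 ∈ Ua q m R A := ka_le_ua R A hw0
      set t := ext w0 b with ht
      rcases hw1b with hs | hs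
      · refine ⟨(e1 / t) • w0 + (e2 - 2 * e1) • w1,
          Submodule.add_mem _ (Submodule.smul_mem _ _ hw0U) (Submodule.smul_mem _ _ hw1U), ?_⟩
        apply Prod.ext
        · change ext _ b = e1
          rw [ext_add, ext_smul, ext_smul, hs, ← ht, mul_zero, add_zero]
          field_simp
        · change ext _ y = e2
          rw [ext_add, ext_smul, ext_smul, hw1y, hw0r]
          field_simp
          ring
      · refine ⟨((e2 - e1) / t) • w0 + (2 * e1 - e2) • w1,
          Submodule.add_mem _ (Submodule.smul_mem _ _ hw0U) (Submodule.smul_mem _ _ hw1U), ?_⟩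
        apply Prod.ext
        · change ext _ b = e1
          rw [ext_add, ext_smul, ext_smul, hs, ← ht]
          field_simp
          ring
        · change ext _ y = e2
          rw [ext_add, ext_smul, ext_smul, hw1y, hw0r]
          field_simp
          ring

theorem clo_half (hq : q ≠ 2) {R : List Row}
    (hR : ∀ r ∈ R, r.x ≤ m ∧ r.y ≤ m ∧ r.z ≤ m)
    (hC : ∀ B : Set ℕ, 0 ∈ B → (∀ r ∈ R, (r.x ∈ B ↔ r.y ∈ B)) → ∀ v ≤ m, v ∈ B) (n : ℕ) :
    ∀ A : Set ℕ, Clo q m R A → finrank (ZMod q) (Ka q m R A) ≤ n →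
      2 * finrank (ZMod q) (Ka q m R A) ≤ finrank (ZMod q) (Ua q m R A) := by
  induction n with
  | zero =>
    intro A _ hn
    omega
  | succ n ih =>
    intro A hA hn
    by_cases hne : Ka q m R A = ⊥
    · rw [hne, finrank_bot]
      omega
    · obtain ⟨A', h1, h2, h3, h4⟩ := clo_step hq hA hR hC hne
      have h5 := ih A' h1 (by omega)
      omega

/-- the space of the merges has dimension at most the number of passes -/
theorem ua_dim {R : List Row}
    (hC : ∀ B : Set ℕ, 0 ∈ B → (∀ r ∈ R, (r.x ∈ B ↔ r.y ∈ B)) → ∀ v ≤ m, v ∈ B) :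
    finrank (ZMod q) (Ua q m R ∅) ≤ R.countP Row.isps := by
  classical
  set Q := R.filter Row.isps with hQ
  have hlen : Q.length = R.countP Row.isps := (List.countP_eq_length_filter).symm
  let L : (Ua q m R ∅) →ₗ[ZMod q] (Fin Q.length → ZMod q) :=
    { toFun := fun w i => ext w.1 (Q[i]).x - ext w.1 (Q[i]).y
      map_add' := fun w w' => by
        funext i
        simp only [Submodule.coe_add, ext_add, Pi.add_apply]
        ring
      map_smul' := fun c w => by
        funext i
        simp only [Submodule.coe_smul, ext_smul, Pi.smul_apply, smul_eq_mul, RingHom.id_apply]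
        ring }
  have hinj : Function.Injective L := by
    rw [← LinearMap.ker_eq_bot, LinearMap.ker_eq_bot']
    intro w hw
    apply Subtype.ext
    have h1 := hC {v | ext w.1 v = 0} (ext_zero w.1) (by
      intro r hr
      simp only [Set.mem_ofPred_eq]
      have h2 : ext w.1 r.x = ext w.1 r.y := by
        by_cases hps : r.isps = true
        · have h3 : r ∈ Q := List.mem_filter.2 ⟨hr, hps⟩
          obtain ⟨i, hi, hri⟩ := List.mem_iff_getElem.1 h3
          have h4 := congrFun hw ⟨i, hi⟩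
          have h5 : ext w.1 (Q[i]).x - ext w.1 (Q[i]).y = 0 := h4
          rw [hri] at h5
          exact sub_eq_zero.1 h5
        · have h3 := w.2.1 r ⟨hr, by simpa using hps⟩
          cases r with
          | mg a b => exact sub_eq_zero.1 h3
          | ps a n b => simp [Row.isps] at hps
      rw [h2])
    funext j
    have h2 := h1 ((j : ℕ) + 1) j.2
    rw [Set.mem_ofPred_eq, ext_succ] at h2
    exact h2
  have h1 := LinearMap.finrank_le_finrank_of_injective hinj
  rwa [Module.finrank_fin_fun, hlen] at h1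

theorem ker_half (hq : q ≠ 2) {R : List Row}
    (hR : ∀ r ∈ R, r.x ≤ m ∧ r.y ≤ m ∧ r.z ≤ m)
    (hC : ∀ B : Set ℕ, 0 ∈ B → (∀ r ∈ R, (r.x ∈ B ↔ r.y ∈ B)) → ∀ v ≤ m, v ∈ B) :
    finrank (ZMod q) (Ka q m R ∅) ≤ R.countP Row.isps / 2 := by
  set A : Set ℕ := {v | ∀ w ∈ Ka q m R ∅, ext w v = 0} with hA
  have hK : Ka q m R A = Ka q m R ∅ := by
    apply le_antisymm
    · rintro w ⟨h1, _⟩
      exact ⟨h1, fun v hv => absurd hv (Set.notMem_empty v)⟩
    · intro w hw
      exact ⟨hw.1, fun v hv => hv w hw⟩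
  have hclo : Clo q m R A := by
    refine ⟨fun w _ => ext_zero w, fun v _ hv => ?_⟩
    rw [hK]
    by_contra hcon
    push Not at hcon
    exact hv hcon
  have h1 := clo_half hq hR hC _ A hclo le_rfl
  have h2 : finrank (ZMod q) (Ua q m R A) ≤ finrank (ZMod q) (Ua q m R ∅) := by
    apply Submodule.finrank_mono
    rintro w ⟨h3, _⟩
    exact ⟨h3, fun v hv => absurd hv (Set.notMem_empty v)⟩
  have h3 := ua_dim (q := q) hC
  rw [hK] at h1
  omega

theorem kf_half (hq : q ≠ 2) {R : List Row} (hm : R.length = m)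
    (hR : ∀ r ∈ R, r.x ≤ m ∧ r.y ≤ m ∧ r.z ≤ m)
    (hC : ∀ B : Set ℕ, 0 ∈ B → (∀ r ∈ R, (r.x ∈ B ↔ r.y ∈ B)) → ∀ v ≤ m, v ∈ B) [NeZero q] :
    (Kf q (Mt R m)).card ≤ q ^ (R.countP Row.isps / 2) := by
  classical
  have h1 : (Kf q (Mt R m)).card ≤ Nat.card (Ka q m R ∅) := by
    have e1 : (Kf q (Mt R m)).card = Nat.card {x // x ∈ Kf q (Mt R m)} := by
      rw [Nat.card_eq_fintype_card, Fintype.card_coe]
    rw [e1]
    refine Nat.card_le_card_of_injective (fun w : {x // x ∈ Kf q (Mt R m)} =>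
      (⟨w.1, fun r hr => kf_rows hm hR w.2 r hr, fun v hv => absurd hv (Set.notMem_empty v)⟩ :
        Ka q m R ∅)) ?_
    intro w w' h
    exact Subtype.ext (congrArg (fun z : Ka q m R ∅ => z.1) h)
  have h2 : Nat.card (Ka q m R ∅) = q ^ finrank (ZMod q) (Ka q m R ∅) := by
    rw [Module.natCard_eq_pow_finrank (K := ZMod q)]
    simp
  rw [h2] at h1
  exact h1.trans (Nat.pow_le_pow_right (Nat.pos_of_ne_zero (NeZero.ne q)) (ker_half hq hR hC))

end Pool.Agent.H86.RB
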