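import Pool.Agent.H86.RB.Inv
import Pool.Agent.H86.RB.Alt

/-!
# Composition of long knots and isotopy
-/

set_option autoImplicit false

namespace Pool.Agent.H86.RB

theorem step_right (u : Wd) {v w : Wd} (h : Step v w) : Step (v ++ u) (w ++ u) := by
  obtain ⟨a, b, x, y, hxy, rfl, rfl⟩ := h
  exact ⟨a, b ++ u, x, y, hxy, by simp, by simp⟩

theorem step_left (u : Wd) {v w : Wd} (h : Step v w) : Step (u ++ v) (u ++ w) := by
  obtain ⟨a, b, x, y, hxy, rfl, rfl⟩ := h
  exact ⟨u ++ a, b, x, y, hxy, by simp, by simp⟩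

theorem ty_app_one {v w : Wd} (hv : ty v 1 = some 1) (hw : ty w 1 = some 1) :
    ty (v ++ w) 1 = some 1 := by
  rw [ty_append, hv]
  exact hw

theorem adj_right {u : Wd} (hu : ty u 1 = some 1) {v w : Wd} (h : Adj v w) :
    Adj (v ++ u) (w ++ u) :=
  ⟨ty_app_one h.1 hu, ty_app_one h.2.1 hu, h.2.2.imp (step_right u) (step_right u)⟩

theorem adj_left {u : Wd} (hu : ty u 1 = some 1) {v w : Wd} (h : Adj v w) :
    Adj (u ++ v) (u ++ w) :=
  ⟨ty_app_one hu h.1, ty_app_one hu h.2.1, h.2.2.imp (step_left u) (step_left u)⟩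

theorem iso_append {K K' L L' : Wd} (hL : ty L 1 = some 1) (hK' : ty K' 1 = some 1)
    (h : Iso K K') (h' : Iso L L') : Iso (K ++ L) (K' ++ L') := by
  have h1 : Iso (K ++ L) (K' ++ L) := by
    unfold Iso at h ⊢
    exact Relation.ReflTransGen.lift (fun v : Wd => v ++ L) (fun a b hab => adj_right hL hab) K K' h
  have h2 : Iso (K' ++ L) (K' ++ L') := by
    unfold Iso at h' ⊢
    exact Relation.ReflTransGen.lift (fun v : Wd => K' ++ v) (fun a b hab => adj_left hK' hab) L L' h'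
  exact Relation.ReflTransGen.trans h1 h2

theorem kn_flatten (L : List Wd) (h : ∀ K ∈ L, Kn K) : Kn L.flatten := by
  refine ⟨ty_flatten L fun K hK => (h K hK).1, ?_⟩
  rw [col_flatten L fun K hK => (h K hK).1]
  apply List.prod_eq_one
  intro c hc
  obtain ⟨K, hK, rfl⟩ := List.mem_map.1 hc
  exact (h K hK).2

end Pool.Agent.H86.RB
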