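import Pool.Agent.H86.RB.Names
import Pool.Agent.H86.RB.Knots

/-!
# Subadditivity of the ribbon number
-/

set_option autoImplicit false

namespace Pool.Agent.H86.RB

theorem rib_spec (K : Wd) (h : Rb K) : ∃ S, Dsk S ∧ passes S = rib K ∧ Iso (bdw S) K := by
  have hne : {r | ∃ S, Dsk S ∧ passes S = r ∧ Iso (bdw S) K}.Nonempty := by
    obtain ⟨S, h1, h2⟩ := h
    exact ⟨passes S, S, h1, rfl, h2⟩
  exact Nat.sInf_mem hne

theorem rib_le (K : Wd) (S : List Bd) (h : Dsk S) (hi : Iso (bdw S) K) : rib K ≤ passes S :=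
  Nat.sInf_le ⟨S, h, rfl, hi⟩

theorem sub_aux (L : List Wd) (h : ∀ K ∈ L, Kn K ∧ Rb K) :
    ∃ S, Dsk S ∧ passes S = (L.map rib).sum ∧ Iso (bdw S) L.flatten := by
  induction L with
  | nil => exact ⟨[], dsk_nil, rfl, Relation.ReflTransGen.refl⟩
  | cons K L ih =>
    obtain ⟨S, h1, h2, h3⟩ := ih fun K' hK' => h K' (by simp [hK'])
    obtain ⟨T, g1, g2, g3⟩ := rib_spec K (h K (by simp)).2
    refine ⟨T ++ S, dsk_append T S g1 h1, ?_, ?_⟩
    · rw [passes_append, g2, h2, List.map_cons, List.sum_cons]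
    · rw [bdw_append, List.flatten_cons]
      exact iso_append (dsk_ty S h1) (h K (by simp)).1.1 g3 h3

theorem rb_flatten (L : List Wd) (h : ∀ K ∈ L, Kn K ∧ Rb K) : Rb L.flatten := by
  obtain ⟨S, h1, _, h3⟩ := sub_aux L h
  exact ⟨S, h1, h3⟩

theorem rib_flatten_le (L : List Wd) (h : ∀ K ∈ L, Kn K ∧ Rb K) :
    rib L.flatten ≤ (L.map rib).sum := by
  obtain ⟨S, h1, h2, h3⟩ := sub_aux L h
  rw [← h2]
  exact rib_le _ S h1 h3

end Pool.Agent.H86.RB
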