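import Pool.Agent.H86.RB.Cnt
import Pool.Agent.H86.RB.Sub

/-!
# The determinant is odd; the boundary of a ribbon disk is a knot
-/

set_option autoImplicit false

namespace Pool.Agent.H86.RB

theorem ext_zero {N m : ℕ} (w : Fin m → ZMod N) : ext w 0 = 0 := by simp [ext]

theorem ext_succ {N m : ℕ} (w : Fin m → ZMod N) (j : Fin m) : ext w ((j : ℕ) + 1) = w j := by
  simp [ext]

/-- a vector of the kernel gives colours of the pieces -/
theorem kf_rows {N m : ℕ} [NeZero N] {R : List Row} (hm : R.length = m)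
    (hR : ∀ r ∈ R, r.x ≤ m ∧ r.y ≤ m ∧ r.z ≤ m) {w : Fin m → ZMod N} (hw : w ∈ Kf N (Mt R m)) :
    ∀ r ∈ R, r.val (ext w) = 0 := by
  intro r hr
  obtain ⟨i, hi, rfl⟩ := List.mem_iff_getElem.1 hr
  simp only [Kf, Finset.mem_filter, Finset.mem_univ, true_and] at hw
  have h1 := hw ⟨i, by omega⟩
  have h2 := row_sum (m := m) (ext w) (ext_zero w) R[i] (hR _ hr)
  rw [← h2]
  have h3 : R.getD i (.mg 0 0) = R[i] := by
    rw [List.getD_eq_getElem _ _ hi]
  simp only [Mt, h3] at h1
  simpa [ext_succ] using h1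

theorem rows_le (S : List Bd) (hb : births S = merges S) {m : ℕ}
    (hm : (rows S 1 [0]).length = m) :
    births S + passes S = m ∧ ∀ r ∈ rows S 1 [0], r.x ≤ m ∧ r.y ≤ m ∧ r.z ≤ m := by
  have hbm : births S + passes S = m := by rw [← hm, rows_len, hb]
  refine ⟨hbm, fun r hr => ?_⟩
  have := rows_lt S 1 [0] Nat.one_pos (by simp) r hr
  omega

theorem kf_two_trivial (S : List Bd) (h : Dsk S) {m : ℕ} (hm : (rows S 1 [0]).length = m) :
    ∀ w ∈ Kf 2 (Mt (rows S 1 [0]) m), w = 0 := by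
  intro w hw
  obtain ⟨hbm, hR⟩ := rows_le S h.2.2 hm
  have h1 := kf_rows hm hR hw
  have h2 := h.2.1 {v | ext w v = 0} (ext_zero w) (by
    intro r hr
    have h3 := h1 r hr
    cases r with
    | mg a b =>
      simp only [Row.val] at h3
      simp only [Row.x, Row.y, Set.mem_ofPred_eq]
      rw [sub_eq_zero.1 h3]
    | ps a n b =>
      simp only [Row.val] at h3
      simp only [Row.x, Row.y, Set.mem_ofPred_eq]
      have h4 : (2 : ZMod 2) = 0 := rfl
      rw [h4, zero_mul, sub_zero] at h3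
      constructor
      · intro h5
        rw [h5, zero_add] at h3
        exact h3
      · intro h5
        rw [h5, add_zero] at h3
        exact h3)
  funext j
  have h5 := h2 ((j : ℕ) + 1) (by rw [hbm]; exact j.2)
  rw [Set.mem_ofPred_eq, ext_succ] at h5
  exact h5

theorem map_det_ne {m : ℕ} (M : Matrix (Fin m) (Fin m) ℤ) (h : ∀ w ∈ Kf 2 M, w = 0) :
    (M.map (Int.castRingHom (ZMod 2))).det ≠ 0 := by
  intro h0
  obtain ⟨v, hv, hv0⟩ := Matrix.exists_mulVec_eq_zero_iff.2 h0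
  apply hv
  apply h
  simp only [Kf, Finset.mem_filter, Finset.mem_univ, true_and]
  intro i
  exact congrFun hv0 i

theorem odd_of_kf {m : ℕ} (M : Matrix (Fin m) (Fin m) ℤ) (h : ∀ w ∈ Kf 2 M, w = 0) :
    Odd M.det := by
  have h1 := map_det_ne M h
  rw [← Int.not_even_iff_odd]
  intro he
  apply h1
  have h2 : (M.map (Int.castRingHom (ZMod 2))).det = ((M.det : ℤ) : ZMod 2) := by
    have := (Int.castRingHom (ZMod 2)).map_det M
    rw [RingHom.mapMatrix_apply] at this
    rw [← this]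
    rfl
  rw [h2, ZMod.intCast_zmod_eq_zero_iff_dvd]
  exact he.two_dvd

theorem kf_of_odd {m : ℕ} (M : Matrix (Fin m) (Fin m) ℤ) (h : Odd M.det) :
    ∀ w ∈ Kf 2 M, w = 0 := by
  intro w hw
  by_contra hne
  have h1 : (M.map (Int.castRingHom (ZMod 2))).det = 0 := by
    rw [← Matrix.exists_mulVec_eq_zero_iff]
    refine ⟨w, hne, ?_⟩
    funext i
    simp only [Kf, Finset.mem_filter, Finset.mem_univ, true_and] at hw
    exact hw i
  have h2 : (M.map (Int.castRingHom (ZMod 2))).det = ((M.det : ℤ) : ZMod 2) := by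
    have := (Int.castRingHom (ZMod 2)).map_det M
    rw [RingHom.mapMatrix_apply] at this
    rw [← this]
    rfl
  rw [h2, ZMod.intCast_zmod_eq_zero_iff_dvd] at h1
  rw [← Int.not_even_iff_odd] at h
  exact h (even_iff_two_dvd.2 h1)

theorem odd_det (S : List Bd) (h : Dsk S) {m : ℕ} (hm : (rows S 1 [0]).length = m) :
    Odd (Mt (rows S 1 [0]) m).det :=
  odd_of_kf _ (kf_two_trivial S h hm)

theorem kf_card_one {m : ℕ} (M : Matrix (Fin m) (Fin m) ℤ) (h : Odd M.det) :
    (Kf 2 M).card ≤ 1 := by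
  rw [Finset.card_le_one]
  intro a ha b hb
  rw [kf_of_odd M h a ha, kf_of_odd M h b hb]

/-- the boundary of a ribbon disk is a knot -/
theorem kn_bdw (S : List Bd) (h : Dsk S) : Kn (bdw S) := by
  refine ⟨dsk_ty S h, le_antisymm ?_ (one_le_col _ (dsk_ty S h))⟩
  have h1 := odd_det S h rfl
  calc col 2 (bdw S) ≤ _ := cnt (N := 2) S h.1 h.2.2 rfl
    _ ≤ 1 * 1 := Nat.mul_le_mul (kf_card_one _ h1) (kf_card_one _ (by
      rw [Matrix.det_transpose]; exact h1))
    _ = 1 := one_mul 1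

end Pool.Agent.H86.RB
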