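import Pool.Agent.H86.RB.Defs

/-!
# Basic properties of the colourings of a diagram
-/

set_option autoImplicit false

namespace Pool.Agent.H86.RB

variable {N : ℕ} [NeZero N]

theorem run_nil (l : List (ZMod N)) : run N [] l = {l} := rfl

theorem run_cons (s : Sl) (w : Wd) (l : List (ZMod N)) :
    run N (s :: w) l = (stp N s l).bind (run N w) := rfl

theorem run_append (v w : Wd) (l : List (ZMod N)) :
    run N (v ++ w) l = (run N v l).bind (run N w) := by
  induction v generalizing l with
  | nil => simp [run_nil]
  | cons s v ih =>
    rw [List.cons_append, run_cons, run_cons, Multiset.bind_assoc]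
    exact Multiset.bind_congr fun r _ => ih r

theorem run_nil_bind (m : Multiset (List (ZMod N))) : m.bind (run N []) = m := by
  have : (run N [] : List (ZMod N) → Multiset (List (ZMod N))) = fun l => {l} := rfl
  rw [this]
  exact Multiset.bind_singleton m id |>.trans (Multiset.map_id m)

theorem stp_shift (k : Kd) (j : ℕ) (x l : List (ZMod N)) :
    stp N ⟨k, x.length + j⟩ (x ++ l) = (stp N ⟨k, j⟩ l).map (fun r => x ++ r) := by
  simp only [stp, List.drop_append, Multiset.map_map, Function.comp_def]
  rw [List.take_append, List.drop_of_length_le (by omega), List.take_of_length_le (by omega)]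
  simp

theorem run_shift (w : Wd) (x l : List (ZMod N)) :
    run N (w.map (fun s => (⟨s.k, x.length + s.i⟩ : Sl))) (x ++ l) =
      (run N w l).map (fun r => x ++ r) := by
  induction w generalizing l with
  | nil => simp [run_nil]
  | cons s w ih =>
    rw [List.map_cons, run_cons, run_cons, stp_shift, Multiset.bind_map, Multiset.map_bind]
    exact Multiset.bind_congr fun r _ => ih r

/-- a piece does not see what is on its right -/
theorem loc_right (k : Kd) (l r : List (ZMod N)) (h : k.nin ≤ l.length) :
    loc N k (l ++ r) = (loc N k l).map (fun t => t ++ r) := by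
  cases k with
  | cup => simp [loc, Multiset.map_map]
  | cap =>
    match l, h with
    | a :: b :: l, _ =>
      by_cases hab : a = b
      · simp [loc, hab]
      · simp [loc, hab]
  | pos =>
    match l, h with
    | a :: b :: l, _ => simp [loc]
  | neg =>
    match l, h with
    | a :: b :: l, _ => simp [loc]

theorem stp_right (s : Sl) (l r : List (ZMod N)) (h : s.i + s.k.nin ≤ l.length) :
    stp N s (l ++ r) = (stp N s l).map (fun t => t ++ r) := by
  unfold stp
  rw [List.drop_append_of_le_length (by omega), List.take_append_of_le_length (by omega),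
    loc_right _ _ _ (by rw [List.length_drop]; omega), Multiset.map_map, Multiset.map_map]
  simp

theorem loc_len (k : Kd) (l t : List (ZMod N)) (h : k.nin ≤ l.length) (ht : t ∈ loc N k l) :
    t.length = l.length - k.nin + k.nout := by
  cases k with
  | cup =>
    simp only [loc, Multiset.mem_map] at ht
    obtain ⟨c, _, rfl⟩ := ht
    simp [Kd.nin, Kd.nout]
  | cap =>
    match l, h with
    | a :: b :: l, _ =>
      by_cases hab : a = b
      · simp only [loc, hab, if_true, Multiset.mem_singleton] at ht
        subst ht
        simp [Kd.nin, Kd.nout]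
      · simp [loc, hab] at ht
  | pos =>
    match l, h with
    | a :: b :: l, _ =>
      simp only [loc, Multiset.mem_singleton] at ht
      subst ht
      simp [Kd.nin, Kd.nout]
  | neg =>
    match l, h with
    | a :: b :: l, _ =>
      simp only [loc, Multiset.mem_singleton] at ht
      subst ht
      simp [Kd.nin, Kd.nout]

theorem stp_len (s : Sl) (l t : List (ZMod N)) (h : s.i + s.k.nin ≤ l.length)
    (ht : t ∈ stp N s l) : t.length = l.length - s.k.nin + s.k.nout := by
  simp only [stp, Multiset.mem_map] at ht
  obtain ⟨r, hr, rfl⟩ := ht
  have h1 := loc_len s.k (l.drop s.i) r (by rw [List.length_drop]; omega) hr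
  rw [List.length_drop] at h1
  rw [List.length_append, List.length_take, h1]
  omega

theorem ty_nil (n : ℕ) : ty [] n = some n := rfl

theorem ty_cons (s : Sl) (w : Wd) (n : ℕ) :
    ty (s :: w) n = if s.i + s.k.nin ≤ n then ty w (n - s.k.nin + s.k.nout) else none := rfl

theorem ty_append (v w : Wd) (n : ℕ) : ty (v ++ w) n = (ty v n).bind (ty w) := by
  induction v generalizing n with
  | nil => rfl
  | cons s v ih =>
    rw [List.cons_append, ty_cons, ty_cons]
    split_ifs with h
    · exact ih _
    · rfl

theorem run_len (w : Wd) (l : List (ZMod N)) (m : ℕ) (h : ty w l.length = some m) :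
    ∀ t ∈ run N w l, t.length = m := by
  induction w generalizing l with
  | nil =>
    intro t ht
    rw [run_nil, Multiset.mem_singleton] at ht
    rw [ty_nil] at h
    subst ht
    exact Option.some.inj h
  | cons s w ih =>
    intro t ht
    rw [run_cons, Multiset.mem_bind] at ht
    obtain ⟨r, hr, ht⟩ := ht
    rw [ty_cons] at h
    split_ifs at h with h1
    refine ih r ?_ t ht
    rw [stp_len s l r h1 hr]
    exact h

end Pool.Agent.H86.RB
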