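import Mathlib

/-!
# Determinants of matrices whose rows have at most one entry `1` and at most one entry `-1`
-/

set_option autoImplicit false

namespace Pool.Agent.H86.RB

/-- a row with at most one entry `1`, at most one entry `-1`, all others `0` -/
def Tr {ι : Type*} (r : ι → ℤ) : Prop :=
  (∀ j, r j = 0 ∨ r j = 1 ∨ r j = -1) ∧ (∀ j j', r j = 1 → r j' = 1 → j = j') ∧
    (∀ j j', r j = -1 → r j' = -1 → j = j')

theorem tr_comp {ι κ : Type*} {r : ι → ℤ} (h : Tr r) (e : κ → ι) (he : Function.Injective e) :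
    Tr (fun j => r (e j)) :=
  ⟨fun j => h.1 (e j), fun _ _ h1 h2 => he (h.2.1 _ _ h1 h2),
    fun _ _ h1 h2 => he (h.2.2 _ _ h1 h2)⟩

theorem tr_abs {ι : Type*} {r : ι → ℤ} (h : Tr r) (j : ι) : |r j| ≤ 1 := by
  rcases h.1 j with h1 | h1 | h1 <;> simp [h1]

/-- the row sum is zero if there are two non-zero entries -/
theorem tr_sum {m : ℕ} {r : Fin m → ℤ} (h : Tr r) {a b : Fin m} (hab : a ≠ b) (ha : r a ≠ 0)
    (hb : r b ≠ 0) : ∑ j, r j = 0 := by
  classical
  have hsum : r a + r b = 0 := by
    rcases h.1 a with h1 | h1 | h1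
    · exact absurd h1 ha
    · rcases h.1 b with h2 | h2 | h2
      · exact absurd h2 hb
      · exact absurd (h.2.1 a b h1 h2) hab
      · rw [h1, h2]; norm_num
    · rcases h.1 b with h2 | h2 | h2
      · exact absurd h2 hb
      · rw [h1, h2]; norm_num
      · exact absurd (h.2.2 a b h1 h2) hab
  have hrest : ∀ j, j ≠ a → j ≠ b → r j = 0 := by
    intro j ja jb
    rcases h.1 j with h1 | h1 | h1
    · exact h1
    · exfalso
      rcases h.1 a with h2 | h2 | h2
      · exact ha h2
      · exact ja (h.2.1 j a h1 h2)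
      · have h3 : r b = 1 := by rw [h2] at hsum; omega
        exact jb (h.2.1 j b h1 h3)
    · exfalso
      rcases h.1 a with h2 | h2 | h2
      · exact ha h2
      · have h3 : r b = -1 := by rw [h2] at hsum; omega
        exact jb (h.2.2 j b h1 h3)
      · exact ja (h.2.2 j a h1 h2)
  rw [← Finset.add_sum_erase _ _ (Finset.mem_univ a),
    ← Finset.add_sum_erase _ _ (Finset.mem_erase.2 ⟨hab.symm, Finset.mem_univ b⟩)]
  have : ∑ j ∈ (Finset.univ.erase a).erase b, r j = 0 := by
    apply Finset.sum_eq_zero
    intro j hj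
    rw [Finset.mem_erase, Finset.mem_erase] at hj
    exact hrest j hj.2.1 hj.1
  rw [this]
  linarith

theorem tu_det (m : ℕ) (M : Matrix (Fin m) (Fin m) ℤ) (h : ∀ i, Tr (M i)) : |M.det| ≤ 1 := by
  induction m with
  | zero => simp
  | succ m ih =>
    by_cases hc : ∃ (i j : Fin (m + 1)), ∀ j', j' ≠ j → M i j' = 0
    · obtain ⟨i, j, hij⟩ := hc
      rw [Matrix.det_succ_row M i, Finset.sum_eq_single j]
      · rw [abs_mul, abs_mul, abs_pow, abs_neg, abs_one, one_pow, one_mul]
        have h1 : |M i j| ≤ 1 := tr_abs (h i) j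
        have h2 : |(M.submatrix i.succAbove j.succAbove).det| ≤ 1 :=
          ih _ fun i' => tr_comp (h (i.succAbove i')) j.succAbove Fin.succAbove_right_injective
        calc |M i j| * |(M.submatrix i.succAbove j.succAbove).det| ≤ 1 * 1 :=
              mul_le_mul h1 h2 (abs_nonneg _) zero_le_one
          _ = 1 := one_mul 1
      · intro j' _ hj'
        rw [hij j' hj']
        ring
      · intro hj
        exact absurd (Finset.mem_univ _) hj
    · push Not at hc
      have h0 : M.det = 0 := by
        rw [← Matrix.exists_mulVec_eq_zero_iff]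
        refine ⟨fun _ => 1, ?_, ?_⟩
        · intro h1
          have := congrFun h1 0
          simp at this
        · funext i
          obtain ⟨a, _, ha⟩ := hc i 0
          obtain ⟨b, hba, hb⟩ := hc i a
          simp only [Matrix.mulVec, dotProduct, mul_one, Pi.zero_apply]
          exact tr_sum (h i) hba.symm ha hb
      rw [h0]
      simp

end Pool.Agent.H86.RB
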