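import Pool.Agent.H86.RB.Names

/-!
# The names of the pieces, when the list of the bands is cut at the slice
-/

set_option autoImplicit false

namespace Pool.Agent.H86.RB

theorem getD_at {x y : List ℕ} {a i : ℕ} (h : x.length = i) : (x ++ a :: y).getD i 0 = a := by
  subst h
  simp [List.getD_eq_getElem?_getD]

theorem getD_at1 {x y : List ℕ} {a b i : ℕ} (h : x.length = i) :
    (x ++ a :: b :: y).getD (i + 1) 0 = b := by
  subst h
  simp [List.getD_eq_getElem?_getD]

theorem take_at {x y : List ℕ} {a i : ℕ} (h : x.length = i) :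
    (x ++ a :: y).take (i + 1) = x ++ [a] := by
  subst h
  simp [List.take_append]

theorem drop_at1 {x y : List ℕ} {a i : ℕ} (h : x.length = i) :
    (x ++ a :: y).drop (i + 1) = y := by
  subst h
  simp [List.drop_append]

theorem drop_at2 {x y : List ℕ} {a b i : ℕ} (h : x.length = i) :
    (x ++ a :: b :: y).drop (i + 2) = y := by
  subst h
  simp [List.drop_append]

theorem rst_birth {j k : ℕ} {x y : List ℕ} (h : x.length = j + 1) :
    rst (.birth j) k (x ++ y) = ([], k + 1, x ++ k :: y) := by
  simp only [rst, List.take_left' h, List.drop_left' h]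

theorem rst_death {j k a : ℕ} {x y : List ℕ} (h : x.length = j + 1) :
    rst (.death j) k (x ++ a :: y) = ([], k, x ++ y) := by
  have := drop_at1 (y := y) (a := a) h
  simp only [rst, List.take_left' h, this]

theorem rst_split {j k a : ℕ} {x y : List ℕ} (h : x.length = j) :
    rst (.split j) k (x ++ a :: y) = ([], k, x ++ a :: a :: y) := by
  simp only [rst, take_at h, List.drop_left' h, List.append_assoc, List.cons_append,
    List.nil_append]

theorem rst_merge {j k a b : ℕ} {x y : List ℕ} (h : x.length = j) :
    rst (.merge j) k (x ++ a :: b :: y) = ([.mg a b], k, x ++ a :: y) := by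
  simp only [rst, take_at h, drop_at2 h, getD_at h, getD_at1 h, List.append_assoc,
    List.cons_append, List.nil_append]

theorem rst_twist {p : Bool} {j k : ℕ} {vs : List ℕ} :
    rst (.twist p j) k vs = ([], k, vs) := rfl

theorem rst_cross {p : Bool} {j k a b : ℕ} {x y : List ℕ} (h : x.length = j + 1) :
    rst (.cross p j) k (x ++ a :: b :: y) = ([], k, x ++ b :: a :: y) := by
  have h1 : (x ++ a :: b :: y).getD (j + 2) 0 = b := getD_at1 h
  have h2 : (x ++ a :: b :: y).drop (j + 3) = y := drop_at2 h
  simp only [rst, List.take_left' h, getD_at h, h1, h2]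

theorem rst_passR {p : Bool} {j k a b : ℕ} {x y : List ℕ} (h : x.length = j + 1) :
    rst (.passR p j) k (x ++ a :: b :: y) = ([.ps a k b], k + 1, x ++ b :: k :: y) := by
  have h1 : (x ++ a :: b :: y).getD (j + 2) 0 = b := getD_at1 h
  have h2 : (x ++ a :: b :: y).drop (j + 3) = y := drop_at2 h
  simp only [rst, List.take_left' h, getD_at h, h1, h2]

theorem rst_passL {p : Bool} {j k a b : ℕ} {x y : List ℕ} (h : x.length = j + 1) :
    rst (.passL p j) k (x ++ a :: b :: y) = ([.ps b k a], k + 1, x ++ k :: a :: y) := by
  have h1 : (x ++ a :: b :: y).getD (j + 2) 0 = b := getD_at1 h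
  have h2 : (x ++ a :: b :: y).drop (j + 3) = y := drop_at2 h
  simp only [rst, List.take_left' h, getD_at h, h1, h2]

end Pool.Agent.H86.RB
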