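import Pool.Agent.H86.RB.Bk
import Pool.Agent.H86.RB.Zip

/-!
# Colourings without flow are given by colours of the pieces
-/

set_option autoImplicit false

namespace Pool.Agent.H86.RB

variable {N : ℕ}

/-- the state given by the colours `u` of the pieces -/
def dg (u : ℕ → ZMod N) (vs : List ℕ) : List (ZMod N × ZMod N) := vs.map (fun v => (u v, u v))

/-- the choices of one slice -/
def chs (u : ℕ → ZMod N) : Bd → ℕ → List ℕ → List (ZMod N)
  | .birth _, k, _ => [u k]
  | .split j, _, vs => [u (vs.getD j 0)]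
  | _, _, _ => []

/-- the choices -/
def chw (u : ℕ → ZMod N) : List Bd → ℕ → List ℕ → List (ZMod N)
  | [], _, _ => []
  | s :: S, k, vs => chs u s k vs ++ chw u S (k + bp s) (rst s k vs).2.2

theorem dg_app (u : ℕ → ZMod N) (x y : List ℕ) : dg u (x ++ y) = dg u x ++ dg u y := by
  simp [dg]

theorem dg_cns (u : ℕ → ZMod N) (v : ℕ) (y : List ℕ) : dg u (v :: y) = (u v, u v) :: dg u y := rfl

theorem dg_len (u : ℕ → ZMod N) (x : List ℕ) : (dg u x).length = x.length := by simp [dg]

theorem dg_congr {u u' : ℕ → ZMod N} {vs : List ℕ} (h : ∀ v ∈ vs, u v = u' v) :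
    dg u vs = dg u' vs := by
  unfold dg
  apply List.map_congr_left
  intro v hv
  rw [h v hv]

theorem dg_eq_app {u : ℕ → ZMod N} {vs : List ℕ} {x y : List (ZMod N × ZMod N)}
    (h : x ++ y = dg u vs) : ∃ v1 v2, vs = v1 ++ v2 ∧ x = dg u v1 ∧ y = dg u v2 := by
  obtain ⟨v1, v2, h1, h2, h3⟩ := List.map_eq_append_iff.1 h.symm
  exact ⟨v1, v2, h1, h2.symm, h3.symm⟩

theorem dg_eq_cons {u : ℕ → ZMod N} {vs : List ℕ} {a b : ZMod N} {y : List (ZMod N × ZMod N)}
    (h : (a, b) :: y = dg u vs) : ∃ v v2, vs = v :: v2 ∧ a = u v ∧ b = u v ∧ y = dg u v2 := by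
  obtain ⟨v, v2, h1, h2, h3⟩ := List.map_eq_cons_iff.1 h.symm
  rw [Prod.mk.injEq] at h2
  exact ⟨v, v2, h1, h2.1.symm, h2.2.symm, h3.symm⟩

theorem dg_up {u : ℕ → ZMod N} {k : ℕ} {w : ZMod N} {vs : List ℕ} (hv : ∀ v ∈ vs, v < k) :
    dg (Function.update u k w) vs = dg u vs :=
  dg_congr fun v h => Function.update_of_ne (hv v h).ne _ _

theorem up_lt {u : ℕ → ZMod N} {k v : ℕ} {w : ZMod N} (h : v < k) :
    Function.update u k w v = u v := Function.update_of_ne h.ne _ _

theorem sp_dg {s : Bd} {st st' : List (ZMod N × ZMod N)} {c f : List (ZMod N)}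
    (h : Sp N s st c f st') (u : ℕ → ZMod N) (k : ℕ) (vs : List ℕ) (hv : ∀ v ∈ vs, v < k)
    (hst : st = dg u vs) (h' : Dg st') :
    ∃ w : ZMod N, (∀ r ∈ (rst s k vs).1, r.val (Function.update u k w) = 0) ∧
      st' = dg (Function.update u k w) (rst s k vs).2.2 ∧ c = chs (Function.update u k w) s k vs := by
  cases h with
  | birth j x y c hx =>
    obtain ⟨v1, v2, rfl, rfl, rfl⟩ := dg_eq_app hst
    rw [dg_len] at hx
    refine ⟨c, ?_, ?_, ?_⟩
    · simp [rst_birth hx]
    · have h1 : ∀ v ∈ v1, v < k := fun v h => hv v (List.mem_append_left _ h)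
      have h2 : ∀ v ∈ v2, v < k := fun v h => hv v (List.mem_append_right _ h)
      rw [rst_birth hx]
      simp only [dg_app, dg_cns, dg_up h1, dg_up h2, Function.update_self]
    · simp [chs]
  | death j x y c hx =>
    obtain ⟨v1, v2, rfl, rfl, h2⟩ := dg_eq_app hst
    obtain ⟨v, v3, rfl, h3, h4, rfl⟩ := dg_eq_cons h2
    rw [dg_len] at hx
    refine ⟨0, ?_, ?_, rfl⟩
    · simp [rst_death hx]
    · have h1 : ∀ v ∈ v1, v < k := fun v h => hv v (List.mem_append_left _ h)
      have h2 : ∀ v ∈ v3, v < k := fun w h => hv w (List.mem_append_right _ (List.mem_cons_of_mem _ h))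
      rw [rst_death hx]
      simp only [dg_app, dg_up h1, dg_up h2]
  | split j x y a b c hx =>
    obtain ⟨v1, v2, rfl, rfl, h2⟩ := dg_eq_app hst
    obtain ⟨v, v3, rfl, h3, h4, rfl⟩ := dg_eq_cons h2
    rw [dg_len] at hx
    rw [dg_append, dg_cons, dg_cons] at h'
    have hvk : v < k := hv v (by simp)
    have hc : c = u v := h'.2.1.symm.trans h3
    refine ⟨0, ?_, ?_, ?_⟩
    · simp [rst_split hx]
    · have h1 : ∀ v ∈ v1, v < k := fun v h => hv v (List.mem_append_left _ h)
      have h2 : ∀ v ∈ v3, v < k := fun w h => hv w (List.mem_append_right _ (List.mem_cons_of_mem _ h))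
      rw [rst_split hx]
      simp only [dg_app, dg_cns, dg_up h1, dg_up h2, up_lt hvk, hc, h3, h4]
    · simp only [chs, getD_at hx, up_lt hvk, hc]
  | merge j x y a c d hx =>
    obtain ⟨v1, v2, rfl, rfl, h2⟩ := dg_eq_app hst
    obtain ⟨v, v3, rfl, h3, h4, h5⟩ := dg_eq_cons h2
    obtain ⟨v', v4, rfl, h6, h7, rfl⟩ := dg_eq_cons h5
    rw [dg_len] at hx
    have hvk : v < k := hv v (by simp)
    have hvk' : v' < k := hv v' (by simp)
    refine ⟨0, ?_, ?_, rfl⟩
    · rw [rst_merge hx]
      intro r hr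
      rw [List.mem_singleton] at hr
      subst hr
      simp only [Row.val, up_lt hvk, up_lt hvk']
      rw [← h4, ← h6, sub_self]
    · have h1 : ∀ v ∈ v1, v < k := fun v h => hv v (List.mem_append_left _ h)
      have h2 : ∀ v ∈ v4, v < k := fun w h => hv w (List.mem_append_right _
        (List.mem_cons_of_mem _ (List.mem_cons_of_mem _ h)))
      rw [rst_merge hx]
      simp only [dg_app, dg_cns, dg_up h1, dg_up h2, up_lt hvk]
      rw [h3, h7, ← h6, h4]
  | twt j x y a b hx =>
    refine ⟨0, by simp [rst], ?_, rfl⟩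
    obtain ⟨v1, v2, rfl, rfl, h2⟩ := dg_eq_app hst
    obtain ⟨v, v3, rfl, h3, h4, rfl⟩ := dg_eq_cons h2
    rw [rst_twist, dg_up hv, dg_app, dg_cns, h3, h4, show 2 * u v - u v = u v by ring]
  | twf j x y a b hx =>
    refine ⟨0, by simp [rst], ?_, rfl⟩
    obtain ⟨v1, v2, rfl, rfl, h2⟩ := dg_eq_app hst
    obtain ⟨v, v3, rfl, h3, h4, rfl⟩ := dg_eq_cons h2
    rw [rst_twist, dg_up hv, dg_app, dg_cns, h3, h4, show 2 * u v - u v = u v by ring]
  | crt j x y a b c d hx =>
    obtain ⟨v1, v2, rfl, rfl, h2⟩ := dg_eq_app hst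
    obtain ⟨v, v3, rfl, h3, h4, h5⟩ := dg_eq_cons h2
    obtain ⟨v', v4, rfl, h6, h7, rfl⟩ := dg_eq_cons h5
    rw [dg_len] at hx
    have hvk : v < k := hv v (by simp)
    have hvk' : v' < k := hv v' (by simp)
    refine ⟨0, by rw [rst_cross hx]; simp, ?_, rfl⟩
    have h1 : ∀ v ∈ v1, v < k := fun v h => hv v (List.mem_append_left _ h)
    have h2 : ∀ v ∈ v4, v < k := fun w h => hv w (List.mem_append_right _
        (List.mem_cons_of_mem _ (List.mem_cons_of_mem _ h)))
    rw [rst_cross hx]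
    simp only [dg_app, dg_cns, dg_up h1, dg_up h2, up_lt hvk, up_lt hvk']
    rw [h3, h4, h6, h7, show u v' - 2 * (u v - u v) = u v' by ring]
  | crf j x y a b c d hx =>
    obtain ⟨v1, v2, rfl, rfl, h2⟩ := dg_eq_app hst
    obtain ⟨v, v3, rfl, h3, h4, h5⟩ := dg_eq_cons h2
    obtain ⟨v', v4, rfl, h6, h7, rfl⟩ := dg_eq_cons h5
    rw [dg_len] at hx
    have hvk : v < k := hv v (by simp)
    have hvk' : v' < k := hv v' (by simp)
    refine ⟨0, by rw [rst_cross hx]; simp, ?_, rfl⟩
    have h1 : ∀ v ∈ v1, v < k := fun v h => hv v (List.mem_append_left _ h)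
    have h2 : ∀ v ∈ v4, v < k := fun w h => hv w (List.mem_append_right _
        (List.mem_cons_of_mem _ (List.mem_cons_of_mem _ h)))
    rw [rst_cross hx]
    simp only [dg_app, dg_cns, dg_up h1, dg_up h2, up_lt hvk, up_lt hvk']
    rw [h3, h4, h6, h7, show u v + 2 * (u v' - u v') = u v by ring]
  | prt j x y a b c d hx =>
    obtain ⟨v1, v2, rfl, rfl, h2⟩ := dg_eq_app hst
    obtain ⟨v, v3, rfl, h3, h4, h5⟩ := dg_eq_cons h2
    obtain ⟨v', v4, rfl, h6, h7, rfl⟩ := dg_eq_cons h5
    rw [dg_len] at hx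
    have hvk : v < k := hv v (by simp)
    have hvk' : v' < k := hv v' (by simp)
    refine ⟨2 * u v' - u v, ?_, ?_, rfl⟩
    · rw [rst_passR hx]
      intro r hr
      rw [List.mem_singleton] at hr
      subst hr
      simp only [Row.val, up_lt hvk, up_lt hvk', Function.update_self]
      ring
    · have h1 : ∀ v ∈ v1, v < k := fun v h => hv v (List.mem_append_left _ h)
      have h2 : ∀ v ∈ v4, v < k := fun w h => hv w (List.mem_append_right _
        (List.mem_cons_of_mem _ (List.mem_cons_of_mem _ h)))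
      rw [rst_passR hx]
      simp only [dg_app, dg_cns, dg_up h1, dg_up h2, up_lt hvk', Function.update_self]
      rw [h3, h4, h6, h7, show u v' - 2 * (u v - u v) = u v' by ring]
  | prf j x y a b c d hx =>
    obtain ⟨v1, v2, rfl, rfl, h2⟩ := dg_eq_app hst
    obtain ⟨v, v3, rfl, h3, h4, h5⟩ := dg_eq_cons h2
    obtain ⟨v', v4, rfl, h6, h7, rfl⟩ := dg_eq_cons h5
    rw [dg_len] at hx
    have hvk : v < k := hv v (by simp)
    have hvk' : v' < k := hv v' (by simp)
    refine ⟨2 * u v' - u v, ?_, ?_, rfl⟩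
    · rw [rst_passR hx]
      intro r hr
      rw [List.mem_singleton] at hr
      subst hr
      simp only [Row.val, up_lt hvk, up_lt hvk', Function.update_self]
      ring
    · have h1 : ∀ v ∈ v1, v < k := fun v h => hv v (List.mem_append_left _ h)
      have h2 : ∀ v ∈ v4, v < k := fun w h => hv w (List.mem_append_right _
        (List.mem_cons_of_mem _ (List.mem_cons_of_mem _ h)))
      rw [rst_passR hx]
      simp only [dg_app, dg_cns, dg_up h1, dg_up h2, up_lt hvk', Function.update_self]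
      rw [h3, h4, h6, h7, show u v' + 2 * (u v - u v) = u v' by ring]
  | plt j x y a b c d hx =>
    obtain ⟨v1, v2, rfl, rfl, h2⟩ := dg_eq_app hst
    obtain ⟨v, v3, rfl, h3, h4, h5⟩ := dg_eq_cons h2
    obtain ⟨v', v4, rfl, h6, h7, rfl⟩ := dg_eq_cons h5
    rw [dg_len] at hx
    have hvk : v < k := hv v (by simp)
    have hvk' : v' < k := hv v' (by simp)
    refine ⟨2 * u v - u v', ?_, ?_, rfl⟩
    · rw [rst_passL hx]
      intro r hr
      rw [List.mem_singleton] at hr
      subst hr
      simp only [Row.val, up_lt hvk, up_lt hvk', Function.update_self]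
      ring
    · have h1 : ∀ v ∈ v1, v < k := fun v h => hv v (List.mem_append_left _ h)
      have h2 : ∀ v ∈ v4, v < k := fun w h => hv w (List.mem_append_right _
        (List.mem_cons_of_mem _ (List.mem_cons_of_mem _ h)))
      rw [rst_passL hx]
      simp only [dg_app, dg_cns, dg_up h1, dg_up h2, up_lt hvk, Function.update_self]
      rw [h3, h4, h6, h7, show u v - 2 * (u v' - u v') = u v by ring]
  | plf j x y a b c d hx =>
    obtain ⟨v1, v2, rfl, rfl, h2⟩ := dg_eq_app hst
    obtain ⟨v, v3, rfl, h3, h4, h5⟩ := dg_eq_cons h2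
    obtain ⟨v', v4, rfl, h6, h7, rfl⟩ := dg_eq_cons h5
    rw [dg_len] at hx
    have hvk : v < k := hv v (by simp)
    have hvk' : v' < k := hv v' (by simp)
    refine ⟨2 * u v - u v', ?_, ?_, rfl⟩
    · rw [rst_passL hx]
      intro r hr
      rw [List.mem_singleton] at hr
      subst hr
      simp only [Row.val, up_lt hvk, up_lt hvk', Function.update_self]
      ring
    · have h1 : ∀ v ∈ v1, v < k := fun v h => hv v (List.mem_append_left _ h)
      have h2 : ∀ v ∈ v4, v < k := fun w h => hv w (List.mem_append_right _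
        (List.mem_cons_of_mem _ (List.mem_cons_of_mem _ h)))
      rw [rst_passL hx]
      simp only [dg_app, dg_cns, dg_up h1, dg_up h2, up_lt hvk, Function.update_self]
      rw [h3, h4, h6, h7, show u v + 2 * (u v' - u v') = u v by ring]

theorem val_congr {u u' : ℕ → ZMod N} {K : ℕ} (h : ∀ v < K, u v = u' v) {r : Row}
    (hr : r.x < K ∧ r.y < K ∧ r.z < K) : r.val u = r.val u' := by
  cases r with
  | mg a b =>
    simp only [Row.x, Row.y, Row.z] at hr
    simp only [Row.val, h a hr.1, h b hr.2.1]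
  | ps a n b =>
    simp only [Row.x, Row.y, Row.z] at hr
    simp only [Row.val, h a hr.1, h n hr.2.1, h b hr.2.2]

theorem chs_congr {u u' : ℕ → ZMod N} (s : Bd) (k : ℕ) (vs : List ℕ) (hk : 0 < k)
    (hv : ∀ v ∈ vs, v < k) (h : ∀ v < k + bp s, u v = u' v) : chs u s k vs = chs u' s k vs := by
  cases s with
  | birth j =>
    have h1 : k < k + bp (.birth j) := Nat.lt_succ_self k
    simp only [chs, h k h1]
  | split j =>
    have h1 := getD_lt hk hv j
    simp only [chs, h _ (h1.trans_le (Nat.le_add_right _ _))]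
  | death j => rfl
  | merge j => rfl
  | twist p j => rfl
  | cross p j => rfl
  | passR p j => rfl
  | passL p j => rfl

/-- a colouring without flow whose initial state is given by colours of the pieces -/
theorem ev_dg {S : List Bd} {st st' : List (ZMod N × ZMod N)} {c f : List (ZMod N)}
    (h : Ev N S st c f st') (hf : ∀ x ∈ f, x = 0) (h' : Dg st') (u : ℕ → ZMod N) (k : ℕ)
    (vs : List ℕ) (hk : 0 < k) (hv : ∀ v ∈ vs, v < k) (hst : st = dg u vs) :
    ∃ u' : ℕ → ZMod N, (∀ v < k, u' v = u v) ∧ (∀ v, k + births S + passes S ≤ v → u' v = 0) ∧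
      (∀ r ∈ rows S k vs, r.val u' = 0) ∧ c = chw u' S k vs := by
  induction h generalizing u k vs with
  | nil st =>
    refine ⟨fun v => if v < k then u v else 0, fun v hv => by simp [hv], fun v hv => ?_, ?_, rfl⟩
    · have : ¬ v < k := by simp only [births, passes, List.countP_nil] at hv; omega
      simp [this]
    · intro r hr
      simp [rows] at hr
  | cons s S st st1 st2 c1 c2 f1 f2 h1 h2 ih =>
    have hf2 : ∀ x ∈ f2, x = 0 := fun x hx => hf x (List.mem_append_right _ hx)
    have hb : Dg st1 := ev_back h2 hf2 h'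
    obtain ⟨w, g1, g2, g3⟩ := sp_dg h1 u k vs hv hst hb
    have hv1 := rst_lt s k vs hk hv
    rw [rst_cnt] at hv1
    obtain ⟨u', l1, l2, l3, l4⟩ := ih hf2 h' (Function.update u k w) (k + bp s) (rst s k vs).2.2
      (by omega) hv1 g2
    have hrow := rst_row_lt s k vs hk hv
    refine ⟨u', fun v hvk => ?_, fun v hv' => ?_, fun r hr => ?_, ?_⟩
    · rw [l1 v (by omega), up_lt hvk]
    · apply l2
      rw [births_cons s S, passes_cons s S] at hv'
      unfold bp
      omega
    · rw [rows_cons, List.mem_append] at hr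
      rcases hr with hr | hr
      · have h5 := hrow r hr
        rw [rst_cnt] at h5
        rw [val_congr l1 h5]
        exact g1 r hr
      · exact l3 r hr
    · rw [chw, g3, l4, chs_congr s k vs hk hv l1]

end Pool.Agent.H86.RB
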